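import Pool.Agent.Q116.GD.Fin

/-!
# Amplification of a negative gamma-number
-/

set_option autoImplicit false
set_option linter.unusedSectionVars false

namespace Q116.GD

open Pool.Agent.W497.FS Finset Polynomial

variable {k : Type} [Field k]

/-- `S` is a flag homology sphere of rank `d` over all fields of a family. -/
def Fam {ι : Type*} (F : ι → Type) [∀ j, Field (F j)] {n : ℕ} (d : ℕ)
    (S : Finset (Finset (Fin n))) : Prop := ∀ j, IsFlagSphere (F j) d S

/-- A sphere of rank `d` with more than `2 d` vertices has a vertex with two non-neighbours. -/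
theorem exists_vertex {n d : ℕ} {S : Finset (Finset (Fin n))} (hS : IsFlagSphere k d S)
    (hN : 2 * d < numVert S) :
    ∃ v ∈ vert S, (lk (skel S) (vert S) v).card + 3 ≤ numVert S := by
  classical
  rw [numVert_eq] at hN ⊢
  obtain ⟨F, hF, hFc, -⟩ := hS.np.exists_facet
  have hFs := (mem_cl.1 hF).1
  have h1 : ∀ x ∈ vert S \ F, ∃ u ∈ F, ¬ (skel S).Adj u x := by
    intro x hx
    by_contra hcon
    push Not at hcon
    obtain ⟨hx1, hx2⟩ := mem_sdiff.1 hx
    have h2 : insert x F ∈ cl (skel S) (vert S) := by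
      rw [mem_cl]
      refine ⟨insert_subset hx1 hFs, ?_⟩
      intro a ha b hb hab
      rw [mem_insert] at ha hb
      rcases ha with rfl | ha
      · exact (hcon b (hb.resolve_left hab.symm)).symm
      · rcases hb with rfl | hb
        · exact hcon a ha
        · exact (mem_cl.1 hF).2 a ha b hb hab
    have h3 := hS.np.card_le h2
    rw [card_insert_of_notMem hx2, hFc] at h3
    omega
  choose! f hf1 hf2 using h1
  have h4 : F.card < (vert S \ F).card := by
    rw [card_sdiff_of_subset hFs, hFc]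
    omega
  obtain ⟨x, hx, z, hz, hxz, hfxz⟩ := exists_ne_map_eq_of_card_lt_of_maps_to h4 hf1
  refine ⟨f x, hFs (hf1 x hx), ?_⟩
  have h5 : lk (skel S) (vert S) (f x) ⊆ ((vert S \ {f x}) \ {x}) \ {z} := by
    intro u hu
    obtain ⟨h6, h7⟩ := mem_lk.1 hu
    rw [mem_sdiff, mem_sdiff, mem_sdiff, mem_singleton, mem_singleton, mem_singleton]
    refine ⟨⟨⟨h6, h7.ne.symm⟩, ?_⟩, ?_⟩
    · rintro rfl
      exact hf2 u hx h7
    · rintro rfl
      apply hf2 u hz
      rw [← hfxz]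
      exact h7
  have hx1 := (mem_sdiff.1 hx)
  have hz1 := (mem_sdiff.1 hz)
  have hxf : x ≠ f x := fun h => hx1.2 (h ▸ hf1 x hx)
  have hzf : z ≠ f x := fun h => hz1.2 (h ▸ hf1 x hx)
  have h8 : (((vert S \ {f x}) \ {x}) \ {z}).card + 3 = (vert S).card := by
    rw [card_sdiff_of_subset, card_sdiff_of_subset, card_sdiff_of_subset, card_singleton,
      card_singleton, card_singleton]
    · have h9 : ({f x, x, z} : Finset (Fin n)).card = 3 := by
        rw [card_insert_of_notMem, card_pair hxz]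
        rw [mem_insert, mem_singleton]
        rintro (h | h)
        · exact hxf h.symm
        · exact hzf h.symm
      have h10 : ({f x, x, z} : Finset (Fin n)) ⊆ vert S := by
        intro u hu
        rw [mem_insert, mem_insert, mem_singleton] at hu
        rcases hu with rfl | rfl | rfl
        · exact hFs (hf1 x hx)
        · exact hx1.1
        · exact hz1.1
      have := card_le_card h10
      omega
    · exact singleton_subset_iff.2 (hFs (hf1 x hx))
    · rw [singleton_subset_iff, mem_sdiff, mem_singleton]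
      exact ⟨hx1.1, hxf⟩
    · rw [singleton_subset_iff, mem_sdiff, mem_sdiff, mem_singleton, mem_singleton]
      exact ⟨⟨hz1.1, hzf⟩, hxz.symm⟩
  have := card_le_card h5
  omega

variable {ι : Type*} {F : ι → Type} [∀ j, Field (F j)] [Nonempty ι]

/-- **Doubling.** If some sphere of rank `d + 1` has a negative `i`-th gamma-number, and the `i`-th
gamma-numbers of the spheres of rank `d` are nonnegative, then there are spheres `S_j` of rank
`d + 1` with at least `j` vertices, at most `2 ^ j |S|` faces and `γ_i ≤ -2 ^ j`. -/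
theorem doubling {n d i : ℕ} {S : Finset (Finset (Fin n))} (hS : Fam F (d + 1) S)
    {a : ℕ → ℤ} (ha : Exp (d + 1) (PS S) a) (hneg : a i < 0)
    (hlink : ∀ (n : ℕ) (S : Finset (Finset (Fin n))) (b : ℕ → ℤ), Fam F d S →
      Exp d (PS S) b → 0 ≤ b i) (j : ℕ) :
    ∃ (n' : ℕ) (S' : Finset (Finset (Fin n'))) (a' : ℕ → ℤ), Fam F (d + 1) S' ∧
      Exp (d + 1) (PS S') a' ∧ a' i ≤ -2 ^ j ∧ S'.card ≤ 2 ^ j * S.card ∧
      j ≤ numVert S' := by
  obtain ⟨t₀⟩ := ‹Nonempty ι›
  induction j with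
  | zero => exact ⟨n, S, a, hS, ha, by simpa using (by omega : a i ≤ -1), by simp, Nat.zero_le _⟩
  | succ j ih =>
    obtain ⟨n', S', a', h1, h2, h3, h4, h5⟩ := ih
    have hneg' : a' i < 0 := lt_of_le_of_lt h3 (by simp)
    have hi : i ≤ (d + 1) / 2 := by
      by_contra hcon
      have := h2.1 i (by omega)
      omega
    have hγ := isGamma_of_exp (h1 t₀) h2
    have hN : 2 * (d + 1) < numVert S' := by
      obtain ⟨g1, g2⟩ := gal_vanish (h1 t₀) hγ i hi
      by_contra hcon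
      rcases Nat.lt_or_ge (numVert S') (2 * (d + 1) + i) with h | h
      · have := g1 h
        omega
      · have h6 : numVert S' = 2 * (d + 1) + i := by omega
        rcases g2 h6 with h | h <;> omega
    obtain ⟨v, hv, hdeg⟩ := exists_vertex (h1 t₀) hN
    have hL : Fam F d (cl (skel S') (lk (skel S') (vert S') v)) := fun t => link_fin (h1 t) hv
    obtain ⟨b, hb⟩ := exists_exp (hL t₀)
    have hb0 := hlink _ _ b hL hb
    rw [PS_cl] at hb
    obtain ⟨S'', -, g1, g2, g3, g4⟩ := double_fin S' (h1 t₀).cl_eq hv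
    refine ⟨_, S'', (fun i => 2 * a' i - b i), fun t => g1 (F t) d (h1 t), ?_, ?_, ?_, ?_⟩
    · rw [g4]
      exact exp_double h2 hb
    · show 2 * a' i - b i ≤ -2 ^ (j + 1)
      rw [pow_succ]
      linarith
    · rw [pow_succ]
      calc S''.card ≤ 2 * S'.card := g3
        _ ≤ 2 * (2 ^ j * S.card) := Nat.mul_le_mul_left 2 h4
        _ = 2 ^ j * 2 * S.card := by ring
    · omega

/-- iterated joins with cycles -/
theorem joins {n d : ℕ} (hn : 0 < n) {S : Finset (Finset (Fin n))} (hS : Fam F d S)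
    {a : ℕ → ℤ} (ha : Exp d (PS S) a) (T : ℕ) (m : ℕ) :
    ∃ (n' : ℕ) (S' : Finset (Finset (Fin n'))), 0 < n' ∧ Fam F (d + 2 * m) S' ∧
      numVert S' = numVert S + m * (T + 4) ∧ S'.card = S.card * (2 * (T + 4) + 1) ^ m ∧
      Exp (d + 2 * m) (PS S') ((shiftAdd (T : ℤ))^[m] a) := by
  obtain ⟨t₀⟩ := ‹Nonempty ι›
  induction m with
  | zero => exact ⟨n, S, hn, hS, by simp, by simp, ha⟩
  | succ m ih =>
    obtain ⟨n', S', h0, h1, h2, h2', h3⟩ := ih
    obtain ⟨S'', -, g1, g2, g3, g4⟩ := join_fin h0 S' (h1 t₀).cl_eq (T + 4) (by omega)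
    refine ⟨_, S'', by omega, fun t => g1 (F t) _ (h1 t), ?_, ?_, ?_⟩
    · rw [g2, h2]
      ring
    · rw [g3, h2', pow_succ]
      ring
    · rw [Function.iterate_succ_apply', g4]
      have e : (((T + 4 : ℕ) : ℤ) - 4) = T := by push_cast; ring
      rw [e]
      exact exp_join h3 _

theorem iter_bound (T : ℤ) (hT : 1 ≤ T) (a : ℕ → ℤ) (A : ℤ) (hA : ∀ i, |a i| ≤ A) (m : ℕ) :
    ∀ i, |((shiftAdd T)^[m] a) i| ≤ A * (2 * T) ^ m := by
  have hA0 : 0 ≤ A := (abs_nonneg _).trans (hA 0)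
  induction m with
  | zero => simpa using hA
  | succ m ih =>
    intro i
    rw [Function.iterate_succ_apply']
    unfold shiftAdd
    have h1 := ih i
    have h2 : |if i = 0 then 0 else ((shiftAdd T)^[m] a) (i - 1)| ≤ A * (2 * T) ^ m := by
      split_ifs
      · rw [abs_zero]
        have : 0 ≤ 2 * T := by linarith
        positivity
      · exact ih (i - 1)
    have h3 : |T * (if i = 0 then 0 else ((shiftAdd T)^[m] a) (i - 1))| ≤ T * (A * (2 * T) ^ m) := by
      rw [abs_mul, abs_of_nonneg (by linarith : (0 : ℤ) ≤ T)]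
      exact mul_le_mul_of_nonneg_left h2 (by linarith)
    have h4 : 0 ≤ A * (2 * T) ^ m := (abs_nonneg _).trans h1
    calc _ ≤ |((shiftAdd T)^[m] a) i| +
          |T * (if i = 0 then 0 else ((shiftAdd T)^[m] a) (i - 1))| := abs_add_le _ _
      _ ≤ A * (2 * T) ^ m + T * (A * (2 * T) ^ m) := add_le_add h1 h3
      _ ≤ A * (2 * T) ^ (m + 1) := by
          rw [pow_succ]
          nlinarith

theorem iter_top (T : ℤ) (hT : 1 ≤ T) (a : ℕ → ℤ) (A : ℤ) (hA : ∀ i, |a i| ≤ A) (i m : ℕ) :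
    T * ((shiftAdd T)^[m] a) (i + m) ≤ a i * T ^ (m + 1) + m * A * 2 ^ m * T ^ m := by
  have hA0 : 0 ≤ A := (abs_nonneg _).trans (hA 0)
  induction m with
  | zero => simp [mul_comm]
  | succ m ih =>
    rw [Function.iterate_succ_apply']
    have h1 : shiftAdd T ((shiftAdd T)^[m] a) (i + (m + 1)) =
        ((shiftAdd T)^[m] a) (i + (m + 1)) + T * ((shiftAdd T)^[m] a) (i + m) := by
      rw [shiftAdd, if_neg (by omega)]
      rfl
    rw [h1]
    have h2 := (le_abs_self _).trans (iter_bound T hT a A hA m (i + (m + 1)))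
    have h3 : T * ((shiftAdd T)^[m] a) (i + (m + 1)) ≤ T * (A * (2 * T) ^ m) :=
      mul_le_mul_of_nonneg_left h2 (by linarith)
    have h4 : T * (T * ((shiftAdd T)^[m] a) (i + m)) ≤
        T * (a i * T ^ (m + 1) + m * A * 2 ^ m * T ^ m) :=
      mul_le_mul_of_nonneg_left ih (by linarith)
    have h5 : (0 : ℤ) ≤ A * 2 ^ m * T ^ (m + 1) := by positivity
    have h6 : (0 : ℤ) ≤ m * A * 2 ^ m * T ^ (m + 1) := by positivity
    calc T * (((shiftAdd T)^[m] a) (i + (m + 1)) + T * ((shiftAdd T)^[m] a) (i + m))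
        = T * ((shiftAdd T)^[m] a) (i + (m + 1)) +
          T * (T * ((shiftAdd T)^[m] a) (i + m)) := by ring
      _ ≤ T * (A * (2 * T) ^ m) + T * (a i * T ^ (m + 1) + m * A * 2 ^ m * T ^ m) :=
          add_le_add h3 h4
      _ = a i * T ^ (m + 1 + 1) + (A * 2 ^ m * T ^ (m + 1) + m * A * 2 ^ m * T ^ (m + 1)) := by
          rw [mul_pow]; ring
      _ ≤ a i * T ^ (m + 1 + 1) + ((m + 1 : ℕ) : ℤ) * A * 2 ^ (m + 1) * T ^ (m + 1) := by
          push_cast
          have e : ((m : ℤ) + 1) * A * 2 ^ (m + 1) * T ^ (m + 1) =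
              2 * (A * 2 ^ m * T ^ (m + 1) + m * A * 2 ^ m * T ^ (m + 1)) := by ring
          rw [e]
          linarith

/-- **Joins.** If some sphere of rank `d` has a negative `i`-th gamma-number, then for every
`m > 0` there are `c > 0` and spheres of rank `d + 2 m` with arbitrarily many vertices and
`γ_(i + m) ≤ -c (|S| + f_0 ^ m)`. -/
theorem joining {n d i : ℕ} {S : Finset (Finset (Fin n))} (hS : Fam F d S)
    {a : ℕ → ℤ} (ha : Exp d (PS S) a) (hneg : a i < 0) (m : ℕ) (hm : 0 < m) :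
    ∃ c : ℝ, 0 < c ∧ ∀ N : ℕ, ∃ (n' : ℕ) (S' : Finset (Finset (Fin n'))) (a' : ℕ → ℤ),
      Fam F (d + 2 * m) S' ∧ Exp (d + 2 * m) (PS S') a' ∧ N ≤ numVert S' ∧
      (a' (i + m) : ℝ) ≤ -c * ((S'.card : ℝ) + (numVert S' : ℝ) ^ m) := by
  obtain ⟨t₀⟩ := ‹Nonempty ι›
  have hi : i ≤ d / 2 := by
    by_contra hcon
    have := ha.1 i (by omega)
    omega
  have hn : 0 < n := by
    rcases Nat.eq_zero_or_pos n with h | h
    · exfalso
      subst h
      have h0 : numVert S = 0 := by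
        rw [numVert_eq, card_eq_zero, eq_empty_iff_forall_notMem]
        intro v _
        exact Fin.elim0 v
      have := gal_two (hS t₀) (by omega) (isGamma_of_exp (hS t₀) ha) i hi
      omega
    · exact h
  -- a bound for all the numbers `a j`
  set A : ℤ := ∑ j ∈ range (d / 2 + 1), |a j| with hAdef
  have hA : ∀ j, |a j| ≤ A := by
    intro j
    by_cases hj : j ≤ d / 2
    · exact single_le_sum (f := fun j => |a j|) (fun _ _ => abs_nonneg _)
        (mem_range.2 (by omega))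
    · rw [ha.1 j (by omega), abs_zero]
      exact sum_nonneg fun _ _ => abs_nonneg _
  have hA0 : 0 ≤ A := (abs_nonneg _).trans (hA 0)
  set B : ℕ := numVert S + 5 * m + 1 with hB
  set E : ℝ := (S.card : ℝ) * 11 ^ m + (B : ℝ) ^ m with hE
  have hE0 : 0 < E := by positivity
  refine ⟨1 / (2 * E), by positivity, fun N => ?_⟩
  set T : ℕ := N + 1 + (2 * m * A * 2 ^ m).toNat with hT
  have hT1 : 1 ≤ T := by omega
  haveI : Nonempty ι := ⟨t₀⟩
  obtain ⟨n', S', -, h1, h2, h2', h3⟩ := joins hn hS ha T m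
  refine ⟨n', S', _, h1, h3, ?_, ?_⟩
  · rw [h2]
    nlinarith
  · have hTz : (1 : ℤ) ≤ T := by exact_mod_cast hT1
    have h4 := iter_top (T : ℤ) hTz a A hA i m
    have h5 : (2 * m * A * 2 ^ m : ℤ) ≤ T := by
      have := Int.self_le_toNat (2 * m * A * 2 ^ m)
      have h6 : ((2 * m * A * 2 ^ m).toNat : ℤ) ≤ T := by
        exact_mod_cast (by omega : (2 * m * A * 2 ^ m).toNat ≤ T)
      exact this.trans h6
    have hTp : (0 : ℤ) < (T : ℤ) ^ m := by positivity
    -- `2 T a' ≤ -T^(m+1)`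
    have h7 : 2 * ((T : ℤ) * ((shiftAdd (T : ℤ))^[m] a) (i + m)) ≤ -(T : ℤ) ^ (m + 1) := by
      have h8 : a i * (T : ℤ) ^ (m + 1) ≤ -1 * (T : ℤ) ^ (m + 1) :=
        mul_le_mul_of_nonneg_right (by omega) (by positivity)
      have h9 : (2 * m * A * 2 ^ m : ℤ) * (T : ℤ) ^ m ≤ (T : ℤ) ^ (m + 1) := by
        rw [pow_succ, mul_comm ((T : ℤ) ^ m) T]
        exact mul_le_mul_of_nonneg_right h5 hTp.le
      calc 2 * ((T : ℤ) * ((shiftAdd (T : ℤ))^[m] a) (i + m))
          ≤ 2 * (a i * (T : ℤ) ^ (m + 1) + m * A * 2 ^ m * (T : ℤ) ^ m) := by linarith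
        _ = 2 * (a i * (T : ℤ) ^ (m + 1)) + (2 * m * A * 2 ^ m : ℤ) * (T : ℤ) ^ m := by ring
        _ ≤ 2 * (-1 * (T : ℤ) ^ (m + 1)) + (T : ℤ) ^ (m + 1) := by linarith
        _ = -(T : ℤ) ^ (m + 1) := by ring
    have h10 : 2 * ((shiftAdd (T : ℤ))^[m] a) (i + m) ≤ -(T : ℤ) ^ m := by
      have h11 : (T : ℤ) * (2 * ((shiftAdd (T : ℤ))^[m] a) (i + m)) ≤ T * (-(T : ℤ) ^ m) := by
        rw [pow_succ] at h7
        linarith
      exact le_of_mul_le_mul_left h11 (by positivity)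
    have h12 : (2 : ℝ) * (((shiftAdd (T : ℤ))^[m] a) (i + m) : ℝ) ≤ -(T : ℝ) ^ m := by
      exact_mod_cast h10
    have h13 : (numVert S' : ℝ) ≤ B * T := by
      rw [h2]
      have : numVert S + m * (T + 4) ≤ B * T := by
        rw [hB]
        nlinarith
      exact_mod_cast this
    have h14 : (numVert S' : ℝ) ^ m ≤ (B : ℝ) ^ m * (T : ℝ) ^ m := by
      rw [← mul_pow]
      exact pow_le_pow_left₀ (by positivity) h13 m
    have h16 : (S'.card : ℝ) ≤ (S.card : ℝ) * 11 ^ m * (T : ℝ) ^ m := by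
      rw [h2', mul_assoc, ← mul_pow]
      push_cast
      refine mul_le_mul_of_nonneg_left (pow_le_pow_left₀ (by positivity) ?_ m) (by positivity)
      have : (1 : ℝ) ≤ T := by exact_mod_cast hT1
      linarith
    have h17 : (S'.card : ℝ) + (numVert S' : ℝ) ^ m ≤ E * (T : ℝ) ^ m := by
      rw [hE, add_mul]
      exact add_le_add h16 h14
    have h15 : 1 / (2 * E) * ((S'.card : ℝ) + (numVert S' : ℝ) ^ m) ≤ (T : ℝ) ^ m / 2 := by
      rw [div_mul_eq_mul_div, one_mul, div_le_div_iff₀ (by positivity) (by norm_num)]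
      nlinarith
    linarith

/-! ### The criteria -/

/-- the `i`-th gamma-number of the spheres of rank `d` is nonnegative -/
def Nonneg (F : ι → Type) [∀ j, Field (F j)] (d i : ℕ) : Prop :=
  ∀ (n : ℕ) (S : Finset (Finset (Fin n))), Fam F d S → ∀ γ : ℕ → ℤ, IsGamma d S γ → 0 ≤ γ i

/-- asymptotic lower bound by `-ε |S|` -/
def Asym (F : ι → Type) [∀ j, Field (F j)] (d i : ℕ) : Prop :=
  ∀ ε : ℝ, 0 < ε → ∃ N : ℕ, ∀ (n : ℕ) (S : Finset (Finset (Fin n))), Fam F d S →
    N ≤ numVert S → ∀ γ : ℕ → ℤ, IsGamma d S γ → -ε * (S.card : ℝ) ≤ γ i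

/-- asymptotic lower bound by `-ε (|S| + f_0 ^ e)` -/
def AsymW (F : ι → Type) [∀ j, Field (F j)] (d i e : ℕ) : Prop :=
  ∀ ε : ℝ, 0 < ε → ∃ N : ℕ, ∀ (n : ℕ) (S : Finset (Finset (Fin n))), Fam F d S →
    N ≤ numVert S → ∀ γ : ℕ → ℤ, IsGamma d S γ →
      -ε * ((S.card : ℝ) + (numVert S : ℝ) ^ e) ≤ γ i

theorem asym_of_nonneg {d i : ℕ} (h : Nonneg F d i) : Asym F d i := by
  intro ε hε
  refine ⟨0, fun n S hS _ γ hγ => ?_⟩
  have h1 : (0 : ℝ) ≤ γ i := by exact_mod_cast h n S hS γ hγ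
  have h2 : 0 ≤ ε * (S.card : ℝ) := by positivity
  linarith

theorem asymW_of_nonneg {d i : ℕ} (e : ℕ) (h : Nonneg F d i) : AsymW F d i e := by
  intro ε hε
  refine ⟨0, fun n S hS _ γ hγ => ?_⟩
  have h1 : (0 : ℝ) ≤ γ i := by exact_mod_cast h n S hS γ hγ
  have h2 : 0 ≤ ε * ((S.card : ℝ) + (numVert S : ℝ) ^ e) := by positivity
  linarith

/-- one rank -/
theorem nonneg_of_asym {d i : ℕ} (hi : 2 * i ≤ d + 1)
    (hlow : 2 * i ≤ d → Nonneg F d i) (h : Asym F (d + 1) i) : Nonneg F (d + 1) i := by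
  obtain ⟨t₀⟩ := ‹Nonempty ι›
  haveI : Nonempty ι := ⟨t₀⟩
  intro n S hS γ hγ
  by_contra hcon
  push Not at hcon
  obtain ⟨a, ha⟩ := exists_exp (hS t₀)
  have hai : γ i = a i := gamma_eq_exp (hS t₀) ha hγ i (by omega)
  rw [hai] at hcon
  have hlink : ∀ (n : ℕ) (S : Finset (Finset (Fin n))) (b : ℕ → ℤ), Fam F d S →
      Exp d (PS S) b → 0 ≤ b i := by
    intro n S b hS hb
    by_cases h2 : 2 * i ≤ d
    · exact hlow h2 n S hS b (isGamma_of_exp (hS t₀) hb)
    · rw [hb.1 i (by omega)]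
  have hcard : 0 < S.card := by
    rw [card_pos]
    have h1 := (hS t₀).cl_eq
    rw [← h1]
    exact ⟨∅, empty_mem_cl⟩
  set ε : ℝ := 1 / (2 * S.card) with hε
  have hε0 : 0 < ε := by positivity
  obtain ⟨N, hN⟩ := h ε hε0
  obtain ⟨n', S', a', h1, h2, h3, h4, h5⟩ := doubling hS ha hcon hlink N
  have h6 := hN n' S' h1 h5 a' (isGamma_of_exp (h1 t₀) h2)
  have h7 : (a' i : ℝ) ≤ -2 ^ N := by exact_mod_cast h3
  have h8 : (S'.card : ℝ) ≤ 2 ^ N * S.card := by exact_mod_cast h4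
  have h9 : ε * (S'.card : ℝ) ≤ 2 ^ N / 2 := by
    calc ε * (S'.card : ℝ) ≤ ε * (2 ^ N * S.card) := mul_le_mul_of_nonneg_left h8 hε0.le
      _ = 2 ^ N / 2 := by
          rw [hε]
          have : (S.card : ℝ) ≠ 0 := by positivity
          field_simp
  have h10 : (0 : ℝ) < 2 ^ N := by positivity
  linarith

/-- **First criterion.** -/
theorem criterion_one (i D : ℕ) :
    (∀ d, d ≤ D → 2 * i ≤ d → Nonneg F d i) ↔ (∀ d, d ≤ D → 2 * i ≤ d → Asym F d i) := by
  constructor
  · exact fun h d hd hi => asym_of_nonneg (h d hd hi)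
  · intro h d
    induction d with
    | zero =>
      intro _ hi n S hS γ hγ
      obtain ⟨t₀⟩ := ‹Nonempty ι›
      have h0 : numVert S = 0 := by
        have h1 := (hS t₀).card_le
        rw [numVert, card_eq_zero, filter_eq_empty_iff]
        intro σ hσ h2
        have := h1 σ hσ
        omega
      exact gal_two (hS t₀) (by omega) hγ i (by omega)
    | succ d ih =>
      intro hd hi
      exact nonneg_of_asym hi (fun h' => ih (by omega) h') (h (d + 1) hd hi)

/-- **Second criterion.** -/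
theorem criterion_two (r : ℕ) :
    (∀ i, Nonneg F (2 * i + r) i) ↔
      ∀ K : ℕ, ∃ I, K < I ∧ AsymW F (2 * I + r) I (I - K) := by
  obtain ⟨t₀⟩ := ‹Nonempty ι›
  haveI : Nonempty ι := ⟨t₀⟩
  constructor
  · exact fun h K => ⟨K + 1, by omega, asymW_of_nonneg _ (h (K + 1))⟩
  · intro h i n S hS γ hγ
    by_contra hcon
    push Not at hcon
    obtain ⟨a, ha⟩ := exists_exp (hS t₀)
    have hai : γ i = a i := gamma_eq_exp (hS t₀) ha hγ i (by omega)
    rw [hai] at hcon
    obtain ⟨I, hI, hA⟩ := h i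
    obtain ⟨c, hc, hcN⟩ := joining hS ha hcon (I - i) (by omega)
    obtain ⟨N, hN⟩ := hA (c / 2) (by positivity)
    obtain ⟨n', S', a', h1, h2, h3, h4⟩ := hcN (max N 1)
    have e1 : 2 * i + r + 2 * (I - i) = 2 * I + r := by omega
    have e2 : i + (I - i) = I := by omega
    rw [e1] at h1 h2
    rw [e2] at h4
    have h5 := hN n' S' h1 ((le_max_left _ _).trans h3) a' (isGamma_of_exp (h1 t₀) h2)
    have h6 : (1 : ℝ) ≤ numVert S' := by exact_mod_cast (le_max_right _ _).trans h3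
    have h7 : (0 : ℝ) < (S'.card : ℝ) + (numVert S' : ℝ) ^ (I - i) := by positivity
    nlinarith

end Q116.GD
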