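import Pool.Agent.Q116.GD.Strong
import Pool.Agent.Y365.FS.Wt2

/-!
# The Charney-Davis quantity
-/

set_option autoImplicit false
set_option linter.unusedSectionVars false

namespace Q116.GD

open Pool.Agent.W497.FS Finset Polynomial Y365.FS

variable {n d : ℕ}

theorem aeval_FP' {α : Type} [LinearOrder α] {H : SimpleGraph α} (W : Finset α) :
    aeval (-1 / 2 : ℚ) (FP H W) = lam H W := by
  rw [FP, lam, fe, map_sum]
  refine sum_congr rfl fun σ _ => ?_
  rw [map_pow, aeval_X]

theorem lam_of_exp {α : Type} [LinearOrder α] {H : SimpleGraph α} {W : Finset α} {m : ℕ}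
    {a : ℕ → ℤ} (h : Exp (2 * m) (FP H W) a) : (-1) ^ m * lam H W = (a m : ℚ) / 4 ^ m := by
  rw [← aeval_FP', h.2, map_sum, sum_eq_single_of_mem m (by rw [mem_range]; omega)]
  · rw [map_mul, map_mul, map_pow, map_pow, aeval_w, aeval_y, Nat.sub_self, pow_zero, mul_one]
    have h1 : (-1 / 4 : ℚ) ^ m = (-1) ^ m / 4 ^ m := by rw [div_pow]
    have h2 : ((-1 : ℚ) ^ m) * (-1) ^ m = 1 := by rw [← mul_pow]; norm_num
    rw [h1]
    have h3 : aeval (-1 / 2 : ℚ) (C (a m)) = (a m : ℚ) := by rw [aeval_C]; simp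
    rw [h3]
    linear_combination ((a m : ℚ) / 4 ^ m) * h2
  · intro i hi hne
    rw [mem_range] at hi
    rw [map_mul, map_pow, aeval_y, zero_pow (by omega), mul_zero]

variable {k : Type} [Field k]

/-- links of faces -/
theorem link_face {S : Finset (Finset (Fin n))} (hS : IsFlagSphere k d S) {T : Finset (Fin n)}
    (hT : T ∈ cl (skel S) (vert S)) {e : ℕ} (he : e + T.card = d) :
    IsFlagSphere k e (cl (skel S) (lkF (skel S) (vert S) T)) := by
  have hs := sph_of hS
  refine flagSphere_of _ _ (fun κ hκ => ?_) (eul_iff.2 fun κ hκ => ?_) (fun κ hκ j hj => ?_)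
  · have := card_le_of_link hs.le hT hκ
    omega
  · rw [lkF_lkF, (eul_iff.1 hs.eul) _ (union_mem_cl hT hκ),
      card_union_of_disjoint (disjoint_of_mem_cl_lkF hκ), ← he]
    have : e + T.card + (T.card + κ.card) = 2 * T.card + (e + κ.card) := by ring
    rw [this, pow_add, pow_mul]
    norm_num
  · rw [lkF_lkF]
    refine hs.ex _ (union_mem_cl hT hκ) j ?_
    rw [card_union_of_disjoint (disjoint_of_mem_cl_lkF hκ)]
    omega

variable {ι : Type*} {F : ι → Type} [∀ j, Field (F j)] [Nonempty ι]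

theorem lin_single {m : ℕ} {d : ℕ} (hm : m ≤ d / 2) (a : ℕ → ℤ) :
    lin (fun j => if j = m then 1 else 0) d a = a m := by
  rw [lin, sum_eq_single_of_mem m (by rw [mem_range]; omega)
    (fun j _ hj => by rw [if_neg hj, zero_mul]), if_pos rfl, one_mul]

theorem lin_single_zero {m : ℕ} {d : ℕ} (hm : d / 2 < m) (a : ℕ → ℤ) :
    lin (fun j => if j = m then 1 else 0) d a = 0 := by
  rw [lin]
  refine sum_eq_zero fun j hj => ?_
  rw [mem_range] at hj
  rw [if_neg (by omega), zero_mul]

/-- In rank `2 m` the weak form of the Charney-Davis inequality implies the inequality. -/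
theorem cd_of_weak {m : ℕ} (h : AsymL F (fun j => if j = m then 1 else 0) (2 * m)) {S : Finset (Finset (Fin n))}
    (hS : Fam F (2 * m) S) {a : ℕ → ℤ} (ha : Exp (2 * m) (PS S) a) : 0 ≤ a m := by
  obtain ⟨t₀⟩ := ‹Nonempty ι›
  haveI : Nonempty ι := ⟨t₀⟩
  rcases m with _ | m
  · rw [exp_zero ha]
    exact zero_le_one
  · have hSt := hS t₀
    have e : 2 * (m + 1) = 2 * m + 1 + 1 := by ring
    have hs := strongL_of_asymL h
    rw [e] at hs hS ha hSt
    obtain ⟨u, hu, v, hv, huv, hadj⟩ := exists_pair hSt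
    obtain ⟨b, hb⟩ := link_exp hSt hu
    obtain ⟨b', hb'⟩ := link_exp hSt hv
    have h1 := hs n S hS u hu v hv huv hadj a b b' ha hb hb'
    rw [Nat.add_sub_cancel, lin_single_zero (by omega), lin_single_zero (by omega),
      lin_single (by omega)] at h1
    have h2 : (0 : ℝ) ≤ a (m + 1) := by linarith
    exact_mod_cast h2

/-- the weighted inequality from the right-angled inequality for the links -/
theorem weighted_of {m : ℕ} {S : Finset (Finset (Fin n))} (hS : Fam F (2 * m) S)
    (hR : ∀ l ≤ m, ∀ (n : ℕ) (S : Finset (Finset (Fin n))), Fam F (2 * l) S →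
      0 ≤ (-1) ^ l * omega S) {N : Finset (Fin n) → ℚ} (hN : GoodOrders S N) :
    0 ≤ (-1) ^ m * ∑ σ ∈ S, (-1) ^ σ.card / N σ := by
  obtain ⟨t₀⟩ := ‹Nonempty ι›
  have hcl := (hS t₀).cl_eq
  conv_rhs => rw [← hcl]
  rw [weighted_eq, mul_sum]
  refine sum_nonneg fun T hT => ?_
  have hTS : T ∈ S := hcl ▸ hT
  have hTm := (sph_of (hS t₀)).le T hT
  rcases Nat.even_or_odd T.card with ⟨j, hj⟩ | ho
  · obtain ⟨l, hl⟩ : ∃ l, m = j + l := ⟨m - j, by omega⟩
    have h1 := (hN T hTS).2 j (by omega)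
    have h2 := hR l (by omega) _ (cl (skel S) (lkF (skel S) (vert S) T))
      (fun t => link_face (hS t) hT (by omega))
    rw [(link_face (e := 2 * l) (hS t₀) hT (by omega)).omega_eq] at h2
    have e1 : lam (skel (cl (skel S) (lkF (skel S) (vert S) T)))
        (vert (cl (skel S) (lkF (skel S) (vert S) T))) = lam (skel S) (lkF (skel S) (vert S) T) := by
      rw [← aeval_FP', ← aeval_FP']
      have := PS_cl (skel S) (lkF (skel S) (vert S) T)
      rw [PS] at this
      rw [this]
    rw [e1] at h2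
    have h3 : (-1 : ℚ) ^ m * ((-1) ^ T.card * bN N T * lam (skel S) (lkF (skel S) (vert S) T)) =
        ((-1) ^ j * bN N T) * ((-1) ^ l * lam (skel S) (lkF (skel S) (vert S) T)) := by
      have h4 : (-1 : ℚ) ^ T.card = 1 := by rw [hj]; exact Even.neg_one_pow ⟨j, rfl⟩
      rw [hl, h4, pow_add]
      ring
    rw [h3]
    exact mul_nonneg h1 h2
  · rw [(hN T hTS).1 ho]
    simp

end Q116.GD
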