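import Pool.Agent.Q116.GD.Trans
import Pool.Agent.W216.FS.HR
import Pool.Agent.W497.FS.Sphere

/-!
# From exactness and the Euler characteristics back to the ranks of the boundary matrices
-/

set_option autoImplicit false
set_option linter.unusedSectionVars false

namespace Q116.GD

open Pool.Agent.W497.FS Finset Pool.Agent.W216.FS.HR

variable {k : Type} [Field k] {n : ℕ}

/-- the rank of the boundary matrix -/
noncomputable def rk (k : Type) [Field k] {n : ℕ} (L : Finset (Finset (Fin n))) (j : ℕ) : ℕ :=
  Matrix.rank (Matrix.of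
        (fun (A : {A : Finset (Fin n) // A ∈ L.filter (fun A => A.card = j - 1)})
             (B : {B : Finset (Fin n) // B ∈ L.filter (fun B => B.card = j)}) =>
          ∑ v ∈ B.1, if B.1.erase v = A.1
            then (-1 : k) ^ (B.1.filter (fun w => w < v)).card else 0))

theorem rk_eq (L : Finset (Finset (Fin n))) (j : ℕ) :
    rk k L j = Module.finrank k (LinearMap.range (MM k L (j - 1) j).mulVecLin) := rfl

theorem rk_ker (L : Finset (Finset (Fin n))) (j : ℕ) :
    (rk k L j : ℤ) + Module.finrank k (LinearMap.ker (MM k L (j - 1) j).mulVecLin) =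
      ((L.filter (fun G => G.card = j)).card : ℤ) := by
  rw [rk_eq]
  have h1 := LinearMap.finrank_range_add_finrank_ker (MM k L (j - 1) j).mulVecLin
  rw [Module.finrank_fintype_fun_eq_card, Fintype.card_coe] at h1
  exact_mod_cast h1

theorem rk_zero (L : Finset (Finset (Fin n))) : rk k L 0 = 0 := by
  have h : (Matrix.of
        (fun (A : {A : Finset (Fin n) // A ∈ L.filter (fun A => A.card = 0 - 1)})
             (B : {B : Finset (Fin n) // B ∈ L.filter (fun B => B.card = 0)}) =>
          ∑ v ∈ B.1, if B.1.erase v = A.1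
            then (-1 : k) ^ (B.1.filter (fun w => w < v)).card else 0)) = 0 := by
    ext A B
    have hB : B.1 = ∅ := card_eq_zero.1 (mem_filter.1 B.2).2
    rw [Matrix.of_apply, hB, sum_empty]
    rfl
  rw [rk, h, Matrix.rank_zero]

theorem rk_large (L : Finset (Finset (Fin n))) (j : ℕ) (h : ∀ B ∈ L, B.card ≠ j) :
    rk k L j = 0 := by
  have h1 := rk_ker (k := k) L j
  have h2 : L.filter (fun G => G.card = j) = ∅ := by
    rw [filter_eq_empty_iff]
    exact h
  have h2' : (L.filter (fun G => G.card = j)).card = 0 := by rw [h2, card_empty]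
  omega

/-- exactness in terms of ranks -/
theorem rk_ex {H : SimpleGraph (Fin n)} {X : Finset (Fin n)} {j : ℕ} (h : Ex k H X j) :
    (((cl H X).filter (fun G => G.card = j)).card : ℤ) - (rk k (cl H X) j : ℤ)
      - (rk k (cl H X) (j + 1) : ℤ) = 0 := by
  classical
  set L := cl H X with hL
  have hdown : ∀ B ∈ L, ∀ A, A ⊆ B → A ∈ L := fun B hB A hAB => cl_of_subset hB hAB
  have hzero : ∀ j : ℕ, ex0 (k := k) L j 0 = 0 := by
    intro j
    funext A
    by_cases hA : A ∈ L.filter (fun B => B.card = j)
    · rw [ex0_of_mem _ hA]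
      rfl
    · rw [ex0_of_notMem _ hA]
      rfl
  have hon : ∀ (i : ℕ) (x : {B : Finset (Fin n) // B ∈ L.filter (fun B => B.card = i)} → k),
      On H X i (ex0 L i x) := by
    intro i x A hA
    by_contra hcon
    apply hA
    apply ex0_of_notMem
    rw [mem_filter]
    exact hcon
  have hon' : ∀ (i : ℕ) (c : Finset (Fin n) → k), On H X i c →
      ex0 L i (fun B => c B.1) = c := by
    intro i c hc
    funext A
    by_cases hA : A ∈ L.filter (fun B => B.card = i)
    · rw [ex0_of_mem _ hA]
    · rw [ex0_of_notMem _ hA]
      by_contra hne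
      apply hA
      rw [mem_filter]
      exact hc A (Ne.symm hne)
  have heq : LinearMap.range (MM k L j (j + 1)).mulVecLin =
      LinearMap.ker (MM k L (j - 1) j).mulVecLin := by
    apply le_antisymm
    · rintro _ ⟨y, rfl⟩
      rw [LinearMap.mem_ker]
      apply ex0_inj
      rw [Matrix.mulVecLin_apply, Matrix.mulVecLin_apply, ex0_mulVec L hdown _ _ rfl,
        ex0_mulVec L hdown _ _ (by omega), bd_bd, hzero]
    · intro x hx
      rw [LinearMap.mem_ker, Matrix.mulVecLin_apply] at hx
      have h1 : bd (ex0 L j x) = 0 := by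
        rw [← ex0_mulVec L hdown (j - 1) j rfl, hx, hzero]
      obtain ⟨b, hb, hbc⟩ := h _ (hon j x) h1
      refine ⟨fun B => b B.1, ?_⟩
      apply ex0_inj
      rw [Matrix.mulVecLin_apply, ex0_mulVec L hdown j (j + 1) (by omega), hon' (j + 1) b hb, hbc]
  have h2 := rk_ker (k := k) L j
  have h3 : rk k L (j + 1) = Module.finrank k (LinearMap.ker (MM k L (j - 1) j).mulVecLin) := by
    rw [← heq]
    exact rk_eq L (j + 1)
  rw [h3]
  linarith

theorem card_le_of_link {H : SimpleGraph (Fin n)} {W κ σ : Finset (Fin n)} {d : ℕ}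
    (hle : ∀ κ ∈ cl H W, κ.card ≤ d) (hκ : κ ∈ cl H W) (hσ : σ ∈ cl H (lkF H W κ)) :
    σ.card + κ.card ≤ d := by
  have h := hle _ (union_mem_cl hκ hσ)
  rw [card_union_of_disjoint (disjoint_of_mem_cl_lkF hσ)] at h
  omega

/-- Exactness of all links below the top degree, the Euler relations and the bound for the
dimension imply that the complex is a flag homology sphere. -/
theorem flagSphere_of {d : ℕ} (H : SimpleGraph (Fin n)) (W : Finset (Fin n))
    (hle : ∀ κ ∈ cl H W, κ.card ≤ d) (hE : Eul H d W)
    (hex : ∀ κ ∈ cl H W, ∀ j, j + κ.card < d → Ex k H (lkF H W κ) j) :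
    IsFlagSphere k d (cl H W) := by
  classical
  refine ⟨fun L j => rk k L j, ?_, ?_, fun L j => rfl, ?_⟩
  · intro F hF G hG
    exact cl_of_subset hF hG
  · intro F hF
    rw [mem_cl]
    refine ⟨fun x hx => ?_, fun x hx z hz hxz => ?_⟩
    · have := (mem_cl.1 (hF x hx x hx)).1
      exact this (mem_insert_self _ _)
    · exact (mem_cl.1 (hF x hx z hz)).2 x (mem_insert_self _ _) z
        (mem_insert_of_mem (mem_singleton_self _)) hxz
  · intro F hF j
    have hL : (cl H W).filter (fun G => Disjoint G F ∧ G ∪ F ∈ cl H W) = cl H (lkF H W F) := by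
      ext A
      rw [cl_lkF hF, mem_filter]
    simp only [hL]
    set L := cl H (lkF H W F) with hLdef
    have hcard : ∀ σ ∈ L, σ.card + F.card ≤ d := fun σ hσ => card_le_of_link hle hF hσ
    rcases lt_trichotomy (j + F.card) d with hj | hj | hj
    · rw [if_neg (by omega)]
      exact rk_ex (hex F hF j hj)
    · rw [if_pos hj]
      -- Euler characteristic
      have hb : ∀ i, i < j → ((L.filter (fun G => G.card = i)).card : ℤ) =
          (rk k L i : ℤ) + (rk k L (i + 1) : ℤ) := by
        intro i hi
        have := rk_ex (hex F hF i (by omega))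
        linarith
      have htel : ∀ m, m ≤ j → ∑ i ∈ range m, (-1 : ℤ) ^ i *
          ((L.filter (fun G => G.card = i)).card : ℤ) = -((-1) ^ m * (rk k L m : ℤ)) := by
        intro m
        induction m with
        | zero => intro _; simp [rk_zero]
        | succ m ih =>
          intro hm
          rw [sum_range_succ, ih (by omega), hb m (by omega), pow_succ]
          ring
      have heul := (eul_iff.1 hE) F hF
      have hfe : fe H (lkF H W F) (-1 : ℤ) = ∑ i ∈ range (j + 1), (-1 : ℤ) ^ i *
          ((L.filter (fun G => G.card = i)).card : ℤ) := by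
        rw [fe]
        have h1 : ∀ σ ∈ L, σ.card ∈ range (j + 1) := fun σ hσ => by
          rw [mem_range]
          have := hcard σ hσ
          omega
        rw [← sum_fiberwise_of_maps_to h1]
        refine sum_congr rfl fun i _ => ?_
        have h2 : ∀ σ ∈ L.filter (fun G => G.card = i), (-1 : ℤ) ^ σ.card = (-1) ^ i := fun σ hσ => by
          rw [(mem_filter.1 hσ).2]
        rw [sum_congr rfl h2, sum_const, nsmul_eq_mul, mul_comm]
      rw [hfe, sum_range_succ, htel j le_rfl] at heul
      have hlast : rk k L (j + 1) = 0 := rk_large L (j + 1) (fun B hB h => by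
        have := hcard B hB
        omega)
      rw [hlast]
      have hsign : (-1 : ℤ) ^ (d + F.card) = (-1) ^ j := by
        rw [← hj, show j + F.card + F.card = j + 2 * F.card by ring, pow_add, pow_mul]
        norm_num
      rw [hsign] at heul
      have h3 : (-1 : ℤ) ^ j * (((L.filter (fun G => G.card = j)).card : ℤ) - rk k L j - 1) = 0 := by
        linear_combination heul
      have h4 : (-1 : ℤ) ^ j ≠ 0 := pow_ne_zero _ (by norm_num)
      have h5 := (mul_eq_zero.1 h3).resolve_left h4
      push_cast
      linarith
    · rw [if_neg (by omega)]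
      have h1 : rk k L j = 0 := rk_large L j (fun B hB h => by
        have := hcard B hB
        omega)
      have h2 : rk k L (j + 1) = 0 := rk_large L (j + 1) (fun B hB h => by
        have := hcard B hB
        omega)
      have h3 : L.filter (fun G => G.card = j) = ∅ := by
        rw [filter_eq_empty_iff]
        intro B hB h
        have := hcard B hB
        omega
      rw [h1, h2, h3, card_empty]
      norm_num

end Q116.GD
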