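import Pool.Agent.Q116.GD.CD
import Pool.Agent.W497.CC.Sum

/-!
# The cubical complex with all vertex links equal to a given complex

For a simplicial complex `S` on `Fin n` the faces of the cube `[0,1]^n` whose free coordinates form a
face of `S` (a coordinate which is not a vertex of `S` is fixed to `1`) form a connected cubical
complex; all its vertex links are `S` and its automorphism group is transitive on the vertices.
-/

set_option autoImplicit false
set_option linter.unusedSectionVars false

namespace Q116.GD

open Pool.Agent.W497.FS Pool.Agent.W497.CC Finset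

variable {n : ℕ}

/-- the free coordinates of a face of the cube -/
def free (x : Fin n → Option Bool) : Finset (Fin n) := univ.filter (fun i => x i = none)

theorem mem_free {x : Fin n → Option Bool} {i : Fin n} : i ∈ free x ↔ x i = none := by
  simp [free]

/-- the cubes -/
def Mir (S : Finset (Finset (Fin n))) : Type :=
  {x : Fin n → Option Bool // free x ∈ S ∧ ∀ i, ({i} : Finset (Fin n)) ∉ S → x i = some true}

variable {S : Finset (Finset (Fin n))}

noncomputable instance : Fintype (Mir S) := by
  classical
  unfold Mir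
  exact Fintype.ofFinite _

instance : PartialOrder (Mir S) where
  le x y := CubeLE x.1 y.1
  le_refl x i := Or.inr rfl
  le_trans x y z hxy hyz i := by
    rcases hyz i with h | h
    · exact Or.inl h
    · rcases hxy i with h' | h'
      · left; rw [h, h']
      · right; rw [h, h']
  le_antisymm x y hxy hyx := by
    apply Subtype.ext
    funext i
    rcases hyx i with h | h
    · rcases hxy i with h' | h'
      · rw [h, h']
      · exact h'.symm
    · exact h

theorem mir_le {x y : Mir S} : x ≤ y ↔ CubeLE x.1 y.1 := Iff.rfl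

/-- the dimension -/
def mdim (x : Mir S) : ℕ := (free x.1).card

theorem mdim_zero {v : Mir S} : mdim v = 0 ↔ ∀ i, v.1 i ≠ none := by
  rw [mdim, card_eq_zero]
  constructor
  · intro h i hi
    have := mem_free.2 hi
    rw [h] at this
    exact absurd this (notMem_empty i)
  · intro h
    refine eq_empty_of_forall_notMem fun i hi => h i (mem_free.1 hi)

/-- faces are closed under subsets -/
abbrev Closed (S : Finset (Finset (Fin n))) : Prop := ∀ T ∈ S, ∀ U : Finset (Fin n), U ⊆ T → U ∈ S

theorem mir_cubical (hS : Closed S) : IsCubical (Mir S) mdim := by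
  classical
  intro c
  let F := free c.1
  have hF : ∀ i, i ∉ F → c.1 i ≠ none := fun i hi h => hi (mem_free.2 h)
  have hF' : ∀ i, i ∈ F → c.1 i = none := fun i hi => mem_free.1 hi
  let back : (Fin (mdim c) → Option Bool) → (Fin n → Option Bool) :=
    fun g i => if h : i ∈ F then g (F.equivFin ⟨i, h⟩) else c.1 i
  have hback : ∀ g, free (back g) ∈ S ∧ ∀ i, ({i} : Finset (Fin n)) ∉ S → back g i = some true := by
    intro g
    refine ⟨hS F c.2.1 _ fun i hi => ?_, fun i hi => ?_⟩
    · by_contra hc
      have h1 := mem_free.1 hi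
      simp only [back, dif_neg hc] at h1
      exact hF i hc h1
    · have h1 : i ∉ F := fun h => hi (hS F c.2.1 _ (singleton_subset_iff.2 h))
      simp only [back, dif_neg h1]
      exact c.2.2 i hi
  have hle : ∀ g, CubeLE (back g) c.1 := by
    intro g i
    by_cases h : i ∈ F
    · exact Or.inl (hF' i h)
    · right
      simp only [back, dif_neg h]
  have hx : ∀ (x : {x : Mir S // x ≤ c}) (i : Fin n), i ∉ F → x.1.1 i = c.1 i := by
    intro x i hi
    rcases x.2 i with h | h
    · exact absurd h (hF i hi)
    · exact h.symm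
  refine ⟨⟨fun x j => x.1.1 (F.equivFin.symm j).1, fun g => ⟨⟨back g, hback g⟩, hle g⟩, ?_, ?_⟩, ?_⟩
  · intro x
    apply Subtype.ext
    apply Subtype.ext
    funext i
    by_cases h : i ∈ F
    · simp only [back, dif_pos h, Equiv.symm_apply_apply]
    · simp only [back, dif_neg h]
      exact (hx x i h).symm
  · intro g
    funext j
    have h1 : (F.equivFin.symm j).1 ∈ F := (F.equivFin.symm j).2
    simp only [back, dif_pos h1, Subtype.coe_eta, Equiv.apply_symm_apply]
  · intro x y
    constructor
    · intro h j
      exact h (F.equivFin.symm j).1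
    · intro h i
      by_cases hi : i ∈ F
      · have h1 := h (F.equivFin ⟨i, hi⟩)
        simpa using h1
      · right
        rw [hx x i hi, hx y i hi]

theorem mir_link (hS : Closed S) (v : Mir S) (hv : mdim v = 0) :
    ∃ e : {x : Mir S // v ≤ x} ≃ {F : Finset (Fin n) // F ∈ S},
      (∀ x y, x.1 ≤ y.1 ↔ (e x).1 ⊆ (e y).1) ∧ ∀ x, (e x).1 = free x.1.1 := by
  classical
  have hv0 := mdim_zero.1 hv
  let back : Finset (Fin n) → (Fin n → Option Bool) := fun T i => if i ∈ T then none else v.1 i
  have hfree : ∀ T, free (back T) = T := by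
    intro T
    ext i
    rw [mem_free]
    by_cases h : i ∈ T
    · simp [back, h]
    · simp [back, h, hv0 i]
  have hback : ∀ T ∈ S, free (back T) ∈ S ∧ ∀ i, ({i} : Finset (Fin n)) ∉ S → back T i = some true := by
    intro T hT
    refine ⟨by rwa [hfree], fun i hi => ?_⟩
    have h1 : i ∉ T := fun h => hi (hS T hT _ (singleton_subset_iff.2 h))
    simp only [back, if_neg h1]
    exact v.2.2 i hi
  have hle : ∀ T, CubeLE v.1 (back T) := by
    intro T i
    by_cases h : i ∈ T
    · left; simp [back, h]
    · right; simp [back, h]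
  refine ⟨⟨fun x => ⟨free x.1.1, x.1.2.1⟩, fun T => ⟨⟨back T.1, hback T.1 T.2⟩, hle T.1⟩, ?_, ?_⟩, ?_,
    fun x => rfl⟩
  · intro x
    apply Subtype.ext
    apply Subtype.ext
    funext i
    by_cases h : x.1.1 i = none
    · simp only [back, if_pos (mem_free.2 h), h]
    · have h1 : i ∉ free x.1.1 := fun h' => h (mem_free.1 h')
      simp only [back, if_neg h1]
      rcases x.2 i with h2 | h2
      · exact absurd h2 h
      · exact h2.symm
  · intro T
    exact Subtype.ext (hfree T.1)
  · intro x y
    constructor
    · intro h i hi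
      rcases h i with h1 | h1
      · exact mem_free.2 h1
      · exact mem_free.2 (h1.trans (mem_free.1 hi))
    · intro h i
      rcases y.2 i with h1 | h1
      · exact Or.inl h1
      · right
        have h2 : y.1.1 i ≠ none := by rw [h1]; exact hv0 i
        have h3 : i ∉ free x.1.1 := fun h' => h2 (mem_free.1 (h h'))
        rcases x.2 i with h4 | h4
        · exact absurd (mem_free.2 h4) h3
        · rw [h1, h4]

theorem mir_homog (v w : Mir S) (hv : mdim v = 0) (hw : mdim w = 0) :
    ∃ φ : Mir S ≃o Mir S, φ v = w := by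
  classical
  have hv0 := mdim_zero.1 hv
  have hw0 := mdim_zero.1 hw
  let fl : (Fin n → Option Bool) → (Fin n → Option Bool) :=
    fun x i => if v.1 i = w.1 i then x i else (x i).map not
  have hnone : ∀ x i, fl x i = none ↔ x i = none := by
    intro x i
    by_cases h : v.1 i = w.1 i <;> simp [fl, h]
  have hfree : ∀ x, free (fl x) = free x := by
    intro x
    ext i
    rw [mem_free, mem_free, hnone]
  have hfl : ∀ x : Mir S, free (fl x.1) ∈ S ∧ ∀ i, ({i} : Finset (Fin n)) ∉ S → fl x.1 i = some true := by
    intro x
    refine ⟨by rw [hfree]; exact x.2.1, fun i hi => ?_⟩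
    have h1 : v.1 i = w.1 i := by rw [v.2.2 i hi, w.2.2 i hi]
    simp only [fl, if_pos h1]
    exact x.2.2 i hi
  have hinv : ∀ x, fl (fl x) = x := by
    intro x
    funext i
    by_cases h : v.1 i = w.1 i
    · simp [fl, h]
    · rcases hx : x i with _ | b <;> simp [fl, h, hx]
  have hmono : ∀ x y, CubeLE x y → CubeLE (fl x) (fl y) := by
    intro x y h i
    rcases h i with h1 | h1
    · exact Or.inl ((hnone y i).2 h1)
    · right
      simp only [fl, h1]
  let f : Mir S → Mir S := fun x => ⟨fl x.1, hfl x⟩
  have hff : ∀ x, f (f x) = x := fun x => Subtype.ext (hinv x.1)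
  refine ⟨⟨⟨f, f, hff, hff⟩, ?_⟩, ?_⟩
  · intro x y
    constructor
    · intro h
      have h1 := hmono _ _ (mir_le.1 h)
      have h2 : CubeLE (fl (fl x.1)) (fl (fl y.1)) := h1
      rw [hinv, hinv] at h2
      exact h2
    · intro h
      exact hmono _ _ h
  · apply Subtype.ext
    funext i
    show fl v.1 i = w.1 i
    by_cases h : v.1 i = w.1 i
    · simp [fl, h]
    · simp only [fl, if_neg h]
      obtain ⟨a, ha⟩ := Option.ne_none_iff_exists'.mp (hv0 i)
      obtain ⟨b, hb⟩ := Option.ne_none_iff_exists'.mp (hw0 i)
      rw [ha, hb] at h ⊢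
      cases a <;> cases b <;> simp_all

/-- the vertex below a cube, with all free coordinates fixed to `1` -/
theorem mir_vertex (hS : Closed S) (x : Mir S) : ∃ v : Mir S, mdim v = 0 ∧ v ≤ x := by
  classical
  let g : Fin n → Option Bool := fun i => if x.1 i = none then some true else x.1 i
  have hg : ∀ i, g i ≠ none := by
    intro i
    by_cases h : x.1 i = none
    · simp [g, h]
    · simp [g, h]
  have hfree : free g = ∅ := eq_empty_of_forall_notMem fun i hi => hg i (mem_free.1 hi)
  refine ⟨⟨g, by rw [hfree]; exact hS _ x.2.1 _ (empty_subset _), fun i hi => ?_⟩, ?_, ?_⟩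
  · have := x.2.2 i hi
    simp [g, this]
  · exact mdim_zero.2 hg
  · intro i
    by_cases h : x.1 i = none
    · exact Or.inl h
    · right
      simp [g, h]

theorem mir_flip (hS : Closed S) (v : Mir S) (hv : mdim v = 0) (i : Fin n)
    (hi : ({i} : Finset (Fin n)) ∈ S) :
    ∃ v' : Mir S, mdim v' = 0 ∧ Relation.EqvGen (· ≤ ·) v v' ∧ v'.1 = Function.update v.1 i (some true) := by
  classical
  have hv0 := mdim_zero.1 hv
  have he : (∅ : Finset (Fin n)) ∈ S := hS _ hi _ (empty_subset _)
  let a : Fin n → Option Bool := Function.update v.1 i none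
  let b : Fin n → Option Bool := Function.update v.1 i (some true)
  have ha : free a = {i} := by
    ext j
    rw [mem_free, mem_singleton]
    by_cases h : j = i
    · simp [a, h]
    · simp [a, Function.update_of_ne h, h, hv0 j]
  have hb : ∀ j, b j ≠ none := by
    intro j
    by_cases h : j = i
    · subst h; simp [b]
    · simp [b, Function.update_of_ne h, hv0 j]
  have hb' : free b = ∅ := eq_empty_of_forall_notMem fun j hj => hb j (mem_free.1 hj)
  let A : Mir S := ⟨a, by rwa [ha], fun j hj => by
    have h : j ≠ i := fun h => hj (h ▸ hi)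
    simp only [a, Function.update_of_ne h]
    exact v.2.2 j hj⟩
  let B : Mir S := ⟨b, by rwa [hb'], fun j hj => by
    have h : j ≠ i := fun h => hj (h ▸ hi)
    simp only [b, Function.update_of_ne h]
    exact v.2.2 j hj⟩
  have h1 : v ≤ A := by
    intro j
    by_cases h : j = i
    · left; subst h; simp [A, a]
    · right; simp [A, a, Function.update_of_ne h]
  have h2 : B ≤ A := by
    intro j
    by_cases h : j = i
    · left; subst h; simp [A, a]
    · right; simp [A, B, a, b, Function.update_of_ne h]
  exact ⟨B, mdim_zero.2 hb, Relation.EqvGen.trans _ _ _ (Relation.EqvGen.rel _ _ h1)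
    (Relation.EqvGen.symm _ _ (Relation.EqvGen.rel _ _ h2)), rfl⟩

theorem mir_conn_aux (hS : Closed S) (o : Mir S) (ho : ∀ i, o.1 i = some true) :
    ∀ (m : ℕ) (v : Mir S), mdim v = 0 → (univ.filter fun i => v.1 i ≠ some true).card = m →
      Relation.EqvGen (· ≤ ·) v o := by
  classical
  intro m
  induction m with
  | zero =>
    intro v _ h
    rw [card_eq_zero, filter_eq_empty_iff] at h
    have : v = o := Subtype.ext (funext fun i => by
      have := h (mem_univ i)
      rw [ho i]
      exact not_not.1 this)
    rw [this]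
    exact Relation.EqvGen.refl _
  | succ m ih =>
    intro v hv h
    obtain ⟨i, hi⟩ := card_pos.1 (show 0 < (univ.filter fun i => v.1 i ≠ some true).card by omega)
    rw [mem_filter] at hi
    have hiS : ({i} : Finset (Fin n)) ∈ S := by
      by_contra hc
      exact hi.2 (v.2.2 i hc)
    obtain ⟨v', hv', he, hup⟩ := mir_flip hS v hv i hiS
    refine Relation.EqvGen.trans _ _ _ he (ih v' hv' ?_)
    have h1 : (univ.filter fun j => v'.1 j ≠ some true) =
        (univ.filter fun j => v.1 j ≠ some true).erase i := by
      ext j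
      rw [mem_filter, mem_erase, mem_filter, hup]
      by_cases hj : j = i
      · subst hj; simp
      · simp [Function.update_of_ne hj, hj]
    rw [h1, card_erase_of_mem (by rw [mem_filter]; exact hi), h]
    rfl

theorem mir_conn (hS : Closed S) (he : (∅ : Finset (Fin n)) ∈ S) (x y : Mir S) :
    Relation.EqvGen (· ≤ ·) x y := by
  classical
  have hfree : free (fun _ : Fin n => some true) = ∅ :=
    eq_empty_of_forall_notMem fun i hi => by simpa using mem_free.1 hi
  let o : Mir S := ⟨fun _ => some true, by rwa [hfree], fun i _ => rfl⟩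
  have key : ∀ x : Mir S, Relation.EqvGen (· ≤ ·) x o := by
    intro x
    obtain ⟨v, hv, hvx⟩ := mir_vertex hS x
    exact Relation.EqvGen.trans _ _ _ (Relation.EqvGen.symm _ _ (Relation.EqvGen.rel _ _ hvx))
      (mir_conn_aux hS o (fun i => rfl) _ v hv rfl)
  exact Relation.EqvGen.trans _ _ _ (key x) (Relation.EqvGen.symm _ _ (key y))

theorem mir_nonempty (he : (∅ : Finset (Fin n)) ∈ S) : Nonempty (Mir S) := by
  have hfree : free (fun _ : Fin n => some true) = ∅ :=
    eq_empty_of_forall_notMem fun i hi => by simpa using mem_free.1 hi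
  exact ⟨⟨fun _ => some true, by rwa [hfree], fun i _ => rfl⟩⟩

open scoped Classical in
/-- the Euler characteristic -/
theorem mir_chi (hS : Closed S) : ((chi (Mir S) mdim : ℤ) : ℚ) =
    ((univ.filter fun v : Mir S => mdim v = 0).card : ℚ) * omega S := by
  have h1 := chi_eq (mir_cubical hS) (fun _ => n) (fun _ => S)
    (fun v hv => by
      obtain ⟨e, he, -⟩ := mir_link hS v hv
      exact ⟨e, he⟩) (fun v _ F hF G hG => hS F hF G hG)
  rw [h1, sum_const, nsmul_eq_mul]

open scoped Classical in
/-- the number of cubes containing a vertex -/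
theorem mir_above (hS : Closed S) (v : Mir S) (hv : mdim v = 0) :
    (univ.filter fun x : Mir S => v ≤ x).card = S.card := by
  obtain ⟨e, -, -⟩ := mir_link hS v hv
  rw [← Fintype.card_subtype, Fintype.card_congr e, Fintype.card_coe]

open scoped Classical in
theorem mir_deg (hS : Closed S) (v : Mir S) (hv : mdim v = 0) :
    (univ.filter fun x : Mir S => v ≤ x ∧ mdim x = 1).card = numVert S := by
  obtain ⟨e, -, he⟩ := mir_link hS v hv
  rw [numVert]
  refine card_bij (fun x hx => (e ⟨x, (mem_filter.1 hx).2.1⟩).1) ?_ ?_ ?_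
  · intro x hx
    rw [mem_filter, he]
    exact ⟨x.2.1, (mem_filter.1 hx).2.2⟩
  · intro x hx y hy h
    have h1 := e.injective (Subtype.ext h)
    exact congrArg Subtype.val h1
  · intro T hT
    rw [mem_filter] at hT
    refine ⟨(e.symm ⟨T, hT.1⟩).1, ?_, by simp⟩
    rw [mem_filter]
    refine ⟨mem_univ _, (e.symm ⟨T, hT.1⟩).2, ?_⟩
    have h1 := he (e.symm ⟨T, hT.1⟩)
    rw [Equiv.apply_symm_apply] at h1
    rw [mdim, ← h1]
    exact hT.2

open scoped Classical in
/-- the number of cubes -/
theorem mir_card (hS : Closed S) : Fintype.card (Mir S) ≤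
    (univ.filter fun v : Mir S => mdim v = 0).card * S.card := by
  have h1 : ∑ v ∈ univ.filter (fun v : Mir S => mdim v = 0),
      (univ.filter fun x : Mir S => v ≤ x).card =
      (univ.filter fun v : Mir S => mdim v = 0).card * S.card := by
    rw [sum_congr rfl fun v hv => mir_above hS v (mem_filter.1 hv).2, sum_const, smul_eq_mul]
  rw [← h1, ← card_univ]
  calc (univ : Finset (Mir S)).card
      ≤ ((univ.filter fun v : Mir S => mdim v = 0).biUnion
          fun v => univ.filter fun x : Mir S => v ≤ x).card := by
        refine card_le_card fun x _ => ?_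
        obtain ⟨v, hv, hvx⟩ := mir_vertex hS x
        rw [mem_biUnion]
        exact ⟨v, by rw [mem_filter]; exact ⟨mem_univ _, hv⟩, by rw [mem_filter]; exact ⟨mem_univ _, hvx⟩⟩
    _ ≤ _ := card_biUnion_le

end Q116.GD
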