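import Pool.Agent.Q116.GD.MV

/-!
# Homology of suspensions and of joins with cycles
-/

set_option autoImplicit false
set_option linter.unusedSectionVars false

namespace Q116.GD

open Pool.Agent.W497.FS Finset

variable {k : Type} [Field k] {α : Type} [LinearOrder α] [Fintype α] {H : SimpleGraph α}

/-- suspension -/
theorem susp {L : Finset α} {a b : α} (hab : a ≠ b) (hnadj : ¬ H.Adj a b)
    (haL : ∀ x ∈ L, H.Adj a x) (hbL : ∀ x ∈ L, H.Adj b x) {e : ℕ}
    (hL : ∀ j, j < e → Ex k H L j) (j : ℕ) (hj : j < e + 1) : Ex k H (L ∪ {a, b}) j := by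
  have haL' : a ∉ L := fun h => (haL a h).ne rfl
  have hbL' : b ∉ L := fun h => (hbL b h).ne rfl
  have e1 : L ∪ {a, b} = insert a L ∪ insert b L := by
    ext x
    simp only [mem_union, mem_insert, mem_singleton]
    tauto
  have e2 : insert a L ∩ insert b L = L := by
    ext x
    simp only [mem_inter, mem_insert]
    constructor
    · rintro ⟨h1 | h1, h2 | h2⟩
      · exact absurd (h1.symm.trans h2) hab
      · exact h2
      · exact h1
      · exact h1
    · exact fun h => ⟨Or.inr h, Or.inr h⟩
  rw [e1]
  refine mv_step ?_ j (cone (mem_insert_self a L) ?_ j) (cone (mem_insert_self b L) ?_ j) ?_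
  · intro x hx z hz hxz
    rw [mem_insert] at hx hz
    rcases hx with rfl | hx
    · rcases hz with rfl | hz
      · exact absurd hxz hnadj
      · right; exact mem_insert_of_mem hz
    · left; exact mem_insert_of_mem hx
  · intro x hx hxa
    exact haL x ((mem_insert.1 hx).resolve_left hxa)
  · intro x hx hxb
    exact hbL x ((mem_insert.1 hx).resolve_left hxb)
  · intro i hi
    rw [e2]
    exact hL i (by omega)

/-- `q` runs through the vertices of an induced cycle of length `N`. -/
structure Cycle (H : SimpleGraph α) (N : ℕ) (q : ZMod N → α) : Prop where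
  inj : Function.Injective q
  adj : ∀ i j, H.Adj (q i) (q j) ↔ (j = i + 1 ∨ i = j + 1)

theorem zmod_ne {N : ℕ} (hN : 4 ≤ N) {m : ℕ} (h0 : 0 < m) (hm : m < N) : ((m : ℕ) : ZMod N) ≠ 0 := by
  intro h
  rw [ZMod.natCast_eq_zero_iff] at h
  exact absurd (Nat.le_of_dvd h0 h) (by omega)

theorem cast_inj' {N : ℕ} {a b : ℕ} (ha : a < N) (hb : b < N)
    (h : (a : ZMod N) = (b : ZMod N)) : a = b := by
  rw [ZMod.natCast_eq_natCast_iff'] at h
  rwa [Nat.mod_eq_of_lt ha, Nat.mod_eq_of_lt hb] at h

/-- the complex `L` joined with the path `q 1, …, q i` -/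
theorem path_ex {N : ℕ} (hN : 4 ≤ N) {q : ZMod N → α} (hq : Cycle H N q) {L : Finset α}
    (hL : ∀ i, ∀ x ∈ L, H.Adj (q i) x) (i : ℕ) (hi : i + 1 < N) :
    ∀ j, Ex k H (L ∪ (Icc 1 (i + 1)).image (fun j : ℕ => q (j : ZMod N))) j := by
  have hqL : ∀ i, q i ∉ L := fun i h => (hL i _ h).ne rfl
  induction i with
  | zero =>
    intro j
    have e : L ∪ (Icc 1 (0 + 1)).image (fun j : ℕ => q (j : ZMod N)) = insert (q 1) L := by
      ext x
      simp [or_comm]
    rw [e]
    refine cone (mem_insert_self _ _) ?_ j
    intro x hx hx1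
    exact hL 1 x ((mem_insert.1 hx).resolve_left hx1)
  | succ i ih =>
    have ih' := ih (by omega)
    set X := L ∪ (Icc 1 (i + 1)).image (fun j : ℕ => q (j : ZMod N)) with hX
    have e : L ∪ (Icc 1 (i + 1 + 1)).image (fun j : ℕ => q (j : ZMod N)) =
        insert (q ((i + 2 : ℕ) : ZMod N)) X := by
      ext x
      simp only [hX, mem_union, mem_image, mem_Icc, mem_insert]
      constructor
      · rintro (h | ⟨j, hj, rfl⟩)
        · exact Or.inr (Or.inl h)
        · rcases Nat.lt_or_ge j (i + 2) with h1 | h1
          · exact Or.inr (Or.inr ⟨j, ⟨hj.1, by omega⟩, rfl⟩)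
          · left
            have : j = i + 2 := by omega
            rw [this]
      · rintro (rfl | h | ⟨j, hj, rfl⟩)
        · exact Or.inr ⟨i + 2, ⟨by omega, by omega⟩, rfl⟩
        · exact Or.inl h
        · exact Or.inr ⟨j, ⟨hj.1, by omega⟩, rfl⟩
    rw [e]
    refine ex_insert ?_ ih' ?_
    · intro h
      rw [hX, mem_union, mem_image] at h
      rcases h with h | ⟨j, hj, hj'⟩
      · exact hqL _ h
      · rw [mem_Icc] at hj
        have := cast_inj' (by omega) (by omega) (hq.inj hj')
        omega
    · -- the link is the cone over `L` with apex `q (i + 1)`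
      have e2 : lk H X (q ((i + 2 : ℕ) : ZMod N)) = insert (q ((i + 1 : ℕ) : ZMod N)) L := by
        ext x
        rw [mem_lk, mem_insert, hX, mem_union, mem_image]
        constructor
        · rintro ⟨h | ⟨j, hj, rfl⟩, hadj⟩
          · exact Or.inr h
          · left
            rw [mem_Icc] at hj
            rw [hq.adj] at hadj
            rcases hadj with h | h
            · -- j = i + 3 mod N
              exfalso
              have h1 : ((j : ℕ) : ZMod N) = ((i + 3 : ℕ) : ZMod N) := by
                rw [h]; push_cast; ring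
              rcases Nat.lt_or_ge (i + 3) N with h2 | h2
              · have := cast_inj' (by omega) h2 h1
                omega
              · have h3 : i + 3 = N := by omega
                rw [h3, ZMod.natCast_self] at h1
                exact zmod_ne hN (by omega) (by omega) h1
            · have h1 : ((i + 1 : ℕ) : ZMod N) = ((j : ℕ) : ZMod N) := by
                have h2 : ((i + 2 : ℕ) : ZMod N) = ((i + 1 : ℕ) : ZMod N) + 1 := by push_cast; ring
                rw [h2] at h
                exact add_right_cancel h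
              rw [h1]
        · rintro (rfl | h)
          · refine ⟨Or.inr ⟨i + 1, mem_Icc.2 ⟨by omega, le_rfl⟩, rfl⟩, ?_⟩
            rw [hq.adj]
            right
            push_cast
            ring
          · exact ⟨Or.inl h, hL _ x h⟩
      intro j
      rw [e2]
      refine cone (mem_insert_self _ _) ?_ j
      intro x hx hx1
      exact hL _ x ((mem_insert.1 hx).resolve_left hx1)

/-- **Joins with cycles.** -/
theorem cycle_ex {N : ℕ} (hN : 4 ≤ N) [NeZero N] {q : ZMod N → α} (hq : Cycle H N q)
    {L : Finset α} (hL : ∀ i, ∀ x ∈ L, H.Adj (q i) x) {e : ℕ} (hLe : ∀ j, j < e → Ex k H L j)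
    (j : ℕ) (hj : j < e + 2) : Ex k H (L ∪ univ.image q) j := by
  have hqL : ∀ i, q i ∉ L := fun i h => (hL i _ h).ne rfl
  obtain ⟨i, rfl⟩ : ∃ i, N = i + 2 := ⟨N - 2, by omega⟩
  set B := L ∪ (Icc 1 (i + 1)).image (fun j : ℕ => q (j : ZMod (i + 2))) with hB
  set A := L ∪ {q 0, q 1, q (-1)} with hA
  have hcast : ((i + 1 : ℕ) : ZMod (i + 2)) = -1 := by
    have h : ((i + 2 : ℕ) : ZMod (i + 2)) = 0 := ZMod.natCast_self _
    have h2 : ((i + 2 : ℕ) : ZMod (i + 2)) = ((i + 1 : ℕ) : ZMod (i + 2)) + 1 := by push_cast; ring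
    rw [h2] at h
    exact eq_neg_of_add_eq_zero_left h
  have hval : ∀ z : ZMod (i + 2), z ≠ 0 → ∃ j ∈ Icc 1 (i + 1), (j : ZMod (i + 2)) = z := by
    intro z hz
    refine ⟨z.val, mem_Icc.2 ⟨?_, ?_⟩, ZMod.natCast_zmod_val z⟩
    · rcases Nat.eq_zero_or_pos z.val with h | h
      · exact absurd ((ZMod.val_eq_zero z).1 h) hz
      · exact h
    · have := ZMod.val_lt z
      omega
  have h1mem : q 1 ∈ B := by
    rw [hB, mem_union, mem_image]
    exact Or.inr ⟨1, mem_Icc.2 ⟨le_rfl, by omega⟩, by rw [Nat.cast_one]⟩
  have hm1mem : q (-1) ∈ B := by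
    rw [hB, mem_union, mem_image]
    exact Or.inr ⟨i + 1, mem_Icc.2 ⟨by omega, le_rfl⟩, by rw [hcast]⟩
  have h0mem : q 0 ∉ B := by
    rw [hB, mem_union, mem_image]
    rintro (h | ⟨j, hj, hj'⟩)
    · exact hqL _ h
    · rw [mem_Icc] at hj
      exact zmod_ne hN (m := j) (by omega) (by omega) (hq.inj hj')
  have e1 : L ∪ univ.image q = A ∪ B := by
    ext x
    rw [mem_union, mem_union, mem_image]
    constructor
    · rintro (h | ⟨z, -, rfl⟩)
      · left; rw [hA, mem_union]; exact Or.inl h
      · by_cases hz : z = 0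
        · left; rw [hA, hz]; simp
        · obtain ⟨j, hj, hj'⟩ := hval z hz
          right
          rw [hB, mem_union, mem_image]
          exact Or.inr ⟨j, hj, by rw [hj']⟩
    · rintro (h | h)
      · rw [hA, mem_union, mem_insert, mem_insert, mem_singleton] at h
        rcases h with h | rfl | rfl | rfl
        · exact Or.inl h
        · exact Or.inr ⟨0, mem_univ _, rfl⟩
        · exact Or.inr ⟨1, mem_univ _, rfl⟩
        · exact Or.inr ⟨-1, mem_univ _, rfl⟩
      · rw [hB, mem_union, mem_image] at h
        rcases h with h | ⟨j, -, rfl⟩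
        · exact Or.inl h
        · exact Or.inr ⟨_, mem_univ _, rfl⟩
  have e2 : A ∩ B = L ∪ {q 1, q (-1)} := by
    ext x
    rw [mem_inter]
    constructor
    · rintro ⟨h1, h2⟩
      rw [hA, mem_union, mem_insert, mem_insert, mem_singleton] at h1
      rw [mem_union, mem_insert, mem_singleton]
      rcases h1 with h | rfl | h | h
      · exact Or.inl h
      · exact absurd h2 h0mem
      · exact Or.inr (Or.inl h)
      · exact Or.inr (Or.inr h)
    · intro h
      rw [mem_union, mem_insert, mem_singleton] at h
      rcases h with h | rfl | rfl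
      · exact ⟨mem_union_left _ h, mem_union_left _ h⟩
      · exact ⟨by rw [hA]; simp, h1mem⟩
      · exact ⟨by rw [hA]; simp, hm1mem⟩
  have hne1 : (1 : ZMod (i + 2)) ≠ -1 := by
    intro h
    have h2 : ((2 : ℕ) : ZMod (i + 2)) = 0 := by
      push_cast
      linear_combination h
    exact zmod_ne hN (m := 2) (by omega) (by omega) h2
  have hnadj : ¬ H.Adj (q 1) (q (-1)) := by
    rw [hq.adj]
    rintro (h | h)
    · have h2 : ((3 : ℕ) : ZMod (i + 2)) = 0 := by
        push_cast
        linear_combination -h
      exact zmod_ne hN (m := 3) (by omega) (by omega) h2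
    · have h2 : ((1 : ℕ) : ZMod (i + 2)) = 0 := by
        push_cast
        linear_combination h
      exact zmod_ne hN (m := 1) (by omega) (by omega) h2
  rw [e1]
  refine mv_step ?_ j (cone (v := q 0) (by rw [hA]; simp) ?_ j) (path_ex hN hq hL i (by omega) j) ?_
  · intro a ha b hb hab
    rw [hA, mem_union, mem_insert, mem_insert, mem_singleton] at ha
    rcases ha with h | rfl | rfl | rfl
    · left; exact mem_union_left _ h
    · right
      rw [hB, mem_union, mem_image] at hb
      rcases hb with h | ⟨l, hl, rfl⟩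
      · exact mem_union_left _ h
      · rw [hq.adj] at hab
        rw [hA, mem_union, mem_insert, mem_insert, mem_singleton]
        rcases hab with h | h
        · rw [h, zero_add]
          exact Or.inr (Or.inr (Or.inl rfl))
        · have : (l : ZMod (i + 2)) = -1 := by linear_combination -h
          rw [this]
          exact Or.inr (Or.inr (Or.inr rfl))
    · left; exact h1mem
    · left; exact hm1mem
  · intro x hx hx0
    rw [hA, mem_union, mem_insert, mem_insert, mem_singleton] at hx
    rcases hx with h | h | rfl | rfl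
    · exact hL 0 x h
    · exact absurd h hx0
    · rw [hq.adj]; left; ring
    · rw [hq.adj]; right; ring
  · intro l hl
    rw [e2]
    refine susp (fun h => hne1 (hq.inj h)) hnadj (hL 1) (hL (-1)) hLe l (by omega)

end Q116.GD
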