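import Pool.Agent.Q116.GD.Sph

/-!
# Doubling a flag homology sphere along the link of a vertex
-/

set_option autoImplicit false
set_option linter.unusedSectionVars false

namespace Q116.GD

open Pool.Agent.W497.FS Finset Polynomial

variable {k : Type} [Field k] {α β : Type} [LinearOrder α] [Fintype α] [LinearOrder β] [Fintype β]
  {G : SimpleGraph α} {H' : SimpleGraph β}

/-- The data of a doubling of the complex of `G` on `W` at the vertex `v`: two copies `A`, `B` of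
`W` without `v`, glued along the copy `A ∩ B` of the link of `v`. -/
structure Double (G : SimpleGraph α) (W : Finset α) (v : α) (H' : SimpleGraph β)
    (A B : Finset β) (ρ : β → α) : Prop where
  monoA : StrictMonoOn ρ A
  monoB : StrictMonoOn ρ B
  adjA : ∀ a ∈ A, ∀ b ∈ A, H'.Adj a b ↔ G.Adj (ρ a) (ρ b)
  adjB : ∀ a ∈ B, ∀ b ∈ B, H'.Adj a b ↔ G.Adj (ρ a) (ρ b)
  imA : A.image ρ = W.erase v
  imB : B.image ρ = W.erase v
  inter : ∀ x ∈ A ∪ B, ρ x ∈ lk G W v ↔ x ∈ A ∩ B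
  cross : ∀ a ∈ A, ∀ b ∈ B, H'.Adj a b → a ∈ B ∨ b ∈ A

variable {W : Finset α} {v : α} {A B : Finset β} {ρ : β → α}

theorem Double.swap (h : Double G W v H' A B ρ) : Double G W v H' B A ρ where
  monoA := h.monoB
  monoB := h.monoA
  adjA := h.adjB
  adjB := h.adjA
  imA := h.imB
  imB := h.imA
  inter := fun x hx => by
    rw [inter_comm]
    rw [union_comm] at hx
    exact h.inter x hx
  cross := fun a ha b hb hab => (h.cross b hb a ha hab.symm).symm

theorem Double.imC (h : Double G W v H' A B ρ) : (A ∩ B).image ρ = lk G W v := by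
  ext u
  rw [mem_image]
  constructor
  · rintro ⟨x, hx, rfl⟩
    exact (h.inter x (mem_union_left _ (mem_inter.1 hx).1)).2 hx
  · intro hu
    have h1 : u ∈ A.image ρ := by
      rw [h.imA, mem_erase]
      exact ⟨fun h' => not_mem_lk_self (h' ▸ hu), lk_subset hu⟩
    obtain ⟨x, hx, rfl⟩ := mem_image.1 h1
    exact ⟨x, (h.inter x (mem_union_left _ hx)).1 hu, rfl⟩

theorem Double.monoC (h : Double G W v H' A B ρ) : StrictMonoOn ρ (A ∩ B : Finset β) :=
  fun _ ha _ hb hab => h.monoA (mem_inter.1 ha).1 (mem_inter.1 hb).1 hab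

theorem Double.adjC (h : Double G W v H' A B ρ) :
    ∀ a ∈ A ∩ B, ∀ b ∈ A ∩ B, H'.Adj a b ↔ G.Adj (ρ a) (ρ b) :=
  fun a ha b hb => h.adjA a (mem_inter.1 ha).1 b (mem_inter.1 hb).1

theorem cl_cases (hAB : ∀ a ∈ A, ∀ b ∈ B, H'.Adj a b → a ∈ B ∨ b ∈ A) {κ : Finset β}
    (hκ : κ ∈ cl H' (A ∪ B)) : κ ⊆ A ∨ κ ⊆ B := by
  rw [mem_cl] at hκ
  by_contra hcon
  push Not at hcon
  obtain ⟨h1, h2⟩ := hcon
  obtain ⟨x, hx, hxA⟩ := not_subset.1 h1
  obtain ⟨z, hz, hzB⟩ := not_subset.1 h2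
  have hxB : x ∈ B := (mem_union.1 (hκ.1 hx)).resolve_left hxA
  have hzA : z ∈ A := (mem_union.1 (hκ.1 hz)).resolve_right hzB
  have hne : z ≠ x := fun h => hxA (h ▸ hzA)
  rcases hAB z hzA x hxB (hκ.2 z hz x hx hne) with h | h
  · exact hzB h
  · exact hxA h

theorem mem_cl_sub {X Y κ : Finset β} (hκ : κ ∈ cl H' X) (h : κ ⊆ Y) : κ ∈ cl H' Y :=
  mem_cl.2 ⟨h, (mem_cl.1 hκ).2⟩

/-- what we need from the original sphere -/
structure Orig (k : Type) [Field k] (G : SimpleGraph α) (d : ℕ) (W : Finset α) (v : α) : Prop where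
  sph : Sph k G (d + 1) W
  mem : v ∈ W
  acy : ∀ κ ∈ cl G (lk G W v), ∀ j, Ex k G ((lkF G W κ).erase v) j

theorem insert_mem_cl' {κ : Finset α} (hv : v ∈ W) (hκ : κ ∈ cl G (lk G W v)) :
    insert v κ ∈ cl G W ∧ v ∉ κ := by
  rw [mem_cl] at hκ ⊢
  refine ⟨⟨insert_subset hv (fun x hx => lk_subset (hκ.1 hx)), ?_⟩,
    fun h => not_mem_lk_self (hκ.1 h)⟩
  intro x hx z hz hxz
  rw [mem_insert] at hx hz
  rcases hx with rfl | hx
  · exact (mem_lk.1 (hκ.1 (hz.resolve_left hxz.symm))).2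
  · rcases hz with rfl | hz
    · exact (mem_lk.1 (hκ.1 hx)).2.symm
    · exact hκ.2 x hx z hz hxz

theorem lkF_erase {κ : Finset α} : lkF G (W.erase v) κ = (lkF G W κ).erase v := by
  ext x
  simp only [mem_lkF, mem_erase]
  tauto

theorem lkF_lk {κ : Finset α} : lkF G (lk G W v) κ = lkF G W (insert v κ) := by
  ext x
  simp only [mem_lkF, mem_lk, mem_insert, forall_eq_or_imp]
  tauto

theorem fe_erase {X : Finset α} {u : α} (hu : u ∈ X) :
    fe G (X.erase u) (-1 : ℤ) = fe G X (-1 : ℤ) + fe G (lk G X u) (-1 : ℤ) := by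
  have h1 := Pool.Agent.TH709.GG.FP_insert (H := G) (notMem_erase u X)
  rw [insert_erase hu] at h1
  have e : lk G (X.erase u) u = lk G X u := by
    ext x
    simp only [mem_lk, mem_erase]
    constructor
    · rintro ⟨⟨-, h1⟩, h2⟩
      exact ⟨h1, h2⟩
    · rintro ⟨h1, h2⟩
      exact ⟨⟨h2.ne.symm, h1⟩, h2⟩
  rw [e] at h1
  have h3 := congrArg (Polynomial.eval (-1 : ℤ)) h1
  rw [eval_add, eval_mul, eval_X, ← fe_eval, ← fe_eval, ← fe_eval] at h3
  linarith

section side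

variable {d : ℕ}

/-- a face of the double inside `A` but not inside `B` -/
theorem Double.side (h : Double G W v H' A B ρ) (hO : Orig k G d W v) {κ : Finset β}
    (hκ : κ ∈ cl H' (A ∪ B)) (hA : κ ⊆ A) (hB : ¬ κ ⊆ B) :
    lkF H' (A ∪ B) κ = lkF H' A κ ∧ (lkF H' A κ).image ρ = lkF G W (κ.image ρ) ∧
      κ.image ρ ∈ cl G W := by
  obtain ⟨x, hx, hxB⟩ := not_subset.1 hB
  have h1 : κ.image ρ ∈ cl G (W.erase v) := by
    rw [← h.imA]
    exact image_mem_cl h.adjA (mem_cl_sub hκ hA)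
  refine ⟨?_, ?_, cl_mono (erase_subset _ _) h1⟩
  · ext z
    rw [mem_lkF, mem_lkF]
    constructor
    · rintro ⟨h2, h3⟩
      refine ⟨?_, h3⟩
      rcases mem_union.1 h2 with h4 | h4
      · exact h4
      · exact (h.cross x (hA hx) z h4 (h3 x hx)).resolve_left hxB
    · exact fun h2 => ⟨mem_union_left _ h2.1, h2.2⟩
  · rw [lkF_image h.adjA hA, h.imA, lkF_erase, erase_eq_of_notMem]
    intro h2
    have h3 := (mem_lkF.1 h2).2 (ρ x) (mem_image_of_mem ρ hx)
    have h4 : ρ x ∈ W := (mem_cl.1 (cl_mono (erase_subset _ _) h1)).1 (mem_image_of_mem ρ hx)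
    have h5 : ρ x ∈ lk G W v := mem_lk.2 ⟨h4, h3.symm⟩
    exact hxB (mem_inter.1 ((h.inter x (mem_union_left _ (hA hx))).1 h5)).2

theorem Double.card_image (h : Double G W v H' A B ρ) {κ : Finset β} (hA : κ ⊆ A) :
    (κ.image ρ).card = κ.card :=
  card_image_of_injOn (fun _ ha _ hb h' => h.monoA.injOn (hA ha) (hA hb) h')

theorem Double.side_all (h : Double G W v H' A B ρ) (hO : Orig k G d W v) {κ : Finset β}
    (hκ : κ ∈ cl H' (A ∪ B)) (hA : κ ⊆ A) (hB : ¬ κ ⊆ B) :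
    κ.card ≤ d + 1 ∧ fe H' (lkF H' (A ∪ B) κ) (-1 : ℤ) = (-1) ^ (d + 1 + κ.card) ∧
      ∀ j, j + κ.card < d + 1 → Ex k H' (lkF H' (A ∪ B) κ) j := by
  obtain ⟨h1, h2, h3⟩ := h.side hO hκ hA hB
  have hc := h.card_image hA
  refine ⟨hc ▸ hO.sph.le _ h3, ?_, ?_⟩
  · have h4 := (eul_iff.1 hO.sph.eul) _ h3
    have hsub : lkF H' A κ ⊆ A := fun x hx => (mem_lkF.1 hx).1
    rw [hc, ← h2, fe_eval, Pool.Agent.TH709.GG.FP_image
      (fun a ha b hb h' => h.monoA.injOn (hsub ha) (hsub hb) h')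
      (fun a ha b hb => h.adjA a (hsub ha) b (hsub hb)), ← fe_eval] at h4
    rw [h1, h4]
  · intro j hj
    rw [h1]
    have h5 := hO.sph.ex _ h3 j (by rw [hc]; exact hj)
    rw [← h2] at h5
    have hsub : lkF H' A κ ⊆ A := fun x hx => (mem_lkF.1 hx).1
    exact ex_trans (ρ := ρ) (H := G) (fun a ha b hb => h.monoA (hsub ha) (hsub hb))
      (fun a ha b hb => h.adjA a (hsub ha) b (hsub hb)) j h5

/-- the face polynomials of subcomplexes are preserved -/
theorem fe_img {D : Finset β} (hρ : StrictMonoOn ρ D)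
    (hadj : ∀ a ∈ D, ∀ b ∈ D, H'.Adj a b ↔ G.Adj (ρ a) (ρ b)) {κ : Finset β} (hκ : κ ⊆ D) (x : ℤ) :
    fe H' (lkF H' D κ) x = fe G (lkF G (D.image ρ) (κ.image ρ)) x := by
  have hsub : lkF H' D κ ⊆ D := fun x hx => (mem_lkF.1 hx).1
  rw [← lkF_image hadj hκ, fe_eval, fe_eval, Pool.Agent.TH709.GG.FP_image
      (fun a ha b hb h' => hρ.injOn (hsub ha) (hsub hb) h')
      (fun a ha b hb => hadj a (hsub ha) b (hsub hb))]

theorem cross_lkF (hAB : ∀ a ∈ A, ∀ b ∈ B, H'.Adj a b → a ∈ B ∨ b ∈ A) (κ : Finset β) :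
    ∀ a ∈ lkF H' A κ, ∀ b ∈ lkF H' B κ, H'.Adj a b → a ∈ lkF H' B κ ∨ b ∈ lkF H' A κ := by
  intro a ha b hb hab
  obtain ⟨h1, h2⟩ := mem_lkF.1 ha
  obtain ⟨h3, h4⟩ := mem_lkF.1 hb
  rcases hAB a h1 b h3 hab with h | h
  · exact Or.inl (mem_lkF.2 ⟨h, h2⟩)
  · exact Or.inr (mem_lkF.2 ⟨h, h4⟩)

theorem lkF_union (κ : Finset β) : lkF H' (A ∪ B) κ = lkF H' A κ ∪ lkF H' B κ := by
  ext x
  simp only [mem_lkF, mem_union]
  tauto

theorem lkF_inter (κ : Finset β) : lkF H' A κ ∩ lkF H' B κ = lkF H' (A ∩ B) κ := by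
  ext x
  simp only [mem_lkF, mem_inter]
  tauto

theorem fe_union {X Y : Finset β} (hXY : ∀ a ∈ X, ∀ b ∈ Y, H'.Adj a b → a ∈ Y ∨ b ∈ X) (x : ℤ) :
    fe H' (X ∪ Y) x = fe H' X x + fe H' Y x - fe H' (X ∩ Y) x := by
  rw [fe_eval, fe_eval, fe_eval, fe_eval, Pool.Agent.TH709.GG.FP_union hXY, eval_sub, eval_add]

/-- **The double is a homology sphere.** -/
theorem Double.sph (h : Double G W v H' A B ρ) (hO : Orig k G d W v) :
    Sph k H' (d + 1) (A ∪ B) := by
  have key : ∀ κ ∈ cl H' (A ∪ B), κ.card ≤ d + 1 ∧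
      fe H' (lkF H' (A ∪ B) κ) (-1 : ℤ) = (-1) ^ (d + 1 + κ.card) ∧
      ∀ j, j + κ.card < d + 1 → Ex k H' (lkF H' (A ∪ B) κ) j := by
    intro κ hκ
    by_cases hA : κ ⊆ A
    · by_cases hB : κ ⊆ B
      · -- faces of the link of `v`
        have hC : κ ⊆ A ∩ B := subset_inter hA hB
        have hc := h.card_image hA
        have h1 : κ.image ρ ∈ cl G (lk G W v) := by
          rw [← h.imC]
          exact image_mem_cl h.adjC (mem_cl_sub hκ hC)
        obtain ⟨h2, h3⟩ := insert_mem_cl' hO.mem h1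
        have h4 : κ.image ρ ∈ cl G W := cl_of_subset h2 (subset_insert _ _)
        have hcard2 : (insert v (κ.image ρ)).card = κ.card + 1 := by
          rw [card_insert_of_notMem h3, hc]
        have hvm : v ∈ lkF G W (κ.image ρ) := by
          rw [mem_lkF]
          exact ⟨hO.mem, fun z hz => (mem_lk.1 ((mem_cl.1 h1).1 hz)).2.symm⟩
        have hlk : lk G (lkF G W (κ.image ρ)) v = lkF G W (insert v (κ.image ρ)) := by
          ext x
          simp only [mem_lk, mem_lkF, mem_insert, forall_eq_or_imp]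
          tauto
        have e1 := (eul_iff.1 hO.sph.eul) _ h4
        have e2 := (eul_iff.1 hO.sph.eul) _ h2
        rw [hc] at e1
        rw [hcard2] at e2
        have e3 : fe G ((lkF G W (κ.image ρ)).erase v) (-1 : ℤ) = 0 := by
          rw [fe_erase hvm, hlk, e1, e2]
          ring
        refine ⟨?_, ?_, ?_⟩
        · have := hO.sph.le _ h4
          omega
        · rw [lkF_union, fe_union (cross_lkF h.cross κ), lkF_inter, fe_img h.monoA h.adjA hA,
            fe_img h.monoB h.adjB hB, fe_img h.monoC h.adjC hC, h.imA, h.imB, h.imC, lkF_erase,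
            lkF_lk, e3, e2]
          ring
        · intro j hj
          rw [lkF_union]
          refine mv_step (cross_lkF h.cross κ) j ?_ ?_ ?_
          · refine ex_lkF h.monoA h.adjA hA j ?_
            rw [h.imA, lkF_erase]
            exact hO.acy _ h1 j
          · refine ex_lkF h.monoB h.adjB hB j ?_
            rw [h.imB, lkF_erase]
            exact hO.acy _ h1 j
          · intro i hi
            rw [lkF_inter]
            refine ex_lkF h.monoC h.adjC hC i ?_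
            rw [h.imC, lkF_lk]
            exact hO.sph.ex _ h2 i (by rw [hcard2]; omega)
      · exact h.side_all hO hκ hA hB
    · have hB : κ ⊆ B := (cl_cases h.cross hκ).resolve_left hA
      have hκ' : κ ∈ cl H' (B ∪ A) := by rwa [union_comm]
      have := h.swap.side_all hO hκ' hB hA
      rwa [union_comm] at this
  exact ⟨fun κ hκ => (key κ hκ).1, eul_iff.2 fun κ hκ => (key κ hκ).2.1,
    fun κ hκ => (key κ hκ).2.2⟩

/-- the face polynomial of the double -/
theorem Double.FP_eq (h : Double G W v H' A B ρ) (hv : v ∈ W) :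
    FP H' (A ∪ B) = 2 * FP G W - y * FP G (lk G W v) := by
  have h1 := Pool.Agent.TH709.GG.FP_union h.cross
  have eA : FP H' A = FP G (W.erase v) := by
    rw [← h.imA]
    exact (Pool.Agent.TH709.GG.FP_image h.monoA.injOn h.adjA).symm
  have eB : FP H' B = FP G (W.erase v) := by
    rw [← h.imB]
    exact (Pool.Agent.TH709.GG.FP_image h.monoB.injOn h.adjB).symm
  have eC : FP H' (A ∩ B) = FP G (lk G W v) := by
    rw [← h.imC]
    exact (Pool.Agent.TH709.GG.FP_image h.monoC.injOn h.adjC).symm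
  have h2 := Pool.Agent.TH709.GG.FP_insert (H := G) (notMem_erase v W)
  rw [insert_erase hv] at h2
  have e : lk G (W.erase v) v = lk G W v := by
    ext x
    simp only [mem_lk, mem_erase]
    constructor
    · rintro ⟨⟨-, h1⟩, h2⟩
      exact ⟨h1, h2⟩
    · rintro ⟨h1, h2⟩
      exact ⟨⟨h2.ne.symm, h1⟩, h2⟩
  rw [e] at h2
  rw [h1, eA, eB, eC, h2, y]
  ring

theorem Double.card_eq (h : Double G W v H' A B ρ) (hv : v ∈ W) :
    (A ∪ B).card + 2 + (lk G W v).card = 2 * W.card := by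
  have eA : A.card = W.card - 1 := by
    rw [← card_erase_of_mem hv, ← h.imA, card_image_of_injOn h.monoA.injOn]
  have eB : B.card = W.card - 1 := by
    rw [← card_erase_of_mem hv, ← h.imB, card_image_of_injOn h.monoB.injOn]
  have eC : (A ∩ B).card = (lk G W v).card := by
    rw [← h.imC, card_image_of_injOn h.monoC.injOn]
  have h1 := card_union_add_card_inter A B
  have h2 : 0 < W.card := card_pos.2 ⟨v, hv⟩
  omega

end side

end Q116.GD
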