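import Pool.Agent.Q116.GD.Dbl
import Pool.Agent.TH709.GG.Sph3
import Pool.Agent.TH709.GG.Main

/-!
# Joins with cycles and doubles as complexes on `Fin n`
-/

set_option autoImplicit false
set_option linter.unusedSectionVars false

namespace Q116.GD

open Pool.Agent.W497.FS Finset Polynomial

/-! ### Expansions -/

/-- `a` is the gamma-vector (extended by zero) of the face polynomial `p` in rank `d` -/
def Exp (d : ℕ) (p : ℤ[X]) (a : ℕ → ℤ) : Prop :=
  (∀ i, d < 2 * i → a i = 0) ∧
    p = ∑ i ∈ range (d / 2 + 1), C (a i) * w ^ i * y ^ (d - 2 * i)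

/-- the coefficients of a product with `1 + T t` -/
def shiftAdd (T : ℤ) (a : ℕ → ℤ) : ℕ → ℤ := fun i => a i + T * (if i = 0 then 0 else a (i - 1))

theorem exp_join {d : ℕ} {p : ℤ[X]} {a : ℕ → ℤ} (h : Exp d p a) (T : ℤ) :
    Exp (d + 2) (p * (y ^ 2 + C T * w)) (shiftAdd T a) := by
  obtain ⟨h1, h2⟩ := h
  refine ⟨fun i hi => ?_, ?_⟩
  · unfold shiftAdd
    rw [if_neg (by omega), h1 i (by omega), h1 (i - 1) (by omega)]
    ring
  · have e0 : (d + 2) / 2 + 1 = d / 2 + 1 + 1 := by omega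
    have e1 : ∑ i ∈ range (d / 2 + 1 + 1), C (a i) * w ^ i * y ^ (d + 2 - 2 * i) = p * y ^ 2 := by
      rw [sum_range_succ, h1 (d / 2 + 1) (by omega), h2, sum_mul]
      rw [C_0, zero_mul, zero_mul, add_zero]
      refine sum_congr rfl fun i hi => ?_
      rw [mem_range] at hi
      have : d + 2 - 2 * i = d - 2 * i + 2 := by omega
      rw [this, pow_add]
      ring
    have e2 : ∑ i ∈ range (d / 2 + 1 + 1), C (if i = 0 then 0 else a (i - 1)) * w ^ i *
        y ^ (d + 2 - 2 * i) = p * w := by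
      rw [sum_range_succ', if_pos rfl, C_0, zero_mul, zero_mul, add_zero, h2, sum_mul]
      refine sum_congr rfl fun i hi => ?_
      rw [if_neg (by omega), Nat.add_sub_cancel, pow_succ]
      have : d + 2 - 2 * (i + 1) = d - 2 * i := by omega
      rw [this]
      ring
    rw [e0]
    have e3 : ∀ i, C (shiftAdd T a i) * w ^ i * y ^ (d + 2 - 2 * i) =
        C (a i) * w ^ i * y ^ (d + 2 - 2 * i) +
          C T * (C (if i = 0 then 0 else a (i - 1)) * w ^ i * y ^ (d + 2 - 2 * i)) := by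
      intro i
      unfold shiftAdd
      rw [C_add, C_mul]
      ring
    rw [sum_congr rfl fun i _ => e3 i, sum_add_distrib, ← mul_sum, e1, e2]
    ring

theorem exp_double {d : ℕ} {p r : ℤ[X]} {a b : ℕ → ℤ} (ha : Exp (d + 1) p a) (hb : Exp d r b) :
    Exp (d + 1) (2 * p - y * r) (fun i => 2 * a i - b i) := by
  obtain ⟨h1, h2⟩ := ha
  obtain ⟨h3, h4⟩ := hb
  refine ⟨fun i hi => ?_, ?_⟩
  · dsimp only
    rw [h1 i hi, h3 i (by omega)]
    ring
  · have e1 : ∑ i ∈ range ((d + 1) / 2 + 1), C (b i) * w ^ i * y ^ (d + 1 - 2 * i) = y * r := by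
      have e2 : ∑ i ∈ range (d / 2 + 1), C (b i) * w ^ i * y ^ (d + 1 - 2 * i) = y * r := by
        rw [h4, mul_sum]
        refine sum_congr rfl fun i hi => ?_
        rw [mem_range] at hi
        have : d + 1 - 2 * i = d - 2 * i + 1 := by omega
        rw [this, pow_succ]
        ring
      rw [← e2]
      symm
      refine sum_subset (fun i hi => ?_) (fun i hi hi' => ?_)
      · rw [mem_range] at hi ⊢
        omega
      · rw [mem_range] at hi hi'
        rw [h3 i (by omega), C_0, zero_mul, zero_mul]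
    have e3 : ∀ i, C (2 * a i - b i) * w ^ i * y ^ (d + 1 - 2 * i) =
        2 * (C (a i) * w ^ i * y ^ (d + 1 - 2 * i)) - C (b i) * w ^ i * y ^ (d + 1 - 2 * i) := by
      intro i
      rw [C_sub, C_mul]
      simp only [C_ofNat]
      ring
    rw [sum_congr rfl fun i _ => e3 i, sum_sub_distrib, ← mul_sum, e1, ← h2]

variable {k : Type} [Field k] {n d : ℕ}

/-- the face polynomial of a sphere -/
noncomputable def PS (S : Finset (Finset (Fin n))) : ℤ[X] := FP (skel S) (vert S)

theorem exists_exp {S : Finset (Finset (Fin n))} (h : IsFlagSphere k d S) :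
    ∃ a, Exp d (PS S) a := by
  have hEP := Pool.Agent.TH709.GG.F3.ep_of_np h.np h.eul
  obtain ⟨a, ha⟩ := Pool.Agent.TH709.GG.F3.ep_FP_exp hEP (σ := ∅) empty_mem_cl
  have e : lkF (skel S) (vert S) ∅ = vert S := by ext x; rw [mem_lkF]; simp
  rw [e, card_empty, Nat.sub_zero] at ha
  refine ⟨fun i => if i ≤ d / 2 then a i else 0, fun i hi => ?_, ?_⟩
  · dsimp only
    rw [if_neg]; omega
  · rw [PS, ha]
    refine sum_congr rfl fun i hi => ?_
    rw [mem_range] at hi
    dsimp only
    rw [if_pos (by omega)]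

theorem isGamma_of_exp {S : Finset (Finset (Fin n))} (h : IsFlagSphere k d S) {a : ℕ → ℤ}
    (ha : Exp d (PS S) a) : IsGamma d S a := by
  have h1 := ha.2
  rw [PS, h.FP_eq] at h1
  exact Pool.Agent.TH709.GG.h_of_f d _ a h1

theorem gamma_eq_exp {S : Finset (Finset (Fin n))} (h : IsFlagSphere k d S) {a γ : ℕ → ℤ}
    (ha : Exp d (PS S) a) (hγ : IsGamma d S γ) : ∀ i ≤ d / 2, γ i = a i :=
  h.gamma_eq hγ ha.2

theorem vert_cl (H : SimpleGraph (Fin n)) (W : Finset (Fin n)) : vert (cl H W) = W := by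
  ext v
  rw [mem_vert]
  exact ⟨fun h => (mem_cl.1 h).1 (mem_singleton_self _), fun h => singleton_mem_cl h⟩

theorem skel_adj {H : SimpleGraph (Fin n)} {W : Finset (Fin n)} {a b : Fin n} (ha : a ∈ W)
    (hb : b ∈ W) : (skel (cl H W)).Adj a b ↔ H.Adj a b := by
  constructor
  · rintro ⟨h1, h2⟩
    exact (mem_cl.1 h2).2 a (mem_insert_self _ _) b (mem_insert_of_mem (mem_singleton_self _)) h1
  · intro h
    refine ⟨h.ne, mem_cl.2 ⟨?_, ?_⟩⟩
    · intro x hx
      rw [mem_insert, mem_singleton] at hx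
      rcases hx with rfl | rfl
      · exact ha
      · exact hb
    · intro x hx z hz hxz
      rw [mem_insert, mem_singleton] at hx hz
      rcases hx with rfl | rfl <;> rcases hz with rfl | rfl
      · exact absurd rfl hxz
      · exact h
      · exact h.symm
      · exact absurd rfl hxz

/-- the clique complexes are recovered from their 1-skeletons -/
theorem cl_cl (H : SimpleGraph (Fin n)) (W : Finset (Fin n)) :
    cl (skel (cl H W)) (vert (cl H W)) = cl H W := by
  rw [vert_cl]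
  ext σ
  rw [mem_cl, mem_cl]
  constructor
  · rintro ⟨h1, h2⟩
    exact ⟨h1, fun x hx z hz hxz => (skel_adj (h1 hx) (h1 hz)).1 (h2 x hx z hz hxz)⟩
  · rintro ⟨h1, h2⟩
    exact ⟨h1, fun x hx z hz hxz => (skel_adj (h1 hx) (h1 hz)).2 (h2 x hx z hz hxz)⟩

theorem PS_cl (H : SimpleGraph (Fin n)) (W : Finset (Fin n)) : PS (cl H W) = FP H W := by
  rw [PS, FP, cl_cl, FP]

theorem card_cl {α : Type} [LinearOrder α] {H : SimpleGraph α} (W : Finset α) :
    (((cl H W).card : ℕ) : ℤ) = fe H W (1 : ℤ) := by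
  rw [fe]
  simp

theorem numVert_cl (H : SimpleGraph (Fin n)) (W : Finset (Fin n)) :
    numVert (cl H W) = W.card := by
  rw [numVert_eq, vert_cl]

/-! ### Joins with cycles -/

/-- old vertices -/
def rhoJ (n N : ℕ) (hn : 0 < n) (x : Fin (n + N)) : Fin n := ⟨min x.val (n - 1), by omega⟩

/-- the graph of the join with a cycle of length `N` -/
def JG (G : SimpleGraph (Fin n)) (N : ℕ) (hn : 0 < n) : SimpleGraph (Fin (n + N)) where
  Adj x z := x ≠ z ∧ ((x.val < n ∧ z.val < n ∧ G.Adj (rhoJ n N hn x) (rhoJ n N hn z)) ∨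
    (x.val < n ∧ n ≤ z.val) ∨ (n ≤ x.val ∧ z.val < n) ∨
    (n ≤ x.val ∧ n ≤ z.val ∧ (((z.val - n : ℕ) : ZMod N) = ((x.val - n : ℕ) : ZMod N) + 1 ∨
      ((x.val - n : ℕ) : ZMod N) = ((z.val - n : ℕ) : ZMod N) + 1)))
  symm := ⟨by
    rintro x z ⟨h0, h | h | h | h⟩
    · exact ⟨h0.symm, Or.inl ⟨h.2.1, h.1, h.2.2.symm⟩⟩
    · exact ⟨h0.symm, Or.inr (Or.inr (Or.inl ⟨h.2, h.1⟩))⟩
    · exact ⟨h0.symm, Or.inr (Or.inl ⟨h.2, h.1⟩)⟩
    · exact ⟨h0.symm, Or.inr (Or.inr (Or.inr ⟨h.2.1, h.1, h.2.2.symm⟩))⟩⟩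
  loopless := ⟨fun x h => h.1 rfl⟩

theorem join_fin (hn : 0 < n) (S : Finset (Finset (Fin n))) (hcl : cl (skel S) (vert S) = S)
    (N : ℕ) (hN : 4 ≤ N) :
    ∃ S' : Finset (Finset (Fin (n + N))), cl (skel S') (vert S') = S' ∧
      (∀ (k : Type) [Field k] (d : ℕ), IsFlagSphere k d S → IsFlagSphere k (d + 2) S') ∧
      numVert S' = numVert S + N ∧ S'.card = S.card * (2 * N + 1) ∧
      PS S' = PS S * (y ^ 2 + C ((N : ℤ) - 4) * w) := by
  haveI : NeZero N := ⟨by omega⟩
  set G := skel S with hG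
  set W := vert S with hW
  set H := JG G N hn with hH
  set ρ := rhoJ n N hn with hρ
  set A : Finset (Fin (n + N)) := W.image (Fin.castAdd N) with hA
  set q : ZMod N → Fin (n + N) := fun z => ⟨n + z.val, by have := ZMod.val_lt z; omega⟩ with hq
  have hAlt : ∀ x ∈ A, x.val < n := by
    intro x hx
    obtain ⟨u, -, rfl⟩ := mem_image.1 hx
    exact u.2
  have hρA : ∀ x : Fin (n + N), x.val < n → (ρ x).val = x.val := by
    intro x hx
    show min x.val (n - 1) = x.val
    omega
  have hmono : StrictMonoOn ρ A := by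
    intro x hx z hz hxz
    rw [Fin.lt_def, hρA x (hAlt x hx), hρA z (hAlt z hz)]
    exact hxz
  have him : A.image ρ = W := by
    rw [hA, image_image]
    have : ∀ u ∈ W, (ρ ∘ Fin.castAdd N) u = u := by
      intro u _
      apply Fin.ext
      exact hρA (Fin.castAdd N u) u.2
    rw [image_congr (g := id) this, image_id]
  have hadj : ∀ x ∈ A, ∀ z ∈ A, H.Adj x z ↔ G.Adj (ρ x) (ρ z) := by
    intro x hx z hz
    have h1 := hAlt x hx
    have h2 := hAlt z hz
    constructor
    · rintro ⟨-, h | h | h | h⟩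
      · exact h.2.2
      · omega
      · omega
      · omega
    · intro h
      refine ⟨fun h' => h.ne (by rw [h']), Or.inl ⟨h1, h2, h⟩⟩
  have hqge : ∀ i, n ≤ (q i).val := fun i => Nat.le_add_right _ _
  have hqc : ∀ i, (((q i).val - n : ℕ) : ZMod N) = i := by
    intro i
    show ((n + i.val - n : ℕ) : ZMod N) = i
    rw [Nat.add_sub_cancel_left, ZMod.natCast_zmod_val]
  have hqi : Function.Injective q := by
    intro i j h
    rw [← hqc i, ← hqc j, h]
  have hcyc : Cycle H N q := by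
    refine ⟨hqi, fun i j => ?_⟩
    have h1 := hqge i
    have h2 := hqge j
    constructor
    · rintro ⟨-, h | h | h | h⟩
      · omega
      · omega
      · omega
      · have h3 := h.2.2
        rwa [hqc, hqc] at h3
    · intro h
      refine ⟨fun h' => ?_, Or.inr (Or.inr (Or.inr ⟨h1, h2, by rwa [hqc, hqc]⟩))⟩
      have hij := hqi h'
      obtain ⟨n1, -, -⟩ := ne_small hN
      rcases h with h | h
      · apply n1; rw [hij] at h; linear_combination -h
      · apply n1; rw [hij] at h; linear_combination -h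
  have hfull : Full H A (univ.image q) := by
    intro x hx z hz
    obtain ⟨i, -, rfl⟩ := mem_image.1 hz
    have h1 := hAlt x hx
    have h2 := hqge i
    refine ⟨fun h => ?_, Or.inr (Or.inl ⟨h1, h2⟩)⟩
    rw [h] at h1
    omega
  have e1 : FP H A = PS S := by
    rw [PS, ← hG, ← hW, ← him]
    exact (Pool.Agent.TH709.GG.FP_image hmono.injOn hadj).symm
  refine ⟨cl H (A ∪ univ.image q), cl_cl _ _, ?_, ?_, ?_, ?_⟩
  · intro k _ d hS
    have hsphA : Sph k H d A := Sph.trans hmono hadj (by rw [him]; exact sph_of hS)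
    have hsph := hsphA.join hN hcyc hfull
    exact flagSphere_of H _ hsph.le hsph.eul hsph.ex
  · rw [numVert_cl, card_union_of_disjoint hfull.disjoint, card_image_of_injective _ hqi,
      card_univ, ZMod.card, numVert_eq, ← hW]
    congr 1
    rw [hA, card_image_of_injective _ (Fin.castAdd_injective n N)]
  · have h1 := card_cl (H := H) (A ∪ univ.image q)
    have h2 := card_cl (H := skel S) (vert S)
    rw [hcl] at h2
    rw [fe_join hfull, fe_eval A, e1, fe_eval (univ.image q), FP_cycle hN hcyc] at h1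
    rw [fe_eval, ← PS] at h2
    rw [← h2] at h1
    have e3 : (1 + C (N : ℤ) * X + C (N : ℤ) * X ^ 2 : ℤ[X]).eval 1 = 2 * N + 1 := by
      simp
      ring
    rw [e3] at h1
    exact_mod_cast h1
  · rw [PS_cl, Pool.Agent.TH709.GG.FP_join' hfull, FP_cycle hN hcyc, e1]
    have e2 : (1 + C (N : ℤ) * X + C (N : ℤ) * X ^ 2 : ℤ[X]) = y ^ 2 + C ((N : ℤ) - 4) * w := by
      rw [y, w, C_sub]
      simp only [C_ofNat]
      ring
    rw [e2]

/-! ### Doubles -/

/-- the vertex of the original complex -/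
def rhoD (n : ℕ) (x : Fin (2 * n)) : Fin n := ⟨x.val / 2, by omega⟩

/-- the graph of the double -/
def DG (G : SimpleGraph (Fin n)) (L : Finset (Fin n)) : SimpleGraph (Fin (2 * n)) where
  Adj x z := G.Adj (rhoD n x) (rhoD n z) ∧
    (x.val % 2 = z.val % 2 ∨ rhoD n x ∈ L ∨ rhoD n z ∈ L)
  symm := ⟨by
    rintro x z ⟨h0, h | h | h⟩
    · exact ⟨h0.symm, Or.inl h.symm⟩
    · exact ⟨h0.symm, Or.inr (Or.inr h)⟩
    · exact ⟨h0.symm, Or.inr (Or.inl h)⟩⟩
  loopless := ⟨fun x h => h.1.ne rfl⟩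

theorem double_data (G : SimpleGraph (Fin n)) (W : Finset (Fin n)) (v : Fin n) :
    Double G W v (DG G (lk G W v))
      (univ.filter fun x : Fin (2 * n) => rhoD n x ∈ W.erase v ∧ x.val % 2 = 0)
      (univ.filter fun x : Fin (2 * n) => rhoD n x ∈ W.erase v ∧
        (x.val % 2 = 1 ↔ rhoD n x ∉ lk G W v)) (rhoD n) := by
  have hlt : ∀ u : Fin n, 2 * u.val < 2 * n := fun u => by have := u.2; omega
  have hlt' : ∀ u : Fin n, 2 * u.val + 1 < 2 * n := fun u => by have := u.2; omega
  constructor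
  · intro x hx z hz hxz
    have h1 := (mem_filter.1 hx).2.2
    have h2 := (mem_filter.1 hz).2.2
    rw [Fin.lt_def] at hxz ⊢
    show x.val / 2 < z.val / 2
    omega
  · intro x hx z hz hxz
    have h1 := (mem_filter.1 hx).2.2
    have h2 := (mem_filter.1 hz).2.2
    rw [Fin.lt_def] at hxz ⊢
    show x.val / 2 < z.val / 2
    by_contra hcon
    have h3 : x.val / 2 = z.val / 2 := by omega
    have h4 : rhoD n x = rhoD n z := Fin.ext h3
    have h5 : x.val % 2 = 0 := by omega
    have h6 : z.val % 2 = 1 := by omega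
    have h7 := h2.1 h6
    rw [← h4] at h7
    have h8 := h1.2 h7
    omega
  · intro x hx z hz
    have h1 := (mem_filter.1 hx).2.2
    have h2 := (mem_filter.1 hz).2.2
    exact ⟨fun h => h.1, fun h => ⟨h, Or.inl (by rw [h1, h2])⟩⟩
  · intro x hx z hz
    have h1 := (mem_filter.1 hx).2.2
    have h2 := (mem_filter.1 hz).2.2
    refine ⟨fun h => h.1, fun h => ⟨h, ?_⟩⟩
    by_cases h3 : rhoD n x ∈ lk G W v
    · exact Or.inr (Or.inl h3)
    · by_cases h4 : rhoD n z ∈ lk G W v
      · exact Or.inr (Or.inr h4)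
      · left
        rw [h1.2 h3, h2.2 h4]
  · ext u
    rw [mem_image]
    constructor
    · rintro ⟨x, hx, rfl⟩
      exact (mem_filter.1 hx).2.1
    · intro hu
      have e : rhoD n ⟨2 * u.val, hlt u⟩ = u := Fin.ext (by show 2 * u.val / 2 = u.val; omega)
      refine ⟨⟨2 * u.val, hlt u⟩, mem_filter.2 ⟨mem_univ _, by rw [e]; exact hu, ?_⟩, e⟩
      show 2 * u.val % 2 = 0
      omega
  · ext u
    rw [mem_image]
    constructor
    · rintro ⟨x, hx, rfl⟩
      exact (mem_filter.1 hx).2.1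
    · intro hu
      by_cases hL : u ∈ lk G W v
      · have e : rhoD n ⟨2 * u.val, hlt u⟩ = u := Fin.ext (by show 2 * u.val / 2 = u.val; omega)
        refine ⟨⟨2 * u.val, hlt u⟩, mem_filter.2 ⟨mem_univ _, by rw [e]; exact hu, ?_⟩, e⟩
        rw [e]
        constructor
        · intro h
          have h' : 2 * u.val % 2 = 1 := h
          omega
        · exact fun h => absurd hL h
      · have e : rhoD n ⟨2 * u.val + 1, hlt' u⟩ = u :=
          Fin.ext (by show (2 * u.val + 1) / 2 = u.val; omega)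
        refine ⟨⟨2 * u.val + 1, hlt' u⟩, mem_filter.2 ⟨mem_univ _, by rw [e]; exact hu, ?_⟩, e⟩
        rw [e]
        refine ⟨fun _ => hL, fun _ => ?_⟩
        show (2 * u.val + 1) % 2 = 1
        omega
  · intro x hx
    rw [mem_union, mem_filter, mem_filter] at hx
    rw [mem_inter, mem_filter, mem_filter]
    constructor
    · intro h
      rcases hx with hx | hx
      · refine ⟨hx, mem_univ _, hx.2.1, ?_⟩
        constructor
        · intro h'
          have := hx.2.2
          omega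
        · exact fun h' => absurd h h'
      · refine ⟨⟨mem_univ _, hx.2.1, ?_⟩, hx⟩
        by_contra h'
        exact hx.2.2.1 (by omega) h
    · rintro ⟨h1, h2⟩
      by_contra h'
      have := h2.2.2.2 h'
      have := h1.2.2
      omega
  · intro x hx z hz hxz
    have h1 := (mem_filter.1 hx).2
    have h2 := (mem_filter.1 hz).2
    rcases hxz.2 with h | h | h
    · right
      exact mem_filter.2 ⟨mem_univ _, h2.1, by rw [← h]; exact h1.2⟩
    · left
      refine mem_filter.2 ⟨mem_univ _, h1.1, ?_⟩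
      constructor
      · intro h'
        have := h1.2
        omega
      · exact fun h' => absurd h h'
    · right
      refine mem_filter.2 ⟨mem_univ _, h2.1, ?_⟩
      by_contra h'
      exact h2.2.1 (by omega) h

theorem hs_lkF {α : Type} [LinearOrder α] [Fintype α] {G : SimpleGraph α} {W κ : Finset α}
    (h : HS k G d W) (hκ : κ ∈ cl G W) {e : ℕ} (he : e + κ.card = d) : HS k G e (lkF G W κ) := by
  constructor
  · intro σ hσ j hj
    rw [lkF_lkF]
    refine h.ex _ (union_mem_cl hκ hσ) j ?_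
    rw [card_union_of_disjoint (disjoint_of_mem_cl_lkF hσ)]
    omega
  · intro σ hσ
    obtain ⟨z, hz⟩ := h.top _ (union_mem_cl hκ hσ)
    rw [card_union_of_disjoint (disjoint_of_mem_cl_lkF hσ),
      show d - (κ.card + σ.card) = e - σ.card by omega] at hz
    rw [lkF_lkF]
    exact ⟨z, hz⟩

theorem hs_of {S : Finset (Finset (Fin n))} (h : IsFlagSphere k d S) :
    HS k (skel S) d (vert S) := by
  obtain ⟨r, hr⟩ := h
  exact Pool.Agent.W216.FS.HR.main Pool.Agent.W216.FS.BB.main k n d S r hr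

theorem orig_of {S : Finset (Finset (Fin n))} (hS : IsFlagSphere k (d + 1) S) {v : Fin n}
    (hv : v ∈ vert S) : Orig k (skel S) d (vert S) v := by
  refine ⟨sph_of hS, hv, fun κ hκ j => ?_⟩
  obtain ⟨h2, h3⟩ := insert_mem_cl' hv hκ
  have h4 : κ ∈ cl (skel S) (vert S) := cl_of_subset h2 (subset_insert _ _)
  obtain ⟨e, he, hNP, -, -⟩ := hS.np.lkF h4
  have hvm : v ∈ lkF (skel S) (vert S) κ := by
    rw [mem_lkF]
    exact ⟨hv, fun z hz => (mem_lk.1 ((mem_cl.1 hκ).1 hz)).2.symm⟩
  exact (hs_lkF (hs_of hS) h4 he).erase hNP hvm j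

theorem link_fin {S : Finset (Finset (Fin n))} (hS : IsFlagSphere k (d + 1) S) {v : Fin n}
    (hv : v ∈ vert S) : IsFlagSphere k d (cl (skel S) (lk (skel S) (vert S) v)) := by
  have hs := sph_of hS
  refine flagSphere_of _ _ (fun κ hκ => ?_) (hs.eul.lk_succ hv) (fun κ hκ j hj => ?_)
  · obtain ⟨h2, h3⟩ := insert_mem_cl' hv hκ
    have := hs.le _ h2
    rw [card_insert_of_notMem h3] at this
    omega
  · obtain ⟨h2, h3⟩ := insert_mem_cl' hv hκ
    rw [lkF_lk]
    exact hs.ex _ h2 j (by rw [card_insert_of_notMem h3]; omega)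

theorem double_fin (S : Finset (Finset (Fin n))) (hcl : cl (skel S) (vert S) = S) {v : Fin n}
    (hv : v ∈ vert S) :
    ∃ S' : Finset (Finset (Fin (2 * n))), cl (skel S') (vert S') = S' ∧
      (∀ (k : Type) [Field k] (d : ℕ), IsFlagSphere k (d + 1) S → IsFlagSphere k (d + 1) S') ∧
      numVert S' + 2 + (lk (skel S) (vert S) v).card = 2 * numVert S ∧ S'.card ≤ 2 * S.card ∧
      PS S' = 2 * PS S - y * FP (skel S) (lk (skel S) (vert S) v) := by
  set H := DG (skel S) (lk (skel S) (vert S) v) with hH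
  obtain ⟨A, B, hD⟩ : ∃ A B, Double (skel S) (vert S) v H A B (rhoD n) :=
    ⟨_, _, double_data (skel S) (vert S) v⟩
  refine ⟨cl H (A ∪ B), cl_cl _ _, ?_, ?_, ?_, ?_⟩
  · intro k _ d hS
    have hsph := hD.sph (orig_of hS hv)
    exact flagSphere_of _ _ hsph.le hsph.eul hsph.ex
  · rw [numVert_cl, numVert_eq]
    exact hD.card_eq hv
  · have h2 : ∀ (A : Finset (Fin (2 * n))), StrictMonoOn (rhoD n) A →
        (∀ a ∈ A, ∀ b ∈ A, H.Adj a b ↔ (skel S).Adj (rhoD n a) (rhoD n b)) →
        A.image (rhoD n) = (vert S).erase v → (cl H A).card ≤ S.card := by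
      intro A hm ha him
      have h3 := card_cl (H := H) A
      rw [fe_eval, ← Pool.Agent.TH709.GG.FP_image hm.injOn ha, him, ← fe_eval, ← card_cl] at h3
      have h4 : (cl H A).card = (cl (skel S) ((vert S).erase v)).card := by exact_mod_cast h3
      rw [h4]
      conv_rhs => rw [← hcl]
      exact card_le_card (cl_mono (erase_subset _ _))
    have hA := h2 _ hD.monoA hD.adjA hD.imA
    have hB := h2 _ hD.monoB hD.adjB hD.imB
    have h5 : cl H (A ∪ B) ⊆ cl H A ∪ cl H B := by
      intro σ hσ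
      rw [mem_union]
      rcases cl_cases hD.cross hσ with h | h
      · exact Or.inl (mem_cl_sub hσ h)
      · exact Or.inr (mem_cl_sub hσ h)
    have h6 := (card_le_card h5).trans (card_union_le _ _)
    omega
  · rw [PS_cl, hD.FP_eq hv, PS]

end Q116.GD
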