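import Pool.Agent.W497.FS.Acyc
import Pool.Agent.W216.FS.BB

/-!
# Mayer-Vietoris for clique complexes

`Ex k H X j`: the clique complex of `H` on `X` has no homology in degree `j - 1`.
-/

set_option autoImplicit false
set_option linter.unusedSectionVars false

namespace Q116.GD

open Pool.Agent.W497.FS Finset

variable {k : Type} [Field k] {α : Type} [LinearOrder α] [Fintype α] {H : SimpleGraph α}

theorem bd_bd (c : Finset α → k) : bd (bd c) = 0 := Pool.Agent.W216.FS.BB.main k α c

theorem bd_on {X : Finset α} {j : ℕ} {c : Finset α → k} (h : On H X (j + 1) c) :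
    On H X j (bd c) := by
  intro A hA
  rw [bd] at hA
  obtain ⟨v, hv, hne⟩ := Finset.exists_ne_zero_of_sum_ne_zero hA
  have h1 : c (insert v A) ≠ 0 := fun h' => hne (by rw [h', mul_zero])
  obtain ⟨h2, h3⟩ := h _ h1
  rw [card_insert_of_notMem (mem_compl.1 hv)] at h3
  exact ⟨cl_of_subset h2 (subset_insert _ _), by omega⟩

theorem on_neg {X : Finset α} {j : ℕ} {c : Finset α → k} (h : On H X j c) :
    On H X j (-c) := fun A hA => h A (fun h' => hA (by rw [Pi.neg_apply, h', neg_zero]))

theorem bd_neg (c : Finset α → k) : bd (-c) = -bd c := by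
  have h := bd_add c (-c)
  rw [add_neg_cancel, bd_zero] at h
  exact (neg_eq_of_add_eq_zero_right h.symm).symm

/-- **Mayer-Vietoris.** -/
theorem mv_step {A B : Finset α} (hAB : ∀ a ∈ A, ∀ b ∈ B, H.Adj a b → a ∈ B ∨ b ∈ A) (j : ℕ)
    (hA : Ex k H A j) (hB : Ex k H B j) (hC : ∀ i, i + 1 = j → Ex k H (A ∩ B) i) :
    Ex k H (A ∪ B) j := by
  classical
  intro c hc h0
  have hcl : ∀ S, S ∈ cl H (A ∪ B) → S ⊆ A ∨ S ⊆ B := by
    intro S hS
    rw [mem_cl] at hS
    by_contra hcon
    push Not at hcon
    obtain ⟨h1, h2⟩ := hcon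
    obtain ⟨x, hx, hxA⟩ := not_subset.1 h1
    obtain ⟨z, hz, hzB⟩ := not_subset.1 h2
    have hxB : x ∈ B := (mem_union.1 (hS.1 hx)).resolve_left hxA
    have hzA : z ∈ A := (mem_union.1 (hS.1 hz)).resolve_right hzB
    have hne : z ≠ x := fun h => hxA (h ▸ hzA)
    rcases hAB z hzA x hxB (hS.2 z hz x hx hne) with h | h
    · exact hzB h
    · exact hxA h
  have hsub : ∀ S, S ∈ cl H (A ∪ B) → ∀ X, S ⊆ X → S ∈ cl H X := by
    intro S hS X hX
    rw [mem_cl] at hS ⊢
    exact ⟨hX, hS.2⟩
  rcases Nat.eq_zero_or_pos j with rfl | hj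
  · have hcA : On H A 0 c := by
      intro S hS
      obtain ⟨h1, h2⟩ := hc S hS
      refine ⟨hsub S h1 A ?_, h2⟩
      rw [card_eq_zero.1 h2]
      exact empty_subset _
    obtain ⟨b, hb, hbc⟩ := hA c hcA h0
    exact ⟨b, hb.mono subset_union_left, hbc⟩
  · obtain ⟨i, rfl⟩ : ∃ i, j = i + 1 := ⟨j - 1, by omega⟩
    set cA : Finset α → k := fun S => if S ⊆ A then c S else 0 with hcA
    set cB : Finset α → k := fun S => if S ⊆ A then 0 else c S with hcB
    have hsum : cA + cB = c := by
      funext S
      simp only [Pi.add_apply, hcA, hcB]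
      split_ifs <;> simp
    have honA : On H A (i + 1) cA := by
      intro S hS
      simp only [hcA] at hS
      split_ifs at hS with h
      · exact ⟨hsub S (hc S hS).1 A h, (hc S hS).2⟩
      · exact absurd rfl hS
    have honB : On H B (i + 1) cB := by
      intro S hS
      simp only [hcB] at hS
      split_ifs at hS with h
      · exact absurd rfl hS
      · exact ⟨hsub S (hc S hS).1 B ((hcl S (hc S hS).1).resolve_left h), (hc S hS).2⟩
    have hbd : bd cA + bd cB = 0 := by rw [← bd_add, hsum, h0]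
    have hz : bd cA = -bd cB := eq_neg_of_add_eq_zero_left hbd
    have hzon : On H (A ∩ B) i (bd cA) := by
      intro S hS
      obtain ⟨h1, h2⟩ := bd_on honA S hS
      rw [hz] at hS
      obtain ⟨h3, -⟩ := on_neg (bd_on honB) S hS
      rw [mem_cl] at h1 h3 ⊢
      exact ⟨⟨subset_inter h1.1 h3.1, h1.2⟩, h2⟩
    obtain ⟨e, he, hbe⟩ := hC i rfl (bd cA) hzon (bd_bd cA)
    obtain ⟨bA, hbA, hbA'⟩ := hA (cA + -e) (honA.add (on_neg (he.mono inter_subset_left)))
      (by rw [bd_add, bd_neg, hbe, add_neg_cancel])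
    obtain ⟨bB, hbB, hbB'⟩ := hB (cB + e) (honB.add (he.mono inter_subset_right))
      (by rw [bd_add, hbe, add_comm, hbd])
    refine ⟨bA + bB, (hbA.mono subset_union_left).add (hbB.mono subset_union_right), ?_⟩
    rw [bd_add, hbA', hbB', ← hsum]
    abel

/-- Cones have no homology. -/
theorem cone {X : Finset α} {v : α} (hv : v ∈ X) (hX : ∀ x ∈ X, x ≠ v → H.Adj v x) (j : ℕ) :
    Ex k H X j := by
  classical
  intro c hc h0
  set b : Finset α → k := fun S => if v ∈ S then sg k v (S.erase v) * c (S.erase v) else 0 with hb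
  have hl : ∀ A, v ∉ A → lpart v b A = c A := by
    intro A hA
    rw [lpart, if_neg hA]
    simp only [hb]
    rw [if_pos (mem_insert_self v A), erase_insert hA, ← mul_assoc, sg_mul_self, one_mul]
  have hd : dpart v b = 0 := by
    funext A
    rw [dpart]
    split_ifs with h
    · rfl
    · simp only [hb]
      rw [if_neg h]
      rfl
  have hlb : lpart v b = dpart v c := by
    funext A
    by_cases hA : v ∈ A
    · rw [lpart, dpart, if_pos hA, if_pos hA]
    · rw [hl A hA, dpart, if_neg hA]
  refine ⟨b, ?_, ?_⟩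
  · intro S hS
    simp only [hb] at hS
    split_ifs at hS with h
    · have h1 : c (S.erase v) ≠ 0 := fun h' => hS (by rw [h', mul_zero])
      obtain ⟨h2, h3⟩ := hc _ h1
      rw [card_erase_of_mem h] at h3
      have h4 : 0 < S.card := card_pos.2 ⟨v, h⟩
      refine ⟨?_, by omega⟩
      rw [mem_cl] at h2 ⊢
      refine ⟨fun x hx => ?_, fun x hx z hz hxz => ?_⟩
      · by_cases hxv : x = v
        · rw [hxv]; exact hv
        · exact h2.1 (mem_erase.2 ⟨hxv, hx⟩)
      · by_cases hxv : x = v
        · subst hxv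
          exact hX z (h2.1 (mem_erase.2 ⟨hxz.symm, hz⟩)) hxz.symm
        · by_cases hzv : z = v
          · subst hzv
            exact (hX x (h2.1 (mem_erase.2 ⟨hxv, hx⟩)) hxv).symm
          · exact h2.2 x (mem_erase.2 ⟨hxv, hx⟩) z (mem_erase.2 ⟨hzv, hz⟩) hxz
    · exact absurd rfl hS
  · funext A
    by_cases hA : v ∈ A
    · set A' := A.erase v with hA'
      have hA'' : insert v A' = A := insert_erase hA
      have hvA' : v ∉ A' := notMem_erase v A
      have h1 := bd_lpart (c := b) hvA'
      rw [hlb, hA''] at h1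
      have h2 := bd_split (c := c) hvA'
      rw [h0, Pi.zero_apply, lpart, if_neg hvA', hA''] at h2
      have h3 : bd (dpart v c) A' = -(sg k v A' * c A) := by linear_combination -h2
      rw [h3] at h1
      have h4 : sg k v A' * bd b A = sg k v A' * c A := by linear_combination h1
      exact mul_left_cancel₀ (sg_ne_zero _ _) h4
    · rw [bd_split hA, hd, bd_zero, hl A hA]
      simp

/-- Adding a vertex whose link has no homology. -/
theorem ex_insert {X : Finset α} {u : α} (hu : u ∉ X) (hX : ∀ j, Ex k H X j)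
    (hL : ∀ j, Ex k H (lk H X u) j) (j : ℕ) : Ex k H (insert u X) j := by
  classical
  have e : insert u X = X ∪ insert u (lk H X u) := by
    ext x
    simp only [mem_insert, mem_union, mem_lk]
    tauto
  have e2 : X ∩ insert u (lk H X u) = lk H X u := by
    ext x
    simp only [mem_inter, mem_insert, mem_lk]
    constructor
    · rintro ⟨h1, h2 | h2⟩
      · exact absurd (h2 ▸ h1) hu
      · exact h2
    · exact fun h => ⟨h.1, Or.inr h⟩
  rw [e]
  refine mv_step ?_ j (hX j) (cone (mem_insert_self u _) ?_ j) ?_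
  · intro a ha b hb hab
    rw [mem_insert] at hb
    rcases hb with rfl | hb
    · left
      rw [mem_insert, mem_lk]
      exact Or.inr ⟨ha, hab.symm⟩
    · right
      exact lk_subset hb
  · intro x hx hxu
    rw [mem_insert] at hx
    exact (mem_lk.1 (hx.resolve_left hxu)).2
  · intro i _
    rw [e2]
    exact hL i

end Q116.GD
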