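import Pool.Agent.Q116.GD.Cyc
import Pool.Agent.Q116.GD.Conv
import Pool.Agent.W497.FS.Final
import Pool.Agent.TH709.GG.Ops

/-!
# Flag homology spheres: transport and joins with cycles
-/

set_option autoImplicit false
set_option linter.unusedSectionVars false

namespace Q116.GD

open Pool.Agent.W497.FS Finset Polynomial

variable {k : Type} [Field k] {α β : Type} [LinearOrder α] [Fintype α] [LinearOrder β] [Fintype β]
  {H : SimpleGraph α} {H' : SimpleGraph β}

/-- the clique complex of `H` on `W` is a homology sphere of rank `d` -/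
structure Sph (k : Type) [Field k] {α : Type} [LinearOrder α] [Fintype α] (H : SimpleGraph α)
    (d : ℕ) (W : Finset α) : Prop where
  le : ∀ κ ∈ cl H W, κ.card ≤ d
  eul : Eul H d W
  ex : ∀ κ ∈ cl H W, ∀ j, j + κ.card < d → Ex k H (lkF H W κ) j

theorem sph_of {n d : ℕ} {S : Finset (Finset (Fin n))} (h : IsFlagSphere k d S) :
    Sph k (skel S) d (vert S) := by
  refine ⟨?_, h.eul, ?_⟩
  · rw [h.cl_eq]
    exact h.card_le
  · obtain ⟨r, hr⟩ := h
    exact (Pool.Agent.W216.FS.HR.main Pool.Agent.W216.FS.BB.main k n d S r hr).ex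

theorem fe_eval {α : Type} [LinearOrder α] {H : SimpleGraph α} (W : Finset α) (x : ℤ) :
    fe H W x = (FP H W).eval x := by
  rw [fe, FP, eval_finsetSum]
  refine sum_congr rfl fun σ _ => ?_
  simp

theorem Sph.trans {ρ : β → α} {D : Finset β} {d : ℕ} (hρ : StrictMonoOn ρ D)
    (hadj : ∀ a ∈ D, ∀ b ∈ D, H'.Adj a b ↔ H.Adj (ρ a) (ρ b)) (h : Sph k H d (D.image ρ)) :
    Sph k H' d D := by
  have hcard : ∀ κ : Finset β, κ ⊆ D → (κ.image ρ).card = κ.card := fun κ hκ =>
    card_image_of_injOn (fun a ha b hb h' => hρ.injOn (hκ ha) (hκ hb) h')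
  refine ⟨fun κ hκ => ?_, ?_, fun κ hκ j hj => ?_⟩
  · rw [← hcard κ (mem_cl.1 hκ).1]
    exact h.le _ (image_mem_cl hadj hκ)
  · rw [eul_iff]
    intro κ hκ
    have h1 := (eul_iff.1 h.eul) _ (image_mem_cl hadj hκ)
    rw [hcard κ (mem_cl.1 hκ).1, ← lkF_image hadj (mem_cl.1 hκ).1] at h1
    have hsub : lkF H' D κ ⊆ D := fun x hx => (mem_lkF.1 hx).1
    rw [← h1, fe_eval, fe_eval, Pool.Agent.TH709.GG.FP_image
      (fun a ha b hb h' => hρ.injOn (hsub ha) (hsub hb) h')
      (fun a ha b hb => hadj a (hsub ha) b (hsub hb))]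
  · refine ex_lkF hρ hadj (mem_cl.1 hκ).1 j (h.ex _ (image_mem_cl hadj hκ) j ?_)
    rw [hcard κ (mem_cl.1 hκ).1]
    exact hj

section cyc

variable {N : ℕ} [NeZero N] {q : ZMod N → α}

theorem ne_small (hN : 4 ≤ N) : (1 : ZMod N) ≠ 0 ∧ (2 : ZMod N) ≠ 0 ∧ (3 : ZMod N) ≠ 0 := by
  refine ⟨?_, ?_, ?_⟩
  · have := zmod_ne hN (m := 1) (by omega) (by omega)
    simpa using this
  · have := zmod_ne hN (m := 2) (by omega) (by omega)
    simpa using this
  · have := zmod_ne hN (m := 3) (by omega) (by omega)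
    simpa using this

/-- no triangles in the cycle -/
theorem no_tri (hN : 4 ≤ N) (hq : Cycle H N q) {i j l : ZMod N} (h1 : H.Adj (q i) (q j))
    (h2 : H.Adj (q i) (q l)) (h3 : H.Adj (q j) (q l)) : False := by
  obtain ⟨n1, n2, n3⟩ := ne_small hN
  rw [hq.adj] at h1 h2 h3
  rcases h1 with h1 | h1 <;> rcases h2 with h2 | h2 <;> rcases h3 with h3 | h3
  · apply n1; rw [h1, h2] at h3; linear_combination -h3
  · apply n1; rw [h1, h2] at h3; linear_combination -h3
  · apply n3; rw [h1] at h3; linear_combination -h2 - h3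
  · apply n1; rw [h1] at h3; linear_combination h3 - h2
  · apply n1; rw [h2] at h3; linear_combination -h1 + h3
  · apply n3; rw [h2] at h3; linear_combination -h1 - h3
  · apply n1; linear_combination h1 - h2 - h3
  · apply n1; linear_combination h2 - h1 - h3

theorem mem_B {x : α} : x ∈ univ.image q ↔ ∃ i, q i = x := by simp

theorem cl_cycle (hN : 4 ≤ N) (hq : Cycle H N q) (σ : Finset α) (hσ : σ ∈ cl H (univ.image q)) :
    σ = ∅ ∨ (∃ i, σ = {q i}) ∨ ∃ i, σ = {q i, q (i + 1)} := by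
  rw [mem_cl] at hσ
  obtain ⟨h1, h2⟩ := hσ
  by_cases h0 : σ = ∅
  · exact Or.inl h0
  right
  obtain ⟨x, hx⟩ := nonempty_iff_ne_empty.2 h0
  obtain ⟨i, rfl⟩ := mem_B.1 (h1 hx)
  by_cases h3 : σ = {q i}
  · exact Or.inl ⟨i, h3⟩
  right
  have h4 : ∃ y ∈ σ, y ≠ q i := by
    by_contra hcon
    push Not at hcon
    apply h3
    ext y
    rw [mem_singleton]
    exact ⟨hcon y, fun h => h ▸ hx⟩
  obtain ⟨y, hy, hne⟩ := h4
  obtain ⟨j, rfl⟩ := mem_B.1 (h1 hy)
  have hij := h2 _ hx _ hy hne.symm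
  have h5 : σ = {q i, q j} := by
    ext z
    rw [mem_insert, mem_singleton]
    constructor
    · intro hz
      by_contra hcon
      push Not at hcon
      obtain ⟨l, rfl⟩ := mem_B.1 (h1 hz)
      exact no_tri hN hq hij (h2 _ hx _ hz hcon.1.symm) (h2 _ hy _ hz hcon.2.symm)
    · rintro (h | h)
      · exact h ▸ hx
      · exact h ▸ hy
  rw [hq.adj] at hij
  rcases hij with h | h
  · exact ⟨i, by rw [h5, h]⟩
  · exact ⟨j, by rw [h5, h, pair_comm]⟩

theorem adj_succ (hq : Cycle H N q) (i : ZMod N) : H.Adj (q i) (q (i + 1)) := by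
  rw [hq.adj]; exact Or.inl rfl

theorem pair_mem (hq : Cycle H N q) (i : ZMod N) : {q i, q (i + 1)} ∈ cl H (univ.image q) := by
  rw [mem_cl]
  refine ⟨?_, ?_⟩
  · intro x hx
    rw [mem_insert, mem_singleton] at hx
    rw [mem_B]
    rcases hx with rfl | rfl
    · exact ⟨i, rfl⟩
    · exact ⟨i + 1, rfl⟩
  · intro x hx z hz hxz
    rw [mem_insert, mem_singleton] at hx hz
    rcases hx with rfl | rfl <;> rcases hz with rfl | rfl
    · exact absurd rfl hxz
    · exact adj_succ hq i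
    · exact (adj_succ hq i).symm
    · exact absurd rfl hxz

/-- the face polynomial of a cycle -/
theorem FP_cycle (hN : 4 ≤ N) (hq : Cycle H N q) :
    FP H (univ.image q) = 1 + C (N : ℤ) * X + C (N : ℤ) * X ^ 2 := by
  classical
  obtain ⟨n1, n2, n3⟩ := ne_small hN
  have hcl : cl H (univ.image q) = insert ∅ (univ.image (fun i => ({q i} : Finset α)) ∪
      univ.image (fun i => ({q i, q (i + 1)} : Finset α))) := by
    ext σ
    rw [mem_insert, mem_union, mem_image, mem_image]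
    constructor
    · intro h
      rcases cl_cycle hN hq σ h with h | ⟨i, h⟩ | ⟨i, h⟩
      · exact Or.inl h
      · exact Or.inr (Or.inl ⟨i, mem_univ _, h.symm⟩)
      · exact Or.inr (Or.inr ⟨i, mem_univ _, h.symm⟩)
    · rintro (rfl | ⟨i, -, rfl⟩ | ⟨i, -, rfl⟩)
      · exact empty_mem_cl
      · exact singleton_mem_cl (mem_image_of_mem q (mem_univ i))
      · exact pair_mem hq i
  have hne : ∀ i, q i ≠ q (i + 1) := fun i h => (adj_succ hq i).ne h
  have hcard2 : ∀ i, ({q i, q (i + 1)} : Finset α).card = 2 := fun i => card_pair (hne i)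
  rw [FP, hcl, sum_insert, sum_union, sum_image, sum_image, card_empty, pow_zero]
  · simp only [card_singleton, hcard2, pow_one, sum_const, card_univ, ZMod.card, nsmul_eq_mul]
    rw [← add_assoc]
    simp
  · intro i _ j _ h
    simp only at h
    have h1 : q i ∈ ({q j, q (j + 1)} : Finset α) := by rw [← h]; exact mem_insert_self _ _
    have h2 : q (i + 1) ∈ ({q j, q (j + 1)} : Finset α) := by
      rw [← h]; exact mem_insert_of_mem (mem_singleton_self _)
    rw [mem_insert, mem_singleton] at h1 h2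
    rcases h1 with h1 | h1
    · exact hq.inj h1
    · exfalso
      have e1 := hq.inj h1
      rcases h2 with h2 | h2
      · have e2 := hq.inj h2
        apply n2
        rw [e1] at e2
        linear_combination e2
      · have e2 := hq.inj h2
        apply n1
        rw [e1] at e2
        linear_combination e2
  · intro i _ j _ h
    exact hq.inj (singleton_injective h)
  · rw [disjoint_left]
    intro σ h1 h2
    obtain ⟨i, -, hi⟩ := mem_image.1 h1
    obtain ⟨j, -, hj⟩ := mem_image.1 h2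
    have := hcard2 j
    rw [hj, ← hi, card_singleton] at this
    omega
  · rw [mem_union, mem_image, mem_image]
    rintro (⟨i, -, h⟩ | ⟨i, -, h⟩)
    · exact singleton_ne_empty _ h
    · exact (insert_ne_empty _ _) h

theorem lkF_single (hq : Cycle H N q) (i : ZMod N) :
    lkF H (univ.image q) {q i} = {q (i - 1), q (i + 1)} := by
  ext x
  rw [mem_lkF, mem_B, mem_insert, mem_singleton]
  constructor
  · rintro ⟨⟨j, rfl⟩, h⟩
    have h1 := h (q i) (mem_singleton_self _)
    rw [hq.adj] at h1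
    rcases h1 with h1 | h1
    · right; rw [h1]
    · left; rw [h1, add_sub_cancel_right]
  · rintro (rfl | rfl)
    · refine ⟨⟨_, rfl⟩, fun z hz => ?_⟩
      rw [mem_singleton] at hz
      rw [hz, hq.adj]
      right; ring
    · refine ⟨⟨_, rfl⟩, fun z hz => ?_⟩
      rw [mem_singleton] at hz
      rw [hz, hq.adj]
      left; rfl

theorem lkF_pair (hN : 4 ≤ N) (hq : Cycle H N q) (i : ZMod N) :
    lkF H (univ.image q) {q i, q (i + 1)} = ∅ := by
  rw [eq_empty_iff_forall_notMem]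
  intro x hx
  obtain ⟨h1, h2⟩ := mem_lkF.1 hx
  obtain ⟨j, rfl⟩ := mem_B.1 h1
  exact no_tri hN hq (adj_succ hq i) (h2 _ (mem_insert_self _ _))
    (h2 _ (mem_insert_of_mem (mem_singleton_self _)))

theorem nonadj_pm (hN : 4 ≤ N) (hq : Cycle H N q) (i : ZMod N) :
    q (i - 1) ≠ q (i + 1) ∧ ¬ H.Adj (q (i - 1)) (q (i + 1)) := by
  obtain ⟨n1, n2, n3⟩ := ne_small hN
  constructor
  · intro h
    apply n2
    linear_combination -(hq.inj h)
  · rw [hq.adj]
    rintro (h | h)
    · apply n1; linear_combination h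
    · apply n3; linear_combination -h

theorem fe_pair {a b : α} (hab : a ≠ b) (h : ¬ H.Adj a b) : fe H {a, b} (-1 : ℤ) = -1 := by
  have e : ({a, b} : Finset α) = {a} ∪ {b} := by
    ext x; simp
  have h1 := Pool.Agent.TH709.GG.FP_union (H := H) (A := {a}) (B := {b}) (by
    intro x hx z hz hxz
    rw [mem_singleton] at hx hz
    rw [hx, hz] at hxz
    exact absurd hxz h)
  have h2 : ({a} : Finset α) ∩ {b} = ∅ := by
    rw [eq_empty_iff_forall_notMem]
    intro x hx
    rw [mem_inter, mem_singleton, mem_singleton] at hx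
    exact hab (hx.1.symm.trans hx.2)
  rw [h2] at h1
  have h3 := congrArg (Polynomial.eval (-1 : ℤ)) h1
  rw [eval_sub, eval_add, ← fe_eval, ← fe_eval, ← fe_eval, ← fe_eval, fe_singleton, fe_singleton,
    fe_empty] at h3
  rw [e, h3]
  norm_num

/-- **Joins with cycles.** -/
theorem Sph.join (hN : 4 ≤ N) (hq : Cycle H N q) {A : Finset α} {d : ℕ} (h : Sph k H d A)
    (hAB : Full H A (univ.image q)) : Sph k H (d + 2) (A ∪ univ.image q) := by
  set B := univ.image q with hB
  have hle2 : ∀ κ ∈ cl H B, κ.card ≤ 2 := by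
    intro κ hκ
    rcases cl_cycle hN hq κ hκ with h | ⟨i, h⟩ | ⟨i, h⟩
    · rw [h, card_empty]; omega
    · rw [h, card_singleton]; omega
    · rw [h]; exact card_le_two
  have hsplit : ∀ κ ∈ cl H (A ∪ B), lkF H (A ∪ B) κ = lkF H A (κ ∩ A) ∪ lkF H B (κ ∩ B) :=
    fun κ hκ => Pool.Agent.TH709.GG.lkF_join hAB (mem_cl.1 hκ).1
  have hcard : ∀ κ ∈ cl H (A ∪ B), (κ ∩ A).card + (κ ∩ B).card = κ.card :=
    fun κ hκ => Pool.Agent.TH709.GG.card_join hAB (mem_cl.1 hκ).1
  have hA : ∀ κ ∈ cl H (A ∪ B), κ ∩ A ∈ cl H A := fun κ hκ => Pool.Agent.TH709.GG.inter_mem_cl hκ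
  have hBm : ∀ κ ∈ cl H (A ∪ B), κ ∩ B ∈ cl H B := fun κ hκ => Pool.Agent.TH709.GG.inter_mem_cl hκ
  have hfull : ∀ κ, Full H (lkF H A (κ ∩ A)) (lkF H B (κ ∩ B)) := fun κ a ha b hb =>
    hAB a (mem_lkF.1 ha).1 b (mem_lkF.1 hb).1
  refine ⟨fun κ hκ => ?_, ?_, fun κ hκ j hj => ?_⟩
  · have h1 := h.le _ (hA κ hκ)
    have h2 := hle2 _ (hBm κ hκ)
    have h3 := hcard κ hκ
    omega
  · rw [eul_iff]
    intro κ hκ
    rw [hsplit κ hκ, fe_join (hfull κ), (eul_iff.1 h.eul) _ (hA κ hκ)]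
    have hb : fe H (lkF H B (κ ∩ B)) (-1 : ℤ) = (-1) ^ (κ ∩ B).card := by
      rcases cl_cycle hN hq _ (hBm κ hκ) with h1 | ⟨i, h1⟩ | ⟨i, h1⟩
      · rw [h1, card_empty, pow_zero]
        have e : lkF H B ∅ = B := by ext x; rw [mem_lkF]; simp
        rw [e, fe_eval, hB, FP_cycle hN hq]
        simp
      · rw [h1, card_singleton, pow_one, hB, lkF_single hq i]
        exact fe_pair (nonadj_pm hN hq i).1 (nonadj_pm hN hq i).2
      · rw [h1, hB, lkF_pair hN hq i, fe_empty, card_pair (adj_succ hq i).ne]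
        norm_num
    rw [hb, ← pow_add, ← hcard κ hκ]
    have e : (-1 : ℤ) ^ (d + 2 + ((κ ∩ A).card + (κ ∩ B).card)) =
        (-1) ^ (d + (κ ∩ A).card + (κ ∩ B).card) * (-1) ^ 2 := by
      rw [← pow_add]
      congr 1
      ring
    rw [e]
    norm_num
  · rw [hsplit κ hκ]
    set L := lkF H A (κ ∩ A) with hL
    have hLB : ∀ i, ∀ x ∈ L, H.Adj (q i) x := fun i x hx =>
      (hAB x (mem_lkF.1 hx).1 (q i) (mem_image_of_mem q (mem_univ i))).symm
    have h3 := hcard κ hκ
    have hLe : ∀ j, j < d - (κ ∩ A).card → Ex k H L j := fun j hj =>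
      h.ex _ (hA κ hκ) j (by omega)
    have hleA := h.le _ (hA κ hκ)
    rcases cl_cycle hN hq _ (hBm κ hκ) with h1 | ⟨i, h1⟩ | ⟨i, h1⟩
    · rw [h1]
      have e : lkF H B ∅ = B := by ext x; rw [mem_lkF]; simp
      rw [e, hB]
      rw [h1, card_empty] at h3
      exact cycle_ex hN hq hLB hLe j (by omega)
    · rw [h1, hB, lkF_single hq i]
      rw [h1, card_singleton] at h3
      exact susp (nonadj_pm hN hq i).1 (nonadj_pm hN hq i).2 (hLB _) (hLB _) hLe j (by omega)
    · rw [h1, hB, lkF_pair hN hq i, union_empty]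
      rw [h1, card_pair (adj_succ hq i).ne] at h3
      exact hLe j (by omega)

end cyc

end Q116.GD
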