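import Pool.Agent.Q116.GD.Amp

/-!
# The strong form: two vertices which are not joined by an edge
-/

set_option autoImplicit false
set_option linter.unusedSectionVars false

namespace Q116.GD

open Pool.Agent.W497.FS Finset Polynomial

/-! ### Doubles contain two copies of the links of the vertices off the star -/

section copies

variable {α β : Type} [LinearOrder α] [Fintype α] [LinearOrder β] [Fintype β]
  {G : SimpleGraph α} {H' : SimpleGraph β}

variable {W : Finset α} {v : α} {A B : Finset β} {ρ : β → α}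

theorem Double.copyA (h : Double G W v H' A B ρ) {u : α} (hu : u ∈ W) (huv : u ≠ v)
    (hadj : ¬ G.Adj v u) :
    ∃ x ∈ A, x ∉ B ∧ ρ x = u ∧ FP H' (lk H' (A ∪ B) x) = FP G (lk G W u) := by
  have h1 : u ∈ A.image ρ := by
    rw [h.imA, mem_erase]
    exact ⟨huv, hu⟩
  obtain ⟨x, hx, rfl⟩ := mem_image.1 h1
  have hxB : x ∉ B := by
    intro hxB
    have := (h.inter x (mem_union_left _ hx)).2 (mem_inter.2 ⟨hx, hxB⟩)
    exact hadj (mem_lk.1 this).2
  refine ⟨x, hx, hxB, rfl, ?_⟩
  have e1 : lk H' (A ∪ B) x = lk H' A x := by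
    ext z
    rw [mem_lk, mem_lk, mem_union]
    constructor
    · rintro ⟨h2 | h2, h3⟩
      · exact ⟨h2, h3⟩
      · exact ⟨(h.cross x hx z h2 h3).resolve_left hxB, h3⟩
    · exact fun h2 => ⟨Or.inl h2.1, h2.2⟩
  have e2 : (lk H' A x).image ρ = lk G W (ρ x) := by
    ext z
    rw [mem_image]
    constructor
    · rintro ⟨t, ht, rfl⟩
      obtain ⟨h2, h3⟩ := mem_lk.1 ht
      refine mem_lk.2 ⟨?_, (h.adjA x hx t h2).1 h3⟩
      have h4 : ρ t ∈ A.image ρ := mem_image_of_mem ρ h2
      rw [h.imA] at h4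
      exact (mem_erase.1 h4).2
    · intro hz
      obtain ⟨h2, h3⟩ := mem_lk.1 hz
      have h4 : z ∈ A.image ρ := by
        rw [h.imA, mem_erase]
        refine ⟨?_, h2⟩
        rintro rfl
        exact hadj h3.symm
      obtain ⟨t, ht, rfl⟩ := mem_image.1 h4
      exact ⟨t, mem_lk.2 ⟨ht, (h.adjA x hx t ht).2 h3⟩, rfl⟩
  have hsub : ∀ t ∈ lk H' A x, t ∈ A := fun t ht => (mem_lk.1 ht).1
  rw [e1, ← e2]
  exact (Pool.Agent.TH709.GG.FP_image
    (fun a ha b hb h' => h.monoA.injOn (hsub a ha) (hsub b hb) h')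
    (fun a ha b hb => h.adjA a (hsub a ha) b (hsub b hb))).symm

theorem Double.copies (h : Double G W v H' A B ρ) {u : α} (hu : u ∈ W) (huv : u ≠ v)
    (hadj : ¬ G.Adj v u) :
    ∃ x ∈ A ∪ B, ∃ z ∈ A ∪ B, x ≠ z ∧ ¬ H'.Adj x z ∧
      FP H' (lk H' (A ∪ B) x) = FP G (lk G W u) ∧
      FP H' (lk H' (A ∪ B) z) = FP G (lk G W u) := by
  obtain ⟨x, hx, hxB, -, h1⟩ := h.copyA hu huv hadj
  obtain ⟨z, hz, hzA, -, h2⟩ := h.swap.copyA hu huv hadj
  rw [union_comm] at h2
  refine ⟨x, mem_union_left _ hx, z, mem_union_right _ hz, ?_, ?_, h1, h2⟩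
  · rintro rfl
    exact hzA hx
  · intro h3
    rcases h.cross x hx z hz h3 with h4 | h4
    · exact hxB h4
    · exact hzA h4

end copies

variable {n d : ℕ}

theorem FP_lk_cl (H : SimpleGraph (Fin n)) (W : Finset (Fin n)) {x : Fin n} (hx : x ∈ W) :
    FP (skel (cl H W)) (lk (skel (cl H W)) (vert (cl H W)) x) = FP H (lk H W x) := by
  have e : lk (skel (cl H W)) (vert (cl H W)) x = lk H W x := by
    rw [vert_cl]
    ext z
    rw [mem_lk, mem_lk]
    constructor
    · rintro ⟨h1, h2⟩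
      exact ⟨h1, (skel_adj hx h1).1 h2⟩
    · rintro ⟨h1, h2⟩
      exact ⟨h1, (skel_adj hx h1).2 h2⟩
  rw [e]
  have h1 := Pool.Agent.TH709.GG.FP_image (H := H) (H' := skel (cl H W)) (f := id)
    (W := lk H W x) (fun a _ b _ h => h) (fun a ha b hb => by
      rw [id, id]
      exact (skel_adj (lk_subset ha) (lk_subset hb)).symm)
  rwa [image_id] at h1

/-- doubling, with the copies of the links of the other vertices -/
theorem double_fin' (S : Finset (Finset (Fin n))) (hcl : cl (skel S) (vert S) = S) {v : Fin n}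
    (hv : v ∈ vert S) :
    ∃ S' : Finset (Finset (Fin (2 * n))), cl (skel S') (vert S') = S' ∧
      (∀ (k : Type) [Field k] (d : ℕ), IsFlagSphere k (d + 1) S → IsFlagSphere k (d + 1) S') ∧
      PS S' = 2 * PS S - y * FP (skel S) (lk (skel S) (vert S) v) ∧ S'.card ≤ 2 * S.card ∧
      ∀ u ∈ vert S, u ≠ v → ¬ (skel S).Adj v u →
        ∃ x ∈ vert S', ∃ z ∈ vert S', x ≠ z ∧ ¬ (skel S').Adj x z ∧
          FP (skel S') (lk (skel S') (vert S') x) = FP (skel S) (lk (skel S) (vert S) u) ∧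
          FP (skel S') (lk (skel S') (vert S') z) = FP (skel S) (lk (skel S) (vert S) u) := by
  set H := DG (skel S) (lk (skel S) (vert S) v) with hH
  obtain ⟨A, B, hD⟩ : ∃ A B, Double (skel S) (vert S) v H A B (rhoD n) :=
    ⟨_, _, double_data (skel S) (vert S) v⟩
  refine ⟨cl H (A ∪ B), cl_cl _ _, ?_, ?_, ?_, ?_⟩
  · intro k _ d hS
    have hsph := hD.sph (orig_of hS hv)
    exact flagSphere_of _ _ hsph.le hsph.eul hsph.ex
  · rw [PS_cl, hD.FP_eq hv, PS]
  · have h2 : ∀ (A : Finset (Fin (2 * n))), StrictMonoOn (rhoD n) A →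
        (∀ a ∈ A, ∀ b ∈ A, H.Adj a b ↔ (skel S).Adj (rhoD n a) (rhoD n b)) →
        A.image (rhoD n) = (vert S).erase v → (cl H A).card ≤ S.card := by
      intro A hm ha him
      have h3 := card_cl (H := H) A
      rw [fe_eval, ← Pool.Agent.TH709.GG.FP_image hm.injOn ha, him, ← fe_eval, ← card_cl] at h3
      have h4 : (cl H A).card = (cl (skel S) ((vert S).erase v)).card := by exact_mod_cast h3
      rw [h4]
      conv_rhs => rw [← hcl]
      exact card_le_card (cl_mono (erase_subset _ _))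
    have hA := h2 _ hD.monoA hD.adjA hD.imA
    have hB := h2 _ hD.monoB hD.adjB hD.imB
    have h5 : cl H (A ∪ B) ⊆ cl H A ∪ cl H B := by
      intro σ hσ
      rw [mem_union]
      rcases cl_cases hD.cross hσ with h | h
      · exact Or.inl (mem_cl_sub hσ h)
      · exact Or.inr (mem_cl_sub hσ h)
    have h6 := (card_le_card h5).trans (card_union_le _ _)
    omega
  · intro u hu huv hadj
    obtain ⟨x, hx, z, hz, hxz, h1, h2, h3⟩ := hD.copies hu huv hadj
    refine ⟨x, by rw [vert_cl]; exact hx, z, by rw [vert_cl]; exact hz, hxz, ?_, ?_, ?_⟩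
    · exact fun h => h1 ((skel_adj hx hz).1 h)
    · rw [FP_lk_cl _ _ hx, h2]
    · rw [FP_lk_cl _ _ hz, h3]

variable {ι : Type*} {F : ι → Type} [∀ j, Field (F j)] [Nonempty ι]

/-- **Iterated doubling.**  Spheres made of `2 ^ (m + 1)` copies of `S`, glued along the links of two
vertices `u`, `v` which are not joined by an edge. -/
theorem chain (m : ℕ) :
    ∀ (n : ℕ) (S : Finset (Finset (Fin n))) (a b c : ℕ → ℤ) (u v : Fin n), Fam F (d + 1) S →
      u ∈ vert S → v ∈ vert S → u ≠ v → ¬ (skel S).Adj u v → Exp (d + 1) (PS S) a →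
      Exp d (FP (skel S) (lk (skel S) (vert S) u)) b →
      Exp d (FP (skel S) (lk (skel S) (vert S) v)) c →
      ∃ (n' : ℕ) (S' : Finset (Finset (Fin n'))) (a' : ℕ → ℤ), Fam F (d + 1) S' ∧
        Exp (d + 1) (PS S') a' ∧ S'.card ≤ 2 ^ (m + 1) * S.card ∧
        ∀ i, a' i = 2 ^ (m + 1) * a i - 2 ^ m * b i - (2 ^ m - 1) * c i := by
  obtain ⟨t₀⟩ := ‹Nonempty ι›
  induction m with
  | zero =>
    intro n S a b c u v hS hu hv huv hadj ha hb hc
    obtain ⟨S', -, g1, g2, g3, -⟩ := double_fin' S (hS t₀).cl_eq hu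
    refine ⟨_, S', (fun i => 2 * a i - b i), fun t => g1 (F t) d (hS t), ?_, by simpa using g3,
      fun i => by simp⟩
    rw [g2]
    exact exp_double ha hb
  | succ m ih =>
    intro n S a b c u v hS hu hv huv hadj ha hb hc
    obtain ⟨S', -, g1, g2, g3, g4⟩ := double_fin' S (hS t₀).cl_eq hu
    obtain ⟨x, hx, z, hz, hxz, h1, h2, h3⟩ := g4 v hv huv.symm hadj
    obtain ⟨n', S'', a', k1, k2, k3, k4⟩ := ih _ S' (fun i => 2 * a i - b i) c c x z
      (fun t => g1 (F t) d (hS t)) hx hz hxz h1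
      (by rw [g2]; exact exp_double ha hb) (by rw [h2]; exact hc) (by rw [h3]; exact hc)
    refine ⟨n', S'', a', k1, k2, ?_, fun i => ?_⟩
    · calc S''.card ≤ 2 ^ (m + 1) * S'.card := k3
        _ ≤ 2 ^ (m + 1) * (2 * S.card) := Nat.mul_le_mul_left _ g3
        _ = 2 ^ (m + 1 + 1) * S.card := by ring
    · rw [k4 i]
      ring

/-! ### Bounds for gamma-numbers -/

theorem coeff_gen (i j e : ℕ) : (w ^ i * y ^ e).coeff j =
    if j < i then 0 else ((1 + X) ^ i * y ^ e).coeff (j - i) := by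
  have h : w ^ i * y ^ e = X ^ i * ((1 + X) ^ i * y ^ e) := by
    rw [w, mul_pow]
    ring
  rw [h, coeff_X_pow_mul']
  split_ifs with h1 h2 h2 <;> first | rfl | omega

theorem coeff_self (i e : ℕ) : (w ^ i * y ^ e).coeff i = 1 := by
  rw [coeff_gen, if_neg (lt_irrefl i), Nat.sub_self, coeff_zero_eq_eval_zero]
  simp [y]

/-- the gamma-numbers are bounded by the coefficients -/
theorem coef_bound (d j : ℕ) : ∃ K : ℤ, 0 ≤ K ∧ ∀ (p : ℤ[X]) (a : ℕ → ℤ) (B : ℤ), 0 ≤ B →
    Exp d p a → (∀ i, |p.coeff i| ≤ B) → |a j| ≤ K * B := by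
  induction j using Nat.strong_induction_on with
  | _ j ih =>
    by_cases hj : d < 2 * j
    · refine ⟨0, le_rfl, fun p a B hB ha _ => ?_⟩
      rw [ha.1 j hj]
      simp
    · choose! K hK0 hK using ih
      refine ⟨1 + ∑ i ∈ range j, K i * |(w ^ i * y ^ (d - 2 * i)).coeff j|, ?_, ?_⟩
      · have : 0 ≤ ∑ i ∈ range j, K i * |(w ^ i * y ^ (d - 2 * i)).coeff j| :=
          sum_nonneg fun i hi => mul_nonneg (hK0 i (mem_range.1 hi)) (abs_nonneg _)
        linarith
      · intro p a B hB ha hp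
        have h1 : p.coeff j = a j + ∑ i ∈ range j, a i * (w ^ i * y ^ (d - 2 * i)).coeff j := by
          have h2 : p.coeff j = ∑ i ∈ range (d / 2 + 1), a i * (w ^ i * y ^ (d - 2 * i)).coeff j := by
            conv_lhs => rw [ha.2]
            rw [finset_sum_coeff]
            refine sum_congr rfl fun i _ => ?_
            rw [mul_assoc, coeff_C_mul]
          have h3 : range (j + 1) ⊆ range (d / 2 + 1) := by
            intro i hi
            rw [mem_range] at hi ⊢
            omega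
          rw [h2, ← sum_subset h3, sum_range_succ, coeff_self]
          · ring
          · intro i _ hi
            rw [mem_range] at hi
            rw [coeff_gen, if_pos (by omega), mul_zero]
        have h4 : a j = p.coeff j - ∑ i ∈ range j, a i * (w ^ i * y ^ (d - 2 * i)).coeff j := by
          linarith
        rw [h4]
        have h5 : |∑ i ∈ range j, a i * (w ^ i * y ^ (d - 2 * i)).coeff j| ≤
            ∑ i ∈ range j, K i * |(w ^ i * y ^ (d - 2 * i)).coeff j| * B := by
          refine (abs_sum_le_sum_abs _ _).trans (sum_le_sum fun i hi => ?_)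
          rw [abs_mul]
          have h6 := hK i (mem_range.1 hi) p a B hB ha hp
          have h7 := abs_nonneg ((w ^ i * y ^ (d - 2 * i)).coeff j)
          calc |a i| * |(w ^ i * y ^ (d - 2 * i)).coeff j|
              ≤ K i * B * |(w ^ i * y ^ (d - 2 * i)).coeff j| :=
                mul_le_mul_of_nonneg_right h6 h7
            _ = K i * |(w ^ i * y ^ (d - 2 * i)).coeff j| * B := by ring
        rw [← sum_mul] at h5
        have h6 := abs_sub (p.coeff j) (∑ i ∈ range j, a i * (w ^ i * y ^ (d - 2 * i)).coeff j)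
        have h7 := hp j
        linarith

/-! ### Opposite vertices -/

theorem opp {α : Type} [LinearOrder α] {H : SimpleGraph α} (κ : Finset α) :
    ∀ (d : ℕ) (W : Finset α), NP H d W → κ ∈ cl H W →
      ∃ f : α → α, Set.InjOn f κ ∧ ∀ x ∈ κ, f x ∈ W ∧ f x ∉ κ ∧ ¬ H.Adj x (f x) := by
  induction κ using Finset.induction_on with
  | empty => exact fun d W _ _ => ⟨id, fun x hx => absurd hx (notMem_empty x),
      fun x hx => absurd hx (notMem_empty x)⟩
  | insert v κ hvκ ih =>
    intro d W h hκ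
    have hv : v ∈ W := (mem_cl.1 hκ).1 (mem_insert_self v κ)
    obtain ⟨e, rfl, he⟩ := h.lk' hv
    have hκ' : κ ∈ cl H (lk H W v) := by
      rw [mem_cl] at hκ ⊢
      refine ⟨fun x hx => mem_lk.2 ⟨hκ.1 (mem_insert_of_mem hx), ?_⟩, fun x hx z hz hxz =>
        hκ.2 x (mem_insert_of_mem hx) z (mem_insert_of_mem hz) hxz⟩
      exact hκ.2 v (mem_insert_self v κ) x (mem_insert_of_mem hx) (fun h' => hvκ (h' ▸ hx))
    obtain ⟨f, hf1, hf2⟩ := ih e _ he hκ'
    obtain ⟨u, hu, huv, hadj⟩ : ∃ u ∈ W, u ≠ v ∧ ¬ H.Adj v u := by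
      by_contra hcon
      push Not at hcon
      have hfull : Full H {v} (lk H W v) := by
        intro a ha b hb
        rw [mem_singleton] at ha
        subst ha
        exact (mem_lk.1 hb).2
      have hun : {v} ∪ lk H W v = W := by
        ext x
        rw [mem_union, mem_singleton, mem_lk]
        constructor
        · rintro (rfl | h')
          · exact hv
          · exact h'.1
        · intro hx
          by_cases hxv : x = v
          · exact Or.inl hxv
          · exact Or.inr ⟨hx, hcon x hx hxv⟩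
      rw [← hun] at h
      obtain ⟨d₁, d₂, -, h1, -⟩ := h.split hfull
      have h2 := h1.two_mul_le
      rw [card_singleton] at h2
      obtain rfl : d₁ = 0 := by omega
      have h3 : ({v} : Finset α) = ∅ := h1
      exact singleton_ne_empty v h3
    have hul : u ∉ lk H W v := fun h' => hadj (mem_lk.1 h').2
    refine ⟨fun x => if x = v then u else f x, ?_, ?_⟩
    · intro x hx z hz hxz
      dsimp only at hxz
      rw [mem_coe, mem_insert] at hx hz
      split_ifs at hxz with h1 h2 h2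
      · rw [h1, h2]
      · exact absurd (hxz ▸ (hf2 z (hz.resolve_left h2)).1) hul
      · exact absurd (hxz ▸ (hf2 x (hx.resolve_left h1)).1) hul
      · exact hf1 (hx.resolve_left h1) (hz.resolve_left h2) hxz
    · intro x hx
      dsimp only
      rw [mem_insert] at hx
      split_ifs with h1
      · subst h1
        refine ⟨hu, ?_, hadj⟩
        rw [mem_insert]
        rintro (h2 | h2)
        · exact huv h2
        · exact hul ((mem_cl.1 hκ').1 h2)
      · obtain ⟨h2, h3, h4⟩ := hf2 x (hx.resolve_left h1)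
        refine ⟨lk_subset h2, ?_, h4⟩
        rw [mem_insert]
        rintro (h5 | h5)
        · exact not_mem_lk_self (h5 ▸ h2)
        · exact h3 h5

theorem sum_le_of_pairs {α : Type} [LinearOrder α] {H : SimpleGraph α} {d : ℕ} {W : Finset α}
    (h : NP H d W) (x : α → ℝ) (g : ℝ)
    (hx : ∀ u ∈ W, ∀ v ∈ W, u ≠ v → ¬ H.Adj u v → x u + x v ≤ 2 * g) :
    ∑ v ∈ W, x v ≤ W.card * g := by
  classical
  set B := W.filter fun v => g < x v with hB
  have hBc : B ∈ cl H W := by
    rw [mem_cl]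
    refine ⟨filter_subset _ _, fun u hu v hv huv => ?_⟩
    by_contra hcon
    obtain ⟨h1, h2⟩ := mem_filter.1 hu
    obtain ⟨h3, h4⟩ := mem_filter.1 hv
    have := hx u h1 v h3 huv hcon
    linarith
  obtain ⟨f, hf1, hf2⟩ := opp B d W h hBc
  have hsub : B.image f ⊆ W := by
    intro z hz
    obtain ⟨u, hu, rfl⟩ := mem_image.1 hz
    exact (hf2 u hu).1
  have hdisj : Disjoint B (B.image f) := by
    rw [disjoint_right]
    intro z hz
    obtain ⟨u, hu, rfl⟩ := mem_image.1 hz
    exact (hf2 u hu).2.1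
  have hU : B ∪ B.image f ⊆ W := union_subset (filter_subset _ _) hsub
  have e1 : ∑ v ∈ W, (x v - g) = ∑ v ∈ W \ (B ∪ B.image f), (x v - g) +
      ∑ v ∈ B ∪ B.image f, (x v - g) := (sum_sdiff hU).symm
  have e2 : ∑ v ∈ B ∪ B.image f, (x v - g) = ∑ v ∈ B, ((x v - g) + (x (f v) - g)) := by
    rw [sum_union hdisj, sum_image hf1, sum_add_distrib]
  have h1 : ∑ v ∈ W \ (B ∪ B.image f), (x v - g) ≤ 0 := by
    refine sum_nonpos fun v hv => ?_
    obtain ⟨h2, h3⟩ := mem_sdiff.1 hv
    have h4 : v ∉ B := fun h' => h3 (mem_union_left _ h')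
    have h5 : ¬ g < x v := fun h' => h4 (mem_filter.2 ⟨h2, h'⟩)
    linarith
  have h2 : ∑ v ∈ B, ((x v - g) + (x (f v) - g)) ≤ 0 := by
    refine sum_nonpos fun v hv => ?_
    obtain ⟨h3, h4, h5⟩ := hf2 v hv
    have h6 := hx v (mem_filter.1 hv).1 (f v) h3 (fun h' => h4 (h' ▸ hv)) h5
    linarith
  have h3 : ∑ v ∈ W, (x v - g) = ∑ v ∈ W, x v - W.card * g := by
    rw [sum_sub_distrib, sum_const, nsmul_eq_mul]
  linarith

/-! ### The sum over the vertices -/

theorem exp_deriv {p : ℤ[X]} {a : ℕ → ℤ} (h : Exp (d + 1) p a) :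
    Exp d (derivative p)
      (fun j => if d < 2 * j then 0 else (j + 1) * a (j + 1) + 2 * (d + 1 - 2 * j) * a j) := by
  obtain ⟨h1, h2⟩ := h
  refine ⟨fun i hi => by dsimp only; rw [if_pos hi], ?_⟩
  have hw : derivative w = y := by
    rw [w, y]
    simp only [derivative_mul, derivative_X, derivative_add, derivative_one]
    ring
  have hy : derivative y = 2 := by
    rw [y]
    simp only [derivative_mul, derivative_X, derivative_add, derivative_one, derivative_ofNat]
    ring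
  set T1 : ℕ → ℤ[X] := fun i => C (a i) * ((i : ℤ[X]) * w ^ (i - 1) * y) * y ^ (d + 1 - 2 * i)
    with hT1
  set T2 : ℕ → ℤ[X] := fun i =>
    C (a i) * w ^ i * (((d + 1 - 2 * i : ℕ) : ℤ[X]) * y ^ (d + 1 - 2 * i - 1) * 2) with hT2
  have e0 : derivative p = ∑ i ∈ range ((d + 1) / 2 + 1), T1 i +
      ∑ i ∈ range ((d + 1) / 2 + 1), T2 i := by
    rw [h2, derivative_sum, ← sum_add_distrib]
    refine sum_congr rfl fun i _ => ?_
    rw [mul_assoc, derivative_C_mul, derivative_mul, derivative_pow, derivative_pow, hw, hy, hT1,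
      hT2]
    dsimp only
    rw [map_natCast, map_natCast]
    ring
  have e1 : ∑ i ∈ range ((d + 1) / 2 + 1), T1 i =
      ∑ i ∈ range (d / 2 + 1), C (((i : ℤ) + 1) * a (i + 1)) * w ^ i * y ^ (d - 2 * i) := by
    rw [sum_range_succ']
    have h3 : T1 0 = 0 := by rw [hT1]; simp
    rw [h3, add_zero]
    have h4 : ∀ i ∈ range ((d + 1) / 2), T1 (i + 1) =
        C (((i : ℤ) + 1) * a (i + 1)) * w ^ i * y ^ (d - 2 * i) := by
      intro i hi
      rw [mem_range] at hi
      rw [hT1]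
      dsimp only
      have h5 : d - 2 * i = d + 1 - 2 * (i + 1) + 1 := by omega
      rw [h5, pow_succ, Nat.add_sub_cancel, C_mul, C_add]
      simp
      ring
    rw [sum_congr rfl h4]
    refine sum_subset (fun i hi => ?_) (fun i hi hi' => ?_)
    · rw [mem_range] at hi ⊢
      omega
    · rw [mem_range] at hi hi'
      rw [h1 (i + 1) (by omega), mul_zero, C_0, zero_mul, zero_mul]
  have e2 : ∑ i ∈ range ((d + 1) / 2 + 1), T2 i =
      ∑ i ∈ range (d / 2 + 1), C (2 * ((d : ℤ) + 1 - 2 * i) * a i) * w ^ i * y ^ (d - 2 * i) := by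
    have h4 : ∀ i ∈ range (d / 2 + 1), T2 i =
        C (2 * ((d : ℤ) + 1 - 2 * i) * a i) * w ^ i * y ^ (d - 2 * i) := by
      intro i hi
      rw [mem_range] at hi
      rw [hT2]
      dsimp only
      have h5 : d + 1 - 2 * i - 1 = d - 2 * i := by omega
      have h6 : ((d + 1 - 2 * i : ℕ) : ℤ[X]) = C ((d : ℤ) + 1 - 2 * i) := by
        rw [← C_eq_natCast]
        congr 1
        push_cast [show 2 * i ≤ d + 1 by omega]
        ring
      rw [h5, h6]
      simp only [C_mul, C_ofNat]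
      ring
    rw [← sum_congr rfl h4]
    symm
    refine sum_subset (fun i hi => ?_) (fun i hi hi' => ?_)
    · rw [mem_range] at hi ⊢
      omega
    · rw [mem_range] at hi hi'
      have h5 : d + 1 - 2 * i = 0 := by omega
      rw [h5]
      simp
  rw [e0, e1, e2, ← sum_add_distrib]
  refine sum_congr rfl fun i hi => ?_
  rw [mem_range] at hi
  dsimp only
  rw [if_neg (by omega), C_add]
  ring

theorem exp_sum {β : Type} {s : Finset β} {p : β → ℤ[X]} {b : β → ℕ → ℤ}
    (h : ∀ v ∈ s, Exp d (p v) (b v)) : Exp d (∑ v ∈ s, p v) (fun i => ∑ v ∈ s, b v i) := by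
  refine ⟨fun i hi => sum_eq_zero fun v hv => (h v hv).1 i hi, ?_⟩
  rw [sum_congr rfl fun v hv => (h v hv).2, sum_comm]
  refine sum_congr rfl fun i _ => ?_
  rw [map_sum, sum_mul, sum_mul]

theorem exp_inj {p : ℤ[X]} {a b : ℕ → ℤ} (ha : Exp d p a) (hb : Exp d p b) : a = b := by
  funext i
  by_cases hi : d < 2 * i
  · rw [ha.1 i hi, hb.1 i hi]
  · exact Pool.Agent.TH709.GG.exp_unique (ha.2.symm.trans hb.2) i (by omega)

/-- the sum of the gamma-vectors of the vertex links -/
theorem sum_links {α : Type} [LinearOrder α] {H : SimpleGraph α} {W : Finset α} {a : ℕ → ℤ}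
    (ha : Exp (d + 1) (FP H W) a) {b : α → ℕ → ℤ} (hb : ∀ v ∈ W, Exp d (FP H (lk H W v)) (b v))
    {i : ℕ} (hi : 2 * i ≤ d) :
    ∑ v ∈ W, b v i = (i + 1) * a (i + 1) + 2 * (d + 1 - 2 * i) * a i := by
  have h1 := exp_deriv ha
  rw [derivative_FP] at h1
  have h2 := congrFun (exp_inj (exp_sum hb) h1) i
  rwa [if_neg (by omega)] at h2

/-- the constant term -/
theorem exp_zero {α : Type} [LinearOrder α] {H : SimpleGraph α} {W : Finset α} {a : ℕ → ℤ}
    (ha : Exp d (FP H W) a) : a 0 = 1 := by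
  have h1 := congrArg (Polynomial.eval (0 : ℤ)) ha.2
  have h2 : (FP H W).eval (0 : ℤ) = 1 := by
    rw [FP, eval_finset_sum, sum_eq_single_of_mem ∅ empty_mem_cl]
    · simp
    · intro σ _ hσ
      rw [eval_pow, eval_X, zero_pow]
      rwa [Ne, card_eq_zero]
  rw [h2, eval_finset_sum, sum_eq_single_of_mem 0 (by simp)] at h1
  · simpa [y] using h1.symm
  · intro i _ hi
    simp [w, hi]

theorem exp_one {α : Type} [LinearOrder α] {H : SimpleGraph α} {W : Finset α} {a : ℕ → ℤ}
    (ha : Exp (d + 1) (FP H W) a) {b : α → ℕ → ℤ} (hb : ∀ v ∈ W, Exp d (FP H (lk H W v)) (b v)) :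
    (W.card : ℤ) = a 1 + 2 * (d + 1) := by
  have h1 := sum_links ha hb (i := 0) (by omega)
  rw [sum_congr rfl fun v hv => exp_zero (hb v hv), sum_const, exp_zero ha] at h1
  simpa using h1

/-! ### Linear functionals -/

/-- the linear functional with coefficients `c` of the gamma-vector of a sphere of rank `d` -/
noncomputable def lin (c : ℕ → ℝ) (d : ℕ) (γ : ℕ → ℤ) : ℝ := ∑ j ∈ range (d / 2 + 1), c j * γ j

theorem lin_succ (c : ℕ → ℝ) {b : ℕ → ℤ} (hb : ∀ i, d < 2 * i → b i = 0) :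
    lin c (d + 1) b = lin c d b := by
  rw [lin, lin]
  symm
  refine sum_subset (fun i hi => ?_) (fun i hi hi' => ?_)
  · rw [mem_range] at hi ⊢
    omega
  · rw [mem_range] at hi hi'
    rw [hb i (by omega), Int.cast_zero, mul_zero]

theorem lin_congr (c : ℕ → ℝ) {a b : ℕ → ℤ} (h : ∀ i ≤ d / 2, a i = b i) :
    lin c d a = lin c d b := by
  refine sum_congr rfl fun i hi => ?_
  rw [mem_range] at hi
  rw [h i (by omega)]

theorem lin_comb (c : ℕ → ℝ) {m : ℕ} {a b b' a' : ℕ → ℤ}
    (h : ∀ i, a' i = 2 ^ (m + 1) * a i - 2 ^ m * b i - (2 ^ m - 1) * b' i) :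
    lin c d a' = 2 ^ (m + 1) * lin c d a - 2 ^ m * lin c d b - (2 ^ m - 1) * lin c d b' := by
  rw [lin, lin, lin, lin, mul_sum, mul_sum, mul_sum, ← sum_sub_distrib, ← sum_sub_distrib]
  refine sum_congr rfl fun i _ => ?_
  rw [h i]
  push_cast
  ring

variable {k : Type} [Field k]

theorem coeff_PS {S : Finset (Finset (Fin n))} (hS : IsFlagSphere k d S) (i : ℕ) :
    |(PS S).coeff i| ≤ (S.card : ℤ) := by
  rw [PS, FP, hS.cl_eq, finset_sum_coeff]
  calc |∑ σ ∈ S, (X ^ σ.card : ℤ[X]).coeff i| ≤ ∑ σ ∈ S, |(X ^ σ.card : ℤ[X]).coeff i| :=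
        abs_sum_le_sum_abs _ _
    _ ≤ ∑ σ ∈ S, 1 := sum_le_sum fun σ _ => by
        rw [coeff_X_pow]
        split_ifs <;> simp
    _ = S.card := by simp

theorem card_le_two_pow {S : Finset (Finset (Fin n))} (hS : IsFlagSphere k d S) :
    S.card ≤ 2 ^ numVert S := by
  rw [numVert_eq, ← card_powerset]
  conv_lhs => rw [← hS.cl_eq]
  refine card_le_card fun σ hσ => ?_
  rw [mem_powerset]
  exact (mem_cl.1 hσ).1

/-- a functional is bounded on the spheres with few vertices -/
theorem bdd (c : ℕ → ℝ) (d N : ℕ) : ∃ K : ℝ, 0 ≤ K ∧ ∀ (n : ℕ) (S : Finset (Finset (Fin n))),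
    IsFlagSphere k d S → numVert S < N → ∀ a, Exp d (PS S) a → |lin c d a| ≤ K := by
  choose K hK0 hK using coef_bound d
  refine ⟨∑ j ∈ range (d / 2 + 1), |c j| * (K j * 2 ^ N : ℤ), ?_, fun n S hS hN a ha => ?_⟩
  · refine sum_nonneg fun j _ => mul_nonneg (abs_nonneg _) ?_
    have := hK0 j
    positivity
  · rw [lin]
    refine (abs_sum_le_sum_abs _ _).trans (sum_le_sum fun j _ => ?_)
    rw [abs_mul]
    refine mul_le_mul_of_nonneg_left ?_ (abs_nonneg _)
    have h1 : (S.card : ℤ) ≤ 2 ^ N := by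
      have h2 := (card_le_two_pow hS).trans (Nat.pow_le_pow_right (by norm_num) hN.le)
      exact_mod_cast h2
    have h3 := hK j (PS S) a (2 ^ N) (by positivity) ha (fun i => (coeff_PS hS i).trans h1)
    rw [← Int.cast_abs]
    exact_mod_cast h3

/-! ### The equivalence -/

/-- the functional is nonnegative -/
def NonnegL (F : ι → Type) [∀ j, Field (F j)] (c : ℕ → ℝ) (d : ℕ) : Prop :=
  ∀ (n : ℕ) (S : Finset (Finset (Fin n))), Fam F d S → ∀ a, Exp d (PS S) a → 0 ≤ lin c d a

/-- the functional is at least `-ε |S|` for large spheres -/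
def AsymL (F : ι → Type) [∀ j, Field (F j)] (c : ℕ → ℝ) (d : ℕ) : Prop :=
  ∀ ε : ℝ, 0 < ε → ∃ N : ℕ, ∀ (n : ℕ) (S : Finset (Finset (Fin n))), Fam F d S →
    N ≤ numVert S → ∀ a, Exp d (PS S) a → -ε * (S.card : ℝ) ≤ lin c d a

/-- the functional is at least the mean of its values for the links of any two vertices which are
not joined by an edge -/
def StrongL (F : ι → Type) [∀ j, Field (F j)] (c : ℕ → ℝ) (d : ℕ) : Prop :=
  ∀ (n : ℕ) (S : Finset (Finset (Fin n))), Fam F d S → ∀ u ∈ vert S, ∀ v ∈ vert S, u ≠ v →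
    ¬ (skel S).Adj u v → ∀ a b b', Exp d (PS S) a →
    Exp (d - 1) (FP (skel S) (lk (skel S) (vert S) u)) b →
    Exp (d - 1) (FP (skel S) (lk (skel S) (vert S) v)) b' →
    lin c (d - 1) b + lin c (d - 1) b' ≤ 2 * lin c d a

theorem asymL_of_nonnegL {c : ℕ → ℝ} (h : NonnegL F c d) : AsymL F c d := by
  intro ε hε
  refine ⟨0, fun n S hS _ a ha => ?_⟩
  have h1 := h n S hS a ha
  have h2 : 0 ≤ ε * (S.card : ℝ) := by positivity
  linarith

theorem card_pos' {S : Finset (Finset (Fin n))} (hS : IsFlagSphere k d S) : 0 < S.card := by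
  rw [card_pos, ← hS.cl_eq]
  exact ⟨∅, empty_mem_cl⟩

/-- there are no vertices in rank `0` -/
theorem vert_zero {S : Finset (Finset (Fin n))} (hS : IsFlagSphere k 0 S) : vert S = ∅ := by
  have h1 : NP (skel S) 0 (vert S) := hS.np
  exact h1

/-- **The weak form implies the strong form.** -/
theorem strongL_of_asymL {c : ℕ → ℝ} (h : AsymL F c d) : StrongL F c d := by
  obtain ⟨t₀⟩ := ‹Nonempty ι›
  haveI : Nonempty ι := ⟨t₀⟩
  intro n S hS u hu v hv huv hadj a b b' ha hb hb'
  rcases d with _ | d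
  · rw [vert_zero (hS t₀)] at hu
    exact absurd hu (notMem_empty u)
  rw [Nat.add_sub_cancel] at hb hb' ⊢
  by_contra hcon
  push Not at hcon
  set δ : ℝ := lin c d b + lin c d b' - 2 * lin c (d + 1) a with hδ
  have hδ0 : 0 < δ := by linarith
  have hc0 : (0 : ℝ) < S.card := by exact_mod_cast card_pos' (hS t₀)
  obtain ⟨N, hN⟩ := h (δ / (4 * S.card)) (by positivity)
  obtain ⟨K, hK0, hK⟩ := bdd (k := F t₀) c (d + 1) N
  obtain ⟨m, hm⟩ : ∃ m : ℕ, 2 * (|lin c d b'| + K) / δ < 2 ^ m :=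
    pow_unbounded_of_one_lt _ (by norm_num)
  obtain ⟨n', S', a', h1, h2, h3, h4⟩ := chain m n S a b b' u v hS hu hv huv hadj ha hb hb'
  have h5 := lin_comb (d := d + 1) c h4
  rw [lin_succ c hb.1, lin_succ c hb'.1] at h5
  have h6 : lin c (d + 1) a' = -(2 ^ m * δ) + lin c d b' := by
    rw [h5, hδ]
    ring
  rw [div_lt_iff₀ hδ0] at hm
  have h7 := le_abs_self (lin c d b')
  by_cases hlt : numVert S' < N
  · have h8 := hK n' S' (h1 t₀) hlt a' h2
    rw [h6] at h8
    have h9 := (abs_le.1 h8).1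
    have h10 := abs_nonneg (lin c d b')
    linarith
  · have h8 := hN n' S' h1 (not_lt.1 hlt) a' h2
    rw [h6] at h8
    have h9 : (S'.card : ℝ) ≤ 2 ^ (m + 1) * S.card := by exact_mod_cast h3
    have h10 : δ / (4 * S.card) * (S'.card : ℝ) ≤ 2 ^ m * δ / 2 := by
      calc δ / (4 * S.card) * (S'.card : ℝ) ≤ δ / (4 * S.card) * (2 ^ (m + 1) * S.card) :=
            mul_le_mul_of_nonneg_left h9 (by positivity)
        _ = 2 ^ m * δ / 2 := by
            field_simp
            ring
    linarith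

/-- two vertices which are not joined by an edge -/
theorem exists_pair {S : Finset (Finset (Fin n))} (hS : IsFlagSphere k (d + 1) S) :
    ∃ u ∈ vert S, ∃ v ∈ vert S, u ≠ v ∧ ¬ (skel S).Adj u v := by
  obtain ⟨u, hu⟩ := hS.np.nonempty
  obtain ⟨f, -, hf⟩ := opp {u} (d + 1) (vert S) hS.np (singleton_mem_cl hu)
  obtain ⟨h1, h2, h3⟩ := hf u (mem_singleton_self u)
  exact ⟨u, hu, f u, h1, fun h => h2 (h ▸ mem_singleton_self _), h3⟩

theorem link_exp {S : Finset (Finset (Fin n))} (hS : IsFlagSphere k (d + 1) S) {u : Fin n}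
    (hu : u ∈ vert S) : ∃ b, Exp d (FP (skel S) (lk (skel S) (vert S) u)) b := by
  obtain ⟨b, hb⟩ := exists_exp (link_fin hS hu)
  rw [PS_cl] at hb
  exact ⟨b, hb⟩

theorem card_link_le {S : Finset (Finset (Fin n))} (hS : IsFlagSphere k d S) (u : Fin n) :
    (cl (skel S) (lk (skel S) (vert S) u)).card ≤ S.card := by
  conv_rhs => rw [← hS.cl_eq]
  exact card_le_card (cl_mono lk_subset)

theorem card_ge_numVert (S : Finset (Finset (Fin n))) : numVert S ≤ S.card :=
  card_le_card (filter_subset _ _)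

/-- the strong form and the weak form for the links imply the weak form -/
theorem asymL_step {c : ℕ → ℝ} (hs : StrongL F c (d + 1)) (h : AsymL F c d) :
    AsymL F c (d + 1) := by
  obtain ⟨t₀⟩ := ‹Nonempty ι›
  haveI : Nonempty ι := ⟨t₀⟩
  intro ε hε
  obtain ⟨N, hN⟩ := h ε hε
  obtain ⟨K, hK0, hK⟩ := bdd (k := F t₀) c d N
  obtain ⟨M, hM⟩ := exists_nat_ge (K / ε)
  refine ⟨M, fun n S hS hMS a ha => ?_⟩
  have key : ∀ u ∈ vert S, ∀ b, Exp d (FP (skel S) (lk (skel S) (vert S) u)) b →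
      -ε * (S.card : ℝ) ≤ lin c d b := by
    intro u hu b hb
    have hL : Fam F d (cl (skel S) (lk (skel S) (vert S) u)) := fun t => link_fin (hS t) hu
    rw [← PS_cl] at hb
    by_cases hlt : numVert (cl (skel S) (lk (skel S) (vert S) u)) < N
    · have h1 := (abs_le.1 (hK _ _ (hL t₀) hlt b hb)).1
      have h2 : (M : ℝ) ≤ S.card := by exact_mod_cast hMS.trans (card_ge_numVert S)
      rw [div_le_iff₀ hε] at hM
      nlinarith
    · have h1 := hN _ _ hL (not_lt.1 hlt) b hb
      have h2 : ((cl (skel S) (lk (skel S) (vert S) u)).card : ℝ) ≤ S.card := by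
        exact_mod_cast card_link_le (hS t₀) u
      nlinarith
  obtain ⟨u, hu, v, hv, huv, hadj⟩ := exists_pair (hS t₀)
  obtain ⟨b, hb⟩ := link_exp (hS t₀) hu
  obtain ⟨b', hb'⟩ := link_exp (hS t₀) hv
  have h1 := hs n S hS u hu v hv huv hadj a b b' ha hb hb'
  rw [Nat.add_sub_cancel] at h1
  have h2 := key u hu b hb
  have h3 := key v hv b' hb'
  linarith

theorem nonnegL_step {c : ℕ → ℝ} (hs : StrongL F c (d + 1)) (h : NonnegL F c d) :
    NonnegL F c (d + 1) := by
  obtain ⟨t₀⟩ := ‹Nonempty ι›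
  haveI : Nonempty ι := ⟨t₀⟩
  intro n S hS a ha
  have key : ∀ u ∈ vert S, ∀ b, Exp d (FP (skel S) (lk (skel S) (vert S) u)) b →
      0 ≤ lin c d b := by
    intro u hu b hb
    have hL : Fam F d (cl (skel S) (lk (skel S) (vert S) u)) := fun t => link_fin (hS t) hu
    rw [← PS_cl] at hb
    exact h _ _ hL b hb
  obtain ⟨u, hu, v, hv, huv, hadj⟩ := exists_pair (hS t₀)
  obtain ⟨b, hb⟩ := link_exp (hS t₀) hu
  obtain ⟨b', hb'⟩ := link_exp (hS t₀) hv
  have h1 := hs n S hS u hu v hv huv hadj a b b' ha hb hb'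
  rw [Nat.add_sub_cancel] at h1
  have h2 := key u hu b hb
  have h3 := key v hv b' hb'
  linarith

theorem numVert_zero {S : Finset (Finset (Fin n))} (hS : IsFlagSphere k 0 S) : numVert S = 0 := by
  rw [numVert_eq, vert_zero hS, card_empty]

/-- **The three forms are equivalent.** -/
theorem main_iff (c : ℕ → ℝ) (D : ℕ) :
    (∀ d ≤ D, AsymL F c d) ↔ (∀ d ≤ D, StrongL F c d) := by
  obtain ⟨t₀⟩ := ‹Nonempty ι›
  haveI : Nonempty ι := ⟨t₀⟩
  refine ⟨fun h d hd => strongL_of_asymL (h d hd), fun h d => ?_⟩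
  induction d with
  | zero =>
    intro _ ε _
    refine ⟨1, fun n S hS h1 => ?_⟩
    rw [numVert_zero (hS t₀)] at h1
    omega
  | succ d ih => exact fun hd => asymL_step (h (d + 1) hd) (ih (by omega))

theorem main_nonneg (c : ℕ → ℝ) (hc : 0 ≤ c 0) (D : ℕ) :
    (∀ d ≤ D, NonnegL F c d) ↔ (∀ d ≤ D, StrongL F c d) := by
  obtain ⟨t₀⟩ := ‹Nonempty ι›
  haveI : Nonempty ι := ⟨t₀⟩
  refine ⟨fun h d hd => strongL_of_asymL (asymL_of_nonnegL (h d hd)), fun h d => ?_⟩
  induction d with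
  | zero =>
    intro _ n S hS a ha
    rw [lin]
    simp only [Nat.zero_div, zero_add, sum_range_one]
    rw [exp_zero ha]
    simpa using hc
  | succ d ih => exact fun hd => nonnegL_step (h (d + 1) hd) (ih (by omega))

/-! ### The quadratic inequality -/

/-- **The quadratic inequality.** -/
theorem quad {c : ℕ → ℝ} (h : AsymL F c (d + 1)) {S : Finset (Finset (Fin n))}
    (hS : Fam F (d + 1) S) {a : ℕ → ℤ} (ha : Exp (d + 1) (PS S) a) :
    ∑ j ∈ range ((d + 1) / 2 + 1), c j * ((j + 1) * a (j + 1)) ≤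
      ∑ j ∈ range ((d + 1) / 2 + 1), c j * ((a 1 + 4 * j) * a j) := by
  obtain ⟨t₀⟩ := ‹Nonempty ι›
  haveI : Nonempty ι := ⟨t₀⟩
  have hex : ∀ v ∈ vert S, ∃ b, Exp d (FP (skel S) (lk (skel S) (vert S) v)) b :=
    fun v hv => link_exp (hS t₀) hv
  choose! b hb using hex
  have h0 := exp_one ha hb
  have h1 := sum_le_of_pairs (hS t₀).np (fun v => lin c d (b v)) (lin c (d + 1) a)
    (fun u hu v hv huv hadj => by
      have h2 := strongL_of_asymL h n S hS u hu v hv huv hadj a (b u) (b v) ha (hb u hu) (hb v hv)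
      rwa [Nat.add_sub_cancel] at h2)
  have h0' : ((vert S).card : ℝ) = a 1 + 2 * (d + 1) := by exact_mod_cast h0
  have h2 : ∑ v ∈ vert S, lin c d (b v) = ∑ j ∈ range ((d + 1) / 2 + 1),
      c j * ((j + 1) * a (j + 1) + 2 * (d + 1 - 2 * j) * a j) := by
    have h3 : ∑ v ∈ vert S, lin c d (b v) = ∑ j ∈ range (d / 2 + 1),
        c j * ((j + 1) * a (j + 1) + 2 * (d + 1 - 2 * j) * a j) := by
      simp only [lin]
      rw [sum_comm]
      refine sum_congr rfl fun j hj => ?_
      rw [mem_range] at hj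
      have h4 := sum_links ha hb (i := j) (by omega)
      rw [← mul_sum]
      congr 1
      exact_mod_cast h4
    rw [h3]
    refine sum_subset (fun i hi => ?_) (fun i hi hi' => ?_)
    · rw [mem_range] at hi ⊢
      omega
    · rw [mem_range] at hi hi'
      have h5 : 2 * i = d + 1 := by omega
      have h6 : (2 * i : ℝ) = d + 1 := by exact_mod_cast h5
      rw [ha.1 (i + 1) (by omega), h6]
      simp
  rw [h2, h0', lin, mul_sum] at h1
  have h3 : ∑ j ∈ range ((d + 1) / 2 + 1), c j * ((j + 1) * a (j + 1) + 2 * (d + 1 - 2 * j) * a j) =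
      ∑ j ∈ range ((d + 1) / 2 + 1), c j * ((j + 1) * a (j + 1)) +
        ∑ j ∈ range ((d + 1) / 2 + 1), c j * (2 * (d + 1 - 2 * j) * a j) := by
    rw [← sum_add_distrib]
    refine sum_congr rfl fun j _ => ?_
    ring
  have h4 : ∑ j ∈ range ((d + 1) / 2 + 1), ((a 1 : ℝ) + 2 * (d + 1)) * (c j * a j) =
      ∑ j ∈ range ((d + 1) / 2 + 1), c j * ((a 1 + 4 * j) * a j) +
        ∑ j ∈ range ((d + 1) / 2 + 1), c j * (2 * (d + 1 - 2 * j) * a j) := by
    rw [← sum_add_distrib]
    refine sum_congr rfl fun j _ => ?_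
    ring
  rw [h3, h4] at h1
  linarith

/-- the case of one gamma-number -/
theorem upper {i : ℕ} (hi : 2 * i ≤ d + 1)
    (h : AsymL F (fun j => if j = i then 1 else 0) (d + 1)) {S : Finset (Finset (Fin n))}
    (hS : Fam F (d + 1) S) {a : ℕ → ℤ} (ha : Exp (d + 1) (PS S) a) :
    (i + 1) * a (i + 1) ≤ (a 1 + 4 * i) * a i := by
  have h1 := quad h hS ha
  have hmem : i ∈ range ((d + 1) / 2 + 1) := by
    rw [mem_range]
    omega
  rw [sum_eq_single_of_mem i hmem (fun j _ hj => by rw [if_neg hj, zero_mul]),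
    sum_eq_single_of_mem i hmem (fun j _ hj => by rw [if_neg hj, zero_mul]), if_pos rfl,
    one_mul, one_mul] at h1
  exact_mod_cast h1

end Q116.GD
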