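import Pool.Agent.Q116.GD.MV

/-!
# Transport of exactness along monotone maps of vertices
-/

set_option autoImplicit false
set_option linter.unusedSectionVars false

namespace Q116.GD

open Pool.Agent.W497.FS Finset

variable {k : Type} [Field k] {α β : Type} [LinearOrder α] [Fintype α] [LinearOrder β] [Fintype β]
  {H : SimpleGraph α} {H' : SimpleGraph β} {ρ : β → α} {D : Finset β}

/-- pull back a chain -/
def pull (ρ : β → α) (D : Finset β) (c : Finset α → k) : Finset β → k :=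
  fun S => if S ⊆ D then c (S.image ρ) else 0

/-- push forward a chain -/
def push (ρ : β → α) (D : Finset β) (b : Finset β → k) : Finset α → k :=
  fun T => if T ⊆ D.image ρ then b (D.filter fun x => ρ x ∈ T) else 0

theorem image_insert_notMem (hρ : StrictMonoOn ρ D) {S : Finset β} (hS : S ⊆ D) {v : β}
    (hv : v ∈ D) (hvS : v ∉ S) : ρ v ∉ S.image ρ := by
  intro h
  obtain ⟨x, hx, hx'⟩ := mem_image.1 h
  have := hρ.injOn (hS hx) hv hx'
  exact hvS (this ▸ hx)

theorem sg_image (hρ : StrictMonoOn ρ D) {S : Finset β} (hS : S ⊆ D) {v : β} (hv : v ∈ D) :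
    sg k (ρ v) (S.image ρ) = sg k v S := by
  unfold sg
  congr 1
  have e : (S.image ρ).filter (fun w => w < ρ v) = (S.filter (fun w => w < v)).image ρ := by
    ext u
    simp only [mem_filter, mem_image]
    constructor
    · rintro ⟨⟨x, hx, rfl⟩, h⟩
      exact ⟨x, ⟨hx, (hρ.lt_iff_lt (hS hx) hv).1 h⟩, rfl⟩
    · rintro ⟨x, ⟨hx, h⟩, rfl⟩
      exact ⟨⟨x, hx, rfl⟩, (hρ.lt_iff_lt (hS hx) hv).2 h⟩
  rw [e, card_image_of_injOn]
  intro a ha b hb h
  exact hρ.injOn (hS (mem_filter.1 ha).1) (hS (mem_filter.1 hb).1) h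

theorem bd_pull (hρ : StrictMonoOn ρ D) {c : Finset α → k}
    (hc : ∀ T, c T ≠ 0 → T ⊆ D.image ρ) : bd (pull ρ D c) = pull ρ D (bd c) := by
  classical
  funext S
  by_cases hS : S ⊆ D
  · rw [pull, if_pos hS, bd, bd]
    have e1 : ∑ v ∈ Sᶜ, sg k v S * pull ρ D c (insert v S) =
        ∑ v ∈ D \ S, sg k v S * pull ρ D c (insert v S) := by
      symm
      refine sum_subset ?_ ?_
      · intro v hv
        exact mem_compl.2 (mem_sdiff.1 hv).2
      · intro v hv hv'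
        rw [pull, if_neg, mul_zero]
        intro h
        exact hv' (mem_sdiff.2 ⟨h (mem_insert_self _ _), mem_compl.1 hv⟩)
    have e2 : ∑ u ∈ (S.image ρ)ᶜ, sg k u (S.image ρ) * c (insert u (S.image ρ)) =
        ∑ u ∈ (D \ S).image ρ, sg k u (S.image ρ) * c (insert u (S.image ρ)) := by
      symm
      refine sum_subset ?_ ?_
      · intro u hu
        obtain ⟨v, hv, rfl⟩ := mem_image.1 hu
        rw [mem_sdiff] at hv
        exact mem_compl.2 (image_insert_notMem hρ hS hv.1 hv.2)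
      · intro u hu hu'
        by_cases h0 : c (insert u (S.image ρ)) = 0
        · rw [h0, mul_zero]
        · exfalso
          have h1 := hc _ h0 (mem_insert_self _ _)
          obtain ⟨v, hv, rfl⟩ := mem_image.1 h1
          apply hu'
          refine mem_image.2 ⟨v, mem_sdiff.2 ⟨hv, fun hvS => ?_⟩, rfl⟩
          exact (mem_compl.1 hu) (mem_image_of_mem ρ hvS)
    rw [e1, e2, sum_image]
    · refine sum_congr rfl fun v hv => ?_
      obtain ⟨h1, h2⟩ := mem_sdiff.1 hv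
      rw [pull, if_pos (insert_subset h1 hS), image_insert, sg_image hρ hS h1]
    · intro a ha b hb h
      exact hρ.injOn (mem_sdiff.1 ha).1 (mem_sdiff.1 hb).1 h
  · rw [pull, if_neg hS, bd]
    refine sum_eq_zero fun v _ => ?_
    rw [pull, if_neg, mul_zero]
    intro h
    exact hS ((subset_insert _ _).trans h)

theorem filter_image (hρ : StrictMonoOn ρ D) {S : Finset β} (hS : S ⊆ D) :
    D.filter (fun x => ρ x ∈ S.image ρ) = S := by
  ext x
  rw [mem_filter]
  constructor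
  · rintro ⟨h1, h2⟩
    obtain ⟨z, hz, hz'⟩ := mem_image.1 h2
    have := hρ.injOn (hS hz) h1 hz'
    exact this ▸ hz
  · exact fun h => ⟨hS h, mem_image_of_mem ρ h⟩

theorem image_filter {T : Finset α} (hT : T ⊆ D.image ρ) :
    (D.filter (fun x => ρ x ∈ T)).image ρ = T := by
  ext u
  rw [mem_image]
  constructor
  · rintro ⟨x, hx, rfl⟩
    exact (mem_filter.1 hx).2
  · intro hu
    obtain ⟨x, hx, rfl⟩ := mem_image.1 (hT hu)
    exact ⟨x, mem_filter.2 ⟨hx, hu⟩, rfl⟩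

theorem pull_push (hρ : StrictMonoOn ρ D) {b : Finset β → k} (hb : ∀ S, b S ≠ 0 → S ⊆ D) :
    pull ρ D (push ρ D b) = b := by
  funext S
  by_cases hS : S ⊆ D
  · rw [pull, if_pos hS, push, if_pos (image_subset_image hS), filter_image hρ hS]
  · rw [pull, if_neg hS]
    by_contra h
    exact hS (hb S (Ne.symm h))

theorem image_mem_cl (hadj : ∀ a ∈ D, ∀ b ∈ D, H'.Adj a b ↔ H.Adj (ρ a) (ρ b)) {S : Finset β}
    (hS : S ∈ cl H' D) : S.image ρ ∈ cl H (D.image ρ) := by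
  rw [mem_cl] at hS ⊢
  refine ⟨image_subset_image hS.1, ?_⟩
  intro x hx z hz hxz
  obtain ⟨a, ha, rfl⟩ := mem_image.1 hx
  obtain ⟨b, hb, rfl⟩ := mem_image.1 hz
  have hab : a ≠ b := fun h => hxz (by rw [h])
  exact (hadj a (hS.1 ha) b (hS.1 hb)).1 (hS.2 a ha b hb hab)

theorem mem_cl_of_image (hadj : ∀ a ∈ D, ∀ b ∈ D, H'.Adj a b ↔ H.Adj (ρ a) (ρ b))
    (hρ : StrictMonoOn ρ D) {S : Finset β} (hS : S ⊆ D) (h : S.image ρ ∈ cl H (D.image ρ)) :
    S ∈ cl H' D := by
  rw [mem_cl] at h ⊢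
  refine ⟨hS, fun a ha b hb hab => ?_⟩
  exact (hadj a (hS ha) b (hS hb)).2 (h.2 _ (mem_image_of_mem ρ ha) _ (mem_image_of_mem ρ hb)
    (fun h' => hab (hρ.injOn (hS ha) (hS hb) h')))

/-- Exactness can be pulled back along a strictly monotone map. -/
theorem ex_trans (hρ : StrictMonoOn ρ D)
    (hadj : ∀ a ∈ D, ∀ b ∈ D, H'.Adj a b ↔ H.Adj (ρ a) (ρ b)) (j : ℕ)
    (h : Ex k H (D.image ρ) j) : Ex k H' D j := by
  classical
  intro c hc h0
  have hcD : ∀ S, c S ≠ 0 → S ⊆ D := fun S hS => (mem_cl.1 (hc S hS).1).1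
  have hpush : ∀ (b : Finset β → k) (i : ℕ), On H' D i b → On H (D.image ρ) i (push ρ D b) := by
    intro b i hb T hT
    rw [push] at hT
    split_ifs at hT with h1
    · obtain ⟨h2, h3⟩ := hb _ hT
      have h4 := image_mem_cl (ρ := ρ) hadj h2
      rw [image_filter h1] at h4
      refine ⟨h4, ?_⟩
      rw [← h3, ← image_filter h1, card_image_of_injOn, image_filter h1]
      intro a ha b hb h
      exact hρ.injOn (mem_filter.1 ha).1 (mem_filter.1 hb).1 h
    · exact absurd rfl hT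
  have hp := hpush c j hc
  have hpD : ∀ T, push ρ D c T ≠ 0 → T ⊆ D.image ρ := fun T hT => (mem_cl.1 (hp T hT).1).1
  have hcyc : bd (push ρ D c) = 0 := by
    have h1 := bd_pull hρ hpD
    rw [pull_push hρ hcD, h0] at h1
    funext T
    by_contra hT
    have hT' : T ⊆ D.image ρ := by
      rw [bd] at hT
      obtain ⟨v, hv, hne⟩ := Finset.exists_ne_zero_of_sum_ne_zero hT
      have h2 : push ρ D c (insert v T) ≠ 0 := fun h' => hne (by rw [h', mul_zero])
      exact (subset_insert _ _).trans (hpD _ h2)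
    have h3 := congrFun h1 (D.filter fun x => ρ x ∈ T)
    rw [pull, if_pos (filter_subset _ _), image_filter hT'] at h3
    exact hT h3.symm
  obtain ⟨b, hb, hbc⟩ := h _ hp hcyc
  refine ⟨pull ρ D b, ?_, ?_⟩
  · intro S hS
    rw [pull] at hS
    split_ifs at hS with h1
    · obtain ⟨h2, h3⟩ := hb _ hS
      refine ⟨mem_cl_of_image hadj hρ h1 h2, ?_⟩
      rw [← h3, card_image_of_injOn]
      intro a ha b hb h
      exact hρ.injOn (h1 ha) (h1 hb) h
    · exact absurd rfl hS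
  · rw [bd_pull hρ (fun T hT => (mem_cl.1 (hb T hT).1).1), hbc, pull_push hρ hcD]

theorem lkF_image (hadj : ∀ a ∈ D, ∀ b ∈ D, H'.Adj a b ↔ H.Adj (ρ a) (ρ b)) {κ : Finset β}
    (hκ : κ ⊆ D) : (lkF H' D κ).image ρ = lkF H (D.image ρ) (κ.image ρ) := by
  ext u
  rw [mem_image, mem_lkF]
  constructor
  · rintro ⟨x, hx, rfl⟩
    obtain ⟨h1, h2⟩ := mem_lkF.1 hx
    refine ⟨mem_image_of_mem ρ h1, fun z hz => ?_⟩
    obtain ⟨a, ha, rfl⟩ := mem_image.1 hz
    exact (hadj a (hκ ha) x h1).1 (h2 a ha)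
  · rintro ⟨h1, h2⟩
    obtain ⟨x, hx, rfl⟩ := mem_image.1 h1
    refine ⟨x, mem_lkF.2 ⟨hx, fun a ha => ?_⟩, rfl⟩
    exact (hadj a (hκ ha) x hx).2 (h2 _ (mem_image_of_mem ρ ha))

theorem ex_lkF (hρ : StrictMonoOn ρ D)
    (hadj : ∀ a ∈ D, ∀ b ∈ D, H'.Adj a b ↔ H.Adj (ρ a) (ρ b)) {κ : Finset β} (hκ : κ ⊆ D) (j : ℕ)
    (h : Ex k H (lkF H (D.image ρ) (κ.image ρ)) j) : Ex k H' (lkF H' D κ) j := by
  have hsub : lkF H' D κ ⊆ D := fun x hx => (mem_lkF.1 hx).1
  refine ex_trans (ρ := ρ) (H := H) (fun a ha b hb => hρ (hsub ha) (hsub hb))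
    (fun a ha b hb => hadj a (hsub ha) b (hsub hb)) j ?_
  rw [lkF_image hadj hκ]
  exact h

end Q116.GD
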